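import Pool.Agent.H93.TS.ZPart

/-!
# The zero-sum partition theorems for `ℤ/3`, `ℤ/5` and `ℤ/7`
-/

set_option autoImplicit false

namespace Pool.Agent.H93.TS

open Multiset

/-- Every zero-sum sequence `X` over `ℤ/p` has a partition into at least `∑ (1 - {x j / p})`
zero-sum parts for some `j ≠ 0`. -/
def ZP (p : ℕ) : Prop :=
  ∀ X : Multiset (ZMod p), X.sum = 0 → ∃ j : ZMod p, j ≠ 0 ∧ Good p j X

theorem Good.addpair {p : ℕ} {j : ZMod p} {X : Multiset (ZMod p)} (h : Good p j X)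
    (x y : ZMod p) (hs : x + y = 0) (hw : (p - (x * j).val) + (p - (y * j).val) ≤ p) (m : ℕ) :
    Good p j (X + (replicate m x + replicate m y)) := by
  induction m with
  | zero => simpa using h
  | succ m ih =>
    have e : X + (replicate (m + 1) x + replicate (m + 1) y) =
        X + (replicate m x + replicate m y) + (replicate 1 x + replicate 1 y) := by
      rw [replicate_add, replicate_add]; abel
    rw [e]
    refine ih.add _ ?_ ?_ ?_
    · intro h2
      have := congrArg card h2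
      simp at this
    · simpa using hs
    · simpa using hw

theorem Good.addzero {p : ℕ} {j : ZMod p} {X : Multiset (ZMod p)} (h : Good p j X) (m : ℕ) :
    Good p j (X + replicate m 0) := by
  induction m with
  | zero => simpa using h
  | succ m ih =>
    have e : X + replicate (m + 1) (0 : ZMod p) = X + replicate m 0 + replicate 1 0 := by
      rw [replicate_add]; abel
    rw [e]
    refine ih.add _ ?_ ?_ ?_
    · intro h2
      have := congrArg card h2
      simp at this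
    · simp
    · simp

def M7 (c₁ c₂ c₃ c₄ c₅ c₆ : ℕ) : Multiset (ZMod 7) :=
  replicate c₁ 1 + replicate c₂ 2 + replicate c₃ 3 + replicate c₄ 4 + replicate c₅ 5 +
    replicate c₆ 6

theorem j_ne {p : ℕ} [Fact p.Prime] {k u : ZMod p} (hk : k ≠ 0) (hu : u ≠ 0) :
    -(k * u⁻¹) ≠ 0 := neg_ne_zero.mpr (mul_ne_zero hk (inv_ne_zero hu))

theorem finB {u : ZMod 7} (hu : u ≠ 0) {a b c : ℕ} (h : 7 ∣ a + 2 * b + 3 * c)
    {X : Multiset (ZMod 7)} (hX : X = C3 (1 * u) (2 * u) (3 * u) a b c) :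
    ∃ j : ZMod 7, j ≠ 0 ∧ Good 7 j X := by
  obtain ⟨k, hk, hg⟩ := typeB hu _ a b c le_rfl h
  refine ⟨_, j_ne (k := k) ?_ hu, hX ▸ hg⟩
  rcases hk with rfl | rfl | rfl <;> decide

theorem finA {u : ZMod 7} (hu : u ≠ 0) {a b c : ℕ} (h : 7 ∣ a + 2 * b + 4 * c)
    {X : Multiset (ZMod 7)} (hX : X = C3 (1 * u) (2 * u) (4 * u) a b c) :
    ∃ j : ZMod 7, j ≠ 0 ∧ Good 7 j X := by
  obtain ⟨k, hk, hg⟩ := typeA hu _ a b c le_rfl h
  refine ⟨_, j_ne (k := k) ?_ hu, hX ▸ hg⟩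
  rcases hk with rfl | rfl | rfl <;> decide

theorem reduced7 (c₁ c₂ c₃ c₄ c₅ c₆ : ℕ) (h1 : c₁ = 0 ∨ c₆ = 0) (h2 : c₂ = 0 ∨ c₅ = 0)
    (h3 : c₃ = 0 ∨ c₄ = 0) (h : 7 ∣ c₁ + 2 * c₂ + 3 * c₃ + 4 * c₄ + 5 * c₅ + 6 * c₆) :
    ∃ j : ZMod 7, j ≠ 0 ∧ Good 7 j (M7 c₁ c₂ c₃ c₄ c₅ c₆) := by
  rcases h1 with rfl | rfl <;> rcases h2 with rfl | rfl <;> rcases h3 with rfl | rfl
  · -- 6 5 4
    refine finB (u := 6) (by decide) (a := c₆) (b := c₅) (c := c₄) (by omega) ?_
    rw [show (1 * 6 : ZMod 7) = 6 by decide, show (2 * 6 : ZMod 7) = 5 by decide,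
      show (3 * 6 : ZMod 7) = 4 by decide]
    simp only [M7, C3, replicate_zero, zero_add, add_zero]
    abel
  · -- 6 5 3
    refine finA (u := 3) (by decide) (a := c₃) (b := c₆) (c := c₅) (by omega) ?_
    rw [show (1 * 3 : ZMod 7) = 3 by decide, show (2 * 3 : ZMod 7) = 6 by decide,
      show (4 * 3 : ZMod 7) = 5 by decide]
    simp only [M7, C3, replicate_zero, zero_add, add_zero]
    abel
  · -- 6 2 4
    refine finB (u := 2) (by decide) (a := c₂) (b := c₄) (c := c₆) (by omega) ?_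
    rw [show (1 * 2 : ZMod 7) = 2 by decide, show (2 * 2 : ZMod 7) = 4 by decide,
      show (3 * 2 : ZMod 7) = 6 by decide]
    simp only [M7, C3, replicate_zero, zero_add, add_zero]
  · -- 6 2 3
    refine finB (u := 3) (by decide) (a := c₃) (b := c₆) (c := c₂) (by omega) ?_
    rw [show (1 * 3 : ZMod 7) = 3 by decide, show (2 * 3 : ZMod 7) = 6 by decide,
      show (3 * 3 : ZMod 7) = 2 by decide]
    simp only [M7, C3, replicate_zero, zero_add, add_zero]
    abel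
  · -- 1 5 4
    refine finB (u := 4) (by decide) (a := c₄) (b := c₁) (c := c₅) (by omega) ?_
    rw [show (1 * 4 : ZMod 7) = 4 by decide, show (2 * 4 : ZMod 7) = 1 by decide,
      show (3 * 4 : ZMod 7) = 5 by decide]
    simp only [M7, C3, replicate_zero, zero_add, add_zero]
    abel
  · -- 1 5 3
    refine finB (u := 5) (by decide) (a := c₅) (b := c₃) (c := c₁) (by omega) ?_
    rw [show (1 * 5 : ZMod 7) = 5 by decide, show (2 * 5 : ZMod 7) = 3 by decide,
      show (3 * 5 : ZMod 7) = 1 by decide]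
    simp only [M7, C3, replicate_zero, zero_add, add_zero]
    abel
  · -- 1 2 4
    refine finA (u := 1) (by decide) (a := c₁) (b := c₂) (c := c₄) (by omega) ?_
    rw [show (1 * 1 : ZMod 7) = 1 by decide, show (2 * 1 : ZMod 7) = 2 by decide,
      show (4 * 1 : ZMod 7) = 4 by decide]
    simp only [M7, C3, replicate_zero, zero_add, add_zero]
  · -- 1 2 3
    refine finB (u := 1) (by decide) (a := c₁) (b := c₂) (c := c₃) (by omega) ?_
    rw [show (1 * 1 : ZMod 7) = 1 by decide, show (2 * 1 : ZMod 7) = 2 by decide,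
      show (3 * 1 : ZMod 7) = 3 by decide]
    simp only [M7, C3, replicate_zero, zero_add, add_zero]

theorem minsub (a b : ℕ) : ∃ m a' b' : ℕ, a = a' + m ∧ b = b' + m ∧ (a' = 0 ∨ b' = 0) := by
  rcases le_total a b with h | h
  · exact ⟨a, 0, b - a, by omega, by omega, Or.inl rfl⟩
  · exact ⟨b, a - b, 0, by omega, by omega, Or.inr rfl⟩

theorem zp7 : ZP 7 := by
  intro X hX
  have hall : ∀ a : ZMod 7, a = 0 ∨ a = 1 ∨ a = 2 ∨ a = 3 ∨ a = 4 ∨ a = 5 ∨ a = 6 := by decide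
  have hdec : X = M7 (count 1 X) (count 2 X) (count 3 X) (count 4 X) (count 5 X) (count 6 X) +
      replicate (count 0 X) 0 := by
    ext a
    simp only [M7, count_add, count_replicate]
    rcases hall a with rfl | rfl | rfl | rfl | rfl | rfl | rfl <;> simp +decide
  generalize count 0 X = c₀ at hdec
  generalize count 1 X = c₁ at hdec
  generalize count 2 X = c₂ at hdec
  generalize count 3 X = c₃ at hdec
  generalize count 4 X = c₄ at hdec
  generalize count 5 X = c₅ at hdec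
  generalize count 6 X = c₆ at hdec
  have hdvd : 7 ∣ c₁ + 2 * c₂ + 3 * c₃ + 4 * c₄ + 5 * c₅ + 6 * c₆ := by
    rw [← ZMod.natCast_eq_zero_iff]
    rw [hdec] at hX
    simp only [M7, sum_add, sum_replicate, nsmul_eq_mul] at hX
    push_cast
    linear_combination hX
  obtain ⟨m₁, d₁, d₆, rfl, rfl, e₁⟩ := minsub c₁ c₆
  obtain ⟨m₂, d₂, d₅, rfl, rfl, e₂⟩ := minsub c₂ c₅
  obtain ⟨m₃, d₃, d₄, rfl, rfl, e₃⟩ := minsub c₃ c₄
  obtain ⟨j, hj, hg⟩ := reduced7 d₁ d₂ d₃ d₄ d₅ d₆ e₁ e₂ e₃ (by omega)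
  refine ⟨j, hj, ?_⟩
  have hp : ∀ j : ZMod 7, j ≠ 0 → ((7 - (1 * j).val) + (7 - (6 * j).val) ≤ 7) ∧
      ((7 - (2 * j).val) + (7 - (5 * j).val) ≤ 7) ∧
      ((7 - (3 * j).val) + (7 - (4 * j).val) ≤ 7) := by decide
  obtain ⟨p1, p2, p3⟩ := hp j hj
  have g1 := (((hg.addpair 1 6 (by decide) p1 m₁).addpair 2 5 (by decide) p2 m₂).addpair 3 4
    (by decide) p3 m₃).addzero c₀
  rw [hdec]
  have e : M7 (d₁ + m₁) (d₂ + m₂) (d₃ + m₃) (d₄ + m₃) (d₅ + m₂) (d₆ + m₁) +
      replicate c₀ (0 : ZMod 7) = M7 d₁ d₂ d₃ d₄ d₅ d₆ + (replicate m₁ 1 + replicate m₁ 6) +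
      (replicate m₂ 2 + replicate m₂ 5) + (replicate m₃ 3 + replicate m₃ 4) +
      replicate c₀ 0 := by
    simp only [M7, replicate_add]
    abel
  rw [e]
  exact g1

def M5 (c₁ c₂ c₃ c₄ : ℕ) : Multiset (ZMod 5) :=
  replicate c₁ 1 + replicate c₂ 2 + replicate c₃ 3 + replicate c₄ 4

theorem finF {u : ZMod 5} (hu : u ≠ 0) {a b : ℕ} (h : 5 ∣ a + 2 * b)
    {X : Multiset (ZMod 5)} (hX : X = C3 (1 * u) (2 * u) (0 * u) a b 0) :
    ∃ j : ZMod 5, j ≠ 0 ∧ Good 5 j X := by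
  obtain ⟨k, hk, hg⟩ := typeF hu a b 0 rfl h
  refine ⟨_, j_ne (k := k) ?_ hu, hX ▸ hg⟩
  rcases hk with rfl | rfl <;> decide

theorem reduced5 (c₁ c₂ c₃ c₄ : ℕ) (h1 : c₁ = 0 ∨ c₄ = 0) (h2 : c₂ = 0 ∨ c₃ = 0)
    (h : 5 ∣ c₁ + 2 * c₂ + 3 * c₃ + 4 * c₄) :
    ∃ j : ZMod 5, j ≠ 0 ∧ Good 5 j (M5 c₁ c₂ c₃ c₄) := by
  rcases h1 with rfl | rfl <;> rcases h2 with rfl | rfl
  · -- 4 3
    refine finF (u := 4) (by decide) (a := c₄) (b := c₃) (by omega) ?_
    rw [show (1 * 4 : ZMod 5) = 4 by decide, show (2 * 4 : ZMod 5) = 3 by decide]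
    simp only [M5, C3, replicate_zero, zero_add, add_zero]
    abel
  · -- 4 2
    refine finF (u := 2) (by decide) (a := c₂) (b := c₄) (by omega) ?_
    rw [show (1 * 2 : ZMod 5) = 2 by decide, show (2 * 2 : ZMod 5) = 4 by decide]
    simp only [M5, C3, replicate_zero, zero_add, add_zero]
  · -- 1 3
    refine finF (u := 3) (by decide) (a := c₃) (b := c₁) (by omega) ?_
    rw [show (1 * 3 : ZMod 5) = 3 by decide, show (2 * 3 : ZMod 5) = 1 by decide]
    simp only [M5, C3, replicate_zero, zero_add, add_zero]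
    abel
  · -- 1 2
    refine finF (u := 1) (by decide) (a := c₁) (b := c₂) (by omega) ?_
    rw [show (1 * 1 : ZMod 5) = 1 by decide, show (2 * 1 : ZMod 5) = 2 by decide]
    simp only [M5, C3, replicate_zero, zero_add, add_zero]

theorem zp5 : ZP 5 := by
  intro X hX
  have hall : ∀ a : ZMod 5, a = 0 ∨ a = 1 ∨ a = 2 ∨ a = 3 ∨ a = 4 := by decide
  have hdec : X = M5 (count 1 X) (count 2 X) (count 3 X) (count 4 X) +
      replicate (count 0 X) 0 := by
    ext a
    simp only [M5, count_add, count_replicate]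
    rcases hall a with rfl | rfl | rfl | rfl | rfl <;> simp +decide
  generalize count 0 X = c₀ at hdec
  generalize count 1 X = c₁ at hdec
  generalize count 2 X = c₂ at hdec
  generalize count 3 X = c₃ at hdec
  generalize count 4 X = c₄ at hdec
  have hdvd : 5 ∣ c₁ + 2 * c₂ + 3 * c₃ + 4 * c₄ := by
    rw [← ZMod.natCast_eq_zero_iff]
    rw [hdec] at hX
    simp only [M5, sum_add, sum_replicate, nsmul_eq_mul] at hX
    push_cast
    linear_combination hX
  obtain ⟨m₁, d₁, d₄, rfl, rfl, e₁⟩ := minsub c₁ c₄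
  obtain ⟨m₂, d₂, d₃, rfl, rfl, e₂⟩ := minsub c₂ c₃
  obtain ⟨j, hj, hg⟩ := reduced5 d₁ d₂ d₃ d₄ e₁ e₂ (by omega)
  refine ⟨j, hj, ?_⟩
  have hp : ∀ j : ZMod 5, j ≠ 0 → ((5 - (1 * j).val) + (5 - (4 * j).val) ≤ 5) ∧
      ((5 - (2 * j).val) + (5 - (3 * j).val) ≤ 5) := by decide
  obtain ⟨p1, p2⟩ := hp j hj
  have g1 := ((hg.addpair 1 4 (by decide) p1 m₁).addpair 2 3 (by decide) p2 m₂).addzero c₀
  rw [hdec]
  have e : M5 (d₁ + m₁) (d₂ + m₂) (d₃ + m₂) (d₄ + m₁) +
      replicate c₀ (0 : ZMod 5) = M5 d₁ d₂ d₃ d₄ + (replicate m₁ 1 + replicate m₁ 4) +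
      (replicate m₂ 2 + replicate m₂ 3) + replicate c₀ 0 := by
    simp only [M5, replicate_add]
    abel
  rw [e]
  exact g1

theorem three_rep {j x : ZMod 3} (hw : 3 * (3 - (x * j).val) ≤ 3) (n : ℕ) :
    Good 3 j (replicate (3 * n) x) := by
  induction n with
  | zero => simpa using Good.zero
  | succ n ih =>
    have e : replicate (3 * (n + 1)) x = replicate (3 * n) x + replicate 3 x := by
      rw [← replicate_add]; rfl
    rw [e]
    refine ih.add _ ?_ ?_ ?_
    · intro h2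
      have := congrArg card h2
      simp at this
    · rw [sum_replicate, nsmul_eq_mul]
      have : ((3 : ℕ) : ZMod 3) = 0 := by decide
      rw [this, zero_mul]
    · rw [map_replicate, sum_replicate, smul_eq_mul]
      exact hw

theorem zp3 : ZP 3 := by
  intro X hX
  have hall : ∀ a : ZMod 3, a = 0 ∨ a = 1 ∨ a = 2 := by decide
  have hdec : X = replicate (count 1 X) 1 + replicate (count 2 X) 2 +
      replicate (count 0 X) 0 := by
    ext a
    simp only [count_add, count_replicate]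
    rcases hall a with rfl | rfl | rfl <;> simp +decide
  generalize count 0 X = c₀ at hdec
  generalize count 1 X = c₁ at hdec
  generalize count 2 X = c₂ at hdec
  have hdvd : 3 ∣ c₁ + 2 * c₂ := by
    rw [← ZMod.natCast_eq_zero_iff]
    rw [hdec] at hX
    simp only [sum_add, sum_replicate, nsmul_eq_mul] at hX
    push_cast
    linear_combination hX
  obtain ⟨m₁, d₁, d₂, rfl, rfl, e₁⟩ := minsub c₁ c₂
  have hred : ∃ j : ZMod 3, j ≠ 0 ∧ Good 3 j (replicate d₁ 1 + replicate d₂ 2) := by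
    rcases e₁ with rfl | rfl
    · obtain ⟨n, rfl⟩ : 3 ∣ d₂ := by omega
      exact ⟨1, by decide, by simpa using three_rep (j := 1) (x := 2) (by decide) n⟩
    · obtain ⟨n, rfl⟩ : 3 ∣ d₁ := by omega
      exact ⟨2, by decide, by simpa using three_rep (j := 2) (x := 1) (by decide) n⟩
  obtain ⟨j, hj, hg⟩ := hred
  refine ⟨j, hj, ?_⟩
  have hp : ∀ j : ZMod 3, j ≠ 0 → ((3 - (1 * j).val) + (3 - (2 * j).val) ≤ 3) := by decide
  have g1 := (hg.addpair 1 2 (by decide) (hp j hj) m₁).addzero c₀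
  rw [hdec]
  have e : replicate (d₁ + m₁) (1 : ZMod 3) + replicate (d₂ + m₁) 2 + replicate c₀ 0 =
      replicate d₁ 1 + replicate d₂ 2 + (replicate m₁ 1 + replicate m₁ 2) + replicate c₀ 0 := by
    simp only [replicate_add]
    abel
  rw [e]
  exact g1

end Pool.Agent.H93.TS
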