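import Pool.Agent.H93.TS.Mov
import Pool.Agent.H93.TS.ZP

/-!
# From zero-sum partitions to paths
-/

set_option autoImplicit false

namespace Pool.Agent.H93.TS

open Multiset

/-- `Cap e G Q B`: the multiset `B` is the sum of `G` nonempty groups, and `Q` is the sum of the
numbers `⌊s / e⌋`, `s` the sums of the groups. -/
inductive Cap (e : ℕ) : ℕ → ℕ → Multiset ℕ → Prop
  | zero : Cap e 0 0 0
  | cons {G Q : ℕ} {B : Multiset ℕ} (α : Multiset ℕ) (h0 : α ≠ 0) (h : Cap e G Q B) :
      Cap e (G + 1) (Q + α.sum / e) (B + α)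

theorem Cap.cast {e G Q G' Q' : ℕ} {B B' : Multiset ℕ} (h : Cap e G Q B) (hG : G = G')
    (hQ : Q = Q') (hB : B = B') : Cap e G' Q' B' := by
  subst hG hQ hB; exact h

theorem cap_moves {e : ℕ} (he : 0 < e) {G Q : ℕ} {B : Multiset ℕ} (h : Cap e G Q B) :
    (∀ n ∈ B, 0 < n) → ∀ R ≤ Q, ∃ s, Moves s B (replicate R e) ∧
      s + 2 * G + R * e ≤ card B + R + B.sum := by
  induction h with
  | zero =>
    intro _ R hR
    have : R = 0 := by omega
    subst this
    exact ⟨0, by simpa using Moves.refl 0, by simp⟩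
  | @cons G Q B α h0 h ih =>
    intro hB R hR
    obtain ⟨r, R', rfl, hr, hR'⟩ : ∃ r R' : ℕ, R = R' + r ∧ r ≤ α.sum / e ∧ R' ≤ Q := by
      rcases le_total R (α.sum / e) with h | h
      · exact ⟨R, 0, by simp, h, Nat.zero_le _⟩
      · refine ⟨α.sum / e, R - α.sum / e, by omega, le_rfl, by omega⟩
    obtain ⟨s₁, m₁, c₁⟩ := ih (fun n hn => hB n (mem_add.mpr (Or.inl hn))) R' hR'
    have hr2 : r * e ≤ α.sum := (Nat.le_div_iff_mul_le he).mp hr
    obtain ⟨s₂, m₂, c₂⟩ := group_moves α (replicate r e)
      (fun n hn => hB n (mem_add.mpr (Or.inr hn))) (rep_pos he) h0 (by simpa using hr2)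
    rw [card_replicate, sum_replicate, smul_eq_mul] at c₂
    refine ⟨s₁ + s₂, ?_, ?_⟩
    · rw [replicate_add]
      exact m₁.append m₂
    · have e2 : (R' + r) * e = R' * e + r * e := by ring
      rw [card_add, sum_add]
      omega

theorem cap_singles (e : ℕ) (B : Multiset ℕ) : Cap e (card B) ((B.map fun n => n / e).sum) B := by
  induction B using Multiset.induction_on with
  | empty => exact Cap.zero.cast (by simp) (by simp) rfl
  | cons n B ih =>
    refine (ih.cons {n} (by simp)).cast (by simp) (by simp [add_comm]) ?_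
    rw [add_comm, singleton_add]

theorem cap_split {e : ℕ} (he : 0 < e) {G Q : ℕ} {B : Multiset ℕ} (h : Cap e G Q B) :
    (B.map fun n => n / e).sum < Q → ∃ Q', Q ≤ Q' + 1 ∧ Cap e (G + 1) Q' B := by
  induction h with
  | zero => intro h; simp at h
  | @cons G Q B α h0 h ih =>
    intro hQ
    rcases Nat.lt_or_ge (card α) 2 with hc | hc
    · have hc1 : card α = 1 := by
        have := Multiset.card_pos.mpr h0
        omega
      obtain ⟨n, rfl⟩ := Multiset.card_eq_one.mp hc1
      rw [map_add, sum_add] at hQ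
      simp only [map_singleton, sum_singleton] at hQ
      obtain ⟨Q', hQ', h'⟩ := ih (by omega)
      refine ⟨Q' + n / e, by simp only [sum_singleton]; omega, ?_⟩
      exact (h'.cons {n} (by simp)).cast rfl (by simp) rfl
    · obtain ⟨n, hn⟩ := Multiset.exists_mem_of_ne_zero h0
      obtain ⟨α', rfl⟩ := Multiset.exists_cons_of_mem hn
      have hα' : α' ≠ 0 := by
        rintro rfl
        simp at hc
      refine ⟨Q + α'.sum / e + n / e, ?_, ?_⟩
      · rw [sum_cons]
        have a1 := Nat.lt_div_mul_add (a := n) he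
        have a2 := Nat.lt_div_mul_add (a := α'.sum) he
        have a3 : (n + α'.sum) / e < n / e + α'.sum / e + 2 := by
          rw [Nat.div_lt_iff_lt_mul he]
          have : (n / e + α'.sum / e + 2) * e = n / e * e + α'.sum / e * e + 2 * e := by ring
          omega
        omega
      · refine ((h.cons α' hα').cons {n} (by simp)).cast rfl (by simp) ?_
        rw [← singleton_add, add_assoc, add_comm α']

theorem cap_splits {e : ℕ} (he : 0 < e) {R : ℕ} {B : Multiset ℕ}
    (hR : (B.map fun n => n / e).sum < R) : ∀ (p G Q : ℕ), Cap e G Q B → R + p ≤ Q →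
      ∃ Q', R ≤ Q' ∧ Cap e (G + p) Q' B
  | 0, G, Q, h, hQ => ⟨Q, by omega, h⟩
  | p + 1, G, Q, h, hQ => by
    obtain ⟨Q', hQ', h'⟩ := cap_split he h (by omega)
    obtain ⟨Q'', hQ'', h''⟩ := cap_splits he hR p (G + 1) Q' h' (by omega)
    exact ⟨Q'', hQ'', h''.cast (by ring) rfl rfl⟩

/-! ### Lifting partitions -/

theorem map_add_split {α β : Type*} [DecidableEq α] (f : α → β) (g : Multiset β) :
    ∀ (Y : Multiset β) (X : Multiset α), X.map f = Y + g →
      ∃ X₁ X₂, X = X₁ + X₂ ∧ X₁.map f = Y ∧ X₂.map f = g := by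
  induction g using Multiset.induction_on with
  | empty => intro Y X h; exact ⟨X, 0, by simp, by simpa using h, by simp⟩
  | cons b g ih =>
    intro Y X h
    rw [add_cons] at h
    obtain ⟨a, ha, hfa, he⟩ := (Multiset.map_eq_cons f X (Y + g) b).mpr h
    obtain ⟨X₁, X₂, h1, h2, h3⟩ := ih Y (X.erase a) he
    refine ⟨X₁, a ::ₘ X₂, ?_, h2, ?_⟩
    · rw [add_cons, ← h1, cons_erase ha]
    · rw [map_cons, hfa, h3]

theorem lift {α β : Type*} [DecidableEq α] (f : α → β) {P : Multiset β → Prop} {G : ℕ}
    {Y : Multiset β} (h : Parts P G Y) :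
    ∀ X : Multiset α, X.map f = Y → Parts (fun g => P (g.map f)) G X := by
  induction h with
  | zero =>
    intro X hX
    rw [Multiset.map_eq_zero] at hX
    subst hX
    exact Parts.zero
  | @cons G Y g h0 hg h ih =>
    intro X hX
    obtain ⟨X₁, X₂, rfl, h2, h3⟩ := map_add_split f g Y X hX
    refine (ih X₁ h2).cons X₂ ?_ ?_
    · rintro rfl
      apply h0
      rw [← h3]; simp
    · rw [h3]; exact hg

/-- The positive members. -/
def pos (X : Multiset ℤ) : Multiset ℕ := (X.filter fun x => 0 < x).map Int.toNat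

theorem pos_add (X Y : Multiset ℤ) : pos (X + Y) = pos X + pos Y := by
  unfold pos
  rw [filter_add, map_add]

theorem pos_cast (B : Multiset ℕ) (hB : ∀ n ∈ B, 0 < n) :
    pos (B.map (Nat.cast : ℕ → ℤ)) = B := by
  induction B using Multiset.induction_on with
  | empty => simp [pos]
  | cons n B ih =>
    have hn := hB n (mem_cons_self n B)
    have ih' := ih fun k hk => hB k (mem_cons_of_mem hk)
    unfold pos at ih' ⊢
    rw [map_cons, filter_cons_of_pos _ (by exact_mod_cast hn), map_cons, ih']
    simp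

theorem pos_neg (D : ℕ) : pos (replicate D (-1)) = 0 := by
  unfold pos
  rw [Multiset.map_eq_zero, filter_eq_nil]
  intro x hx
  rw [eq_of_mem_replicate hx]
  norm_num

theorem sum_le_pos (g : Multiset ℤ) (hg : ∀ x ∈ g, 0 < x ∨ x = -1) :
    g.sum ≤ (pos g).sum := by
  induction g using Multiset.induction_on with
  | empty => simp [pos]
  | cons x g ih =>
    have ih' := ih fun k hk => hg k (mem_cons_of_mem hk)
    rcases hg x (mem_cons_self x g) with h | h
    · have e : pos (x ::ₘ g) = x.toNat ::ₘ pos g := by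
        unfold pos
        rw [filter_cons_of_pos _ h, map_cons]
      rw [e, sum_cons, sum_cons, Nat.cast_add, Int.toNat_of_nonneg h.le]
      linarith
    · have e : pos (x ::ₘ g) = pos g := by
        unfold pos
        rw [filter_cons_of_neg _ (by omega)]
      rw [e, sum_cons]
      omega

theorem parts_to_cap {e : ℕ} (he : 0 < e) {G : ℕ} {X : Multiset ℤ}
    (h : Parts (fun g => (e : ℤ) ∣ g.sum) G X) : (∀ x ∈ X, 0 < x ∨ x = -1) →
    ∃ q p Q : ℕ, G = q + p ∧ Cap e q Q (pos X) ∧ X.sum + e * p ≤ e * Q := by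
  have heZ : (0 : ℤ) < e := by exact_mod_cast he
  induction h with
  | zero => intro _; exact ⟨0, 0, 0, rfl, by simpa [pos] using Cap.zero, by simp⟩
  | @cons G X g h0 hg h ih =>
    intro hX
    obtain ⟨q, p, Q, rfl, hC, hS⟩ := ih fun x hx => hX x (mem_add.mpr (Or.inl hx))
    have hgx : ∀ x ∈ g, 0 < x ∨ x = -1 := fun x hx => hX x (mem_add.mpr (Or.inr hx))
    obtain ⟨t, ht⟩ := hg
    rw [pos_add, sum_add]
    rcases eq_or_ne (pos g) 0 with hα | hα
    · have hall : g = replicate (card g) (-1) := by
        rw [Multiset.eq_replicate]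
        refine ⟨rfl, fun x hx => ?_⟩
        rcases hgx x hx with h | h
        · exfalso
          unfold pos at hα
          rw [Multiset.map_eq_zero, filter_eq_nil] at hα
          exact hα x hx h
        · exact h
      have hgs : g.sum = -(card g : ℤ) := by
        rw [hall, sum_replicate]
        simp
      have hc : 0 < card g := Multiset.card_pos.mpr h0
      have ht0 : t ≤ -1 := by
        by_contra h5
        have h6 : 0 ≤ t := by omega
        have h7 : 0 ≤ (e : ℤ) * t := mul_nonneg heZ.le h6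
        omega
      have h8 : (e : ℤ) * t ≤ e * (-1) := mul_le_mul_of_nonneg_left ht0 heZ.le
      refine ⟨q, p + 1, Q, by ring, by rw [hα, add_zero]; exact hC, ?_⟩
      push_cast
      rw [ht]
      linarith
    · refine ⟨q + 1, p, Q + (pos g).sum / e, by ring, hC.cons _ hα, ?_⟩
      have h1 := sum_le_pos g hgx
      have h2 : t ≤ (((pos g).sum / e : ℕ) : ℤ) := by
        rw [Int.natCast_div, Int.le_ediv_iff_mul_le heZ]
        rw [ht] at h1
        linarith
      have h3 : (e : ℤ) * t ≤ e * (((pos g).sum / e : ℕ) : ℤ) :=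
        mul_le_mul_of_nonneg_left h2 heZ.le
      rw [Nat.cast_add, ht]
      linarith

/-- Exact partitions give paths. -/
theorem exact_moves {e : ℕ} (he : 0 < e) {G : ℕ} {B : Multiset ℕ}
    (h : Parts (fun g => e ∣ g.sum) G B) : (∀ n ∈ B, 0 < n) →
    ∃ R s : ℕ, B.sum = R * e ∧ Moves s (replicate R e) B ∧ s + 2 * G ≤ R + card B := by
  induction h with
  | zero => intro _; exact ⟨0, 0, by simp, by simpa using Moves.refl 0, by simp⟩
  | @cons G B g h0 hg h ih =>
    intro hB
    obtain ⟨R, s, hR, m, c⟩ := ih fun n hn => hB n (mem_add.mpr (Or.inl hn))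
    obtain ⟨r, hr⟩ := hg
    have hgp : ∀ n ∈ g, 0 < n := fun n hn => hB n (mem_add.mpr (Or.inr hn))
    have hs := sum_pos_of hgp h0
    have hr0 : r ≠ 0 := by
      rintro rfl
      omega
    have hre : r * e = g.sum := by rw [hr]; ring
    obtain ⟨s₂, m₂, c₂⟩ := group_moves (replicate r e) g (rep_pos he) hgp (by
      intro h2
      have := congrArg card h2
      simp at this
      omega) (by simp [hre])
    rw [card_replicate, sum_replicate, smul_eq_mul, hre] at c₂
    refine ⟨R + r, s + s₂, ?_, ?_, ?_⟩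
    · rw [sum_add, hR, ← hre]; ring
    · rw [replicate_add]
      exact m.append m₂
    · rw [card_add]
      omega

theorem drop_ones {s : ℕ} {A B : Multiset ℕ} : ∀ D : ℕ, Moves s A (B + replicate D 1) →
    Moves s A B
  | 0, h => by simpa using h
  | D + 1, h => by
    rw [replicate_succ, add_cons] at h
    exact drop_ones D h.drop

end Pool.Agent.H93.TS
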