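import Pool.Agent.H93.TS.Dec

/-!
# The two core inequalities
-/

set_option autoImplicit false

namespace Pool.Agent.H93.TS

variable {e H w₁ w₂ : ℤ}

/-- `J` odd, `l` odd. -/
theorem case_odd (he : 0 < e) {l J L G M y z : ℕ} {s B T : ℤ} (hlJ : l ≤ J)
    (hlo : Odd l) (hJ : Odd J) (hdet : (l : ℤ) * B - s * J = 1) (hJB : H * J < e * B)
    (hL : e * (s + L * B) ≤ H * (l + L * J))
    (hL1 : H * (l + (L + 1) * J) < e * (s + (L + 1) * B)) (hM : M ≤ L * G)
    (hW : y + 2 * z = G * l + M * J) (hT : T = G * s + M * B) :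
    ∃ G' j : ℕ, Dec e H 1 2 G' y z T ∧ F e H 1 2 y z T j ≤ G' := by
  have hWZ : (y : ℤ) + 2 * z = G * l + M * J := by exact_mod_cast hW
  rcases Nat.lt_or_ge M G with hMG | hMG
  · obtain ⟨l', rfl⟩ := hlo
    obtain ⟨J', rfl⟩ := hJ
    obtain ⟨q, rfl⟩ : ∃ q, J' = l' + q := ⟨J' - l', by omega⟩
    obtain ⟨n, rfl⟩ : ∃ n, G = M + n := ⟨G - M, by omega⟩
    have hu := line hJB hL (Nat.zero_le L)
    have dE : Dec e H 1 2 M (M * 0) (M * (2 * l' + q + 1)) (M * (s + B)) := by
      rcases Nat.eq_zero_or_pos M with h | h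
      · subst h
        exact Dec.zero.cast (by simp) (by simp) (by simp) (by simp)
      · have hL0 : 1 ≤ L := by
          by_contra h5
          have : L = 0 := by omega
          subst this
          simp at hM
          omega
        have h1 := line hJB hL hL0
        have h2 := bal (e := e) (H := H) (w₁ := 1) (w₂ := 2) 0 (2 * l' + q + 1) 0 (s + B) 0 0
          (by omega) (by
            intro m hm
            have hm0 : m = 0 := by omega
            subst hm0
            push_cast at h1 ⊢
            linarith) M 0 (by omega)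
        exact h2.cast rfl rfl (by ring) (by push_cast; ring)
    have hpar : y + 2 * z = n + 2 * (n * l' + M * (2 * l' + q + 1)) := by rw [hW]; ring
    rcases Nat.lt_or_ge y n with hy | hy
    · obtain ⟨p, rfl⟩ : ∃ p, n = y + 2 * p := ⟨(n - y) / 2, by omega⟩
      have dO := bal (e := e) (H := H) (w₁ := 1) (w₂ := 2) 1 l' 0 s 0 0
        (by omega) (by
          intro m hm
          have hm0 : m = 0 := by omega
          subst hm0
          push_cast at hu ⊢
          linarith) y 0 (by omega)
      have dP := bal (e := e) (H := H) (w₁ := 1) (w₂ := 2) 0 (2 * l' + 1) 0 (2 * s) 0 0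
        (by omega) (by
          intro m hm
          have hm0 : m = 0 := by omega
          subst hm0
          push_cast at hu ⊢
          linarith) p 0 (by omega)
      refine ⟨y + p + M, q, ((dO.add dP).add dE).cast rfl (by ring) ?_ ?_, ?_⟩
      · have e4 : y + 2 * p + 2 * ((y + 2 * p) * l' + M * (2 * l' + q + 1)) =
            y + 2 * (y * l' + 0 * 0 + (p * (2 * l' + 1) + 0 * 0) + M * (2 * l' + q + 1)) := by
          ring
        omega
      · rw [hT]; push_cast; ring
      · have h1 := F_half (H := H) he (y := y) (z := z) (T := T) (j := (q : ℤ))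
          (β := B - s) (by
            push_cast at hu hJB ⊢
            linarith)
        have h2 : ((y : ℤ) + 2 * z) * (B - s) + y - 2 * (T * q) = 2 * (y + p + M) := by
          rw [hWZ, hT]
          push_cast at hdet ⊢
          linear_combination (2 * (M : ℤ) + y + 2 * p) * hdet
        push_cast
        linarith
    · obtain ⟨m, rfl⟩ : ∃ m, y = n + 2 * m := ⟨(y - n) / 2, by omega⟩
      have dO := bal (e := e) (H := H) (w₁ := 1) (w₂ := 2) 1 l' 0 s 0 0
        (by omega) (by
          intro m hm
          have hm0 : m = 0 := by omega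
          subst hm0
          push_cast at hu ⊢
          linarith) n 0 (by omega)
      refine ⟨M + n, 2 * (l' + q) + 1, ?_, ?_⟩
      · have d2 := Dec.conv (m := m) (z := z) ((dO.add dE).cast (z' := z + m) (T' := T) rfl rfl
          (by omega) (by rw [hT]; push_cast; ring))
        exact d2.cast (by ring) (by ring) rfl rfl
      · have h1 := F_one he (H := H) (y := n + 2 * m) (z := z) (T := T)
          (J := ((2 * (l' + q) + 1 : ℕ) : ℤ)) (B := B) hJB
        have h2 : (((n + 2 * m : ℕ) : ℤ) + 2 * z) * B - T * ((2 * (l' + q) + 1 : ℕ) : ℤ) =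
            ((M + n : ℕ) : ℤ) := by
          rw [hWZ, hT]
          push_cast at hdet ⊢
          linear_combination ((M : ℤ) + n) * hdet
        linarith
  · rcases Nat.eq_zero_or_pos L with hL0 | hL0
    · subst hL0
      have hM0 : M = 0 := by simpa using hM
      subst hM0
      have hG0 : G = 0 := by omega
      subst hG0
      have hy : y = 0 := by simp at hW; omega
      have hz : z = 0 := by simp at hW; omega
      subst hy hz
      have hT0 : T = 0 := by simpa using hT
      subst hT0
      exact ⟨0, 0, Dec.zero, by simp [F]⟩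
    · obtain ⟨L', rfl⟩ : ∃ L', L = L' + 1 := ⟨L - 1, by omega⟩
      obtain ⟨M', rfl⟩ : ∃ M', M = G + M' := ⟨M - G, by omega⟩
      refine case_base (l := l + J) (J := J) (L := L') (G := G) (M := M') (s := s + B) (B := B)
        he ?_ (hlo.add_odd hJ) hJ ?_ hJB ?_ ?_ ?_ ?_ ?_
      · have := hlo.pos
        omega
      · push_cast; linarith
      · push_cast at hL ⊢; linarith
      · push_cast at hL1 ⊢; linarith
      · have : (L' + 1) * G = L' * G + G := by ring
        omega
      · rw [hW]; ring
      · rw [hT]; push_cast; ring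

theorem from_conf (he : 0 < e) {l J L G M y z : ℕ} {s B T : ℤ} (hl : 1 ≤ l) (hlJ : l ≤ J)
    (hdet : (l : ℤ) * B - s * J = 1) (hJB : H * J < e * B)
    (hL : e * (s + L * B) ≤ H * (l + L * J))
    (hL1 : H * (l + (L + 1) * J) < e * (s + (L + 1) * B)) (hM : M ≤ L * G)
    (hW : y + 2 * z = G * l + M * J) (hT : T = G * s + M * B) :
    ∃ G' j : ℕ, Dec e H 1 2 G' y z T ∧ F e H 1 2 y z T j ≤ G' := by
  rcases Nat.even_or_odd J with hJ | hJ
  · exact case_even he hJ hdet hJB hL hM hW hT
  · rcases Nat.even_or_odd l with hl2 | hl2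
    · exact case_base he hl hl2 hJ hdet hJB hL hL1 hM hW hT
    · exact case_odd he hlJ hl2 hJ hdet hJB hL hL1 hM hW hT

theorem descent (n : ℕ) : ∀ (l J α β : ℕ) (s B : ℤ), α + β ≤ n → 1 ≤ l → l ≤ J →
    (l : ℤ) * B - s * J = 1 → e * s ≤ H * l → H * J < e * B →
    e * (α * s + β * B) ≤ H * (α * l + β * J) →
    ∃ (l' J' L G M : ℕ) (s' B' : ℤ), 1 ≤ l' ∧ l' ≤ J' ∧ (l' : ℤ) * B' - s' * J' = 1 ∧
      H * J' < e * B' ∧ e * (s' + L * B') ≤ H * (l' + L * J') ∧
      H * (l' + (L + 1) * J') < e * (s' + (L + 1) * B') ∧ M ≤ L * G ∧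
      α * l + β * J = G * l' + M * J' ∧ (α * s + β * B : ℤ) = G * s' + M * B' := by
  induction n with
  | zero =>
    intro l J α β s B hn hl hlJ hdet hs hB hu
    have hα : α = 0 := by omega
    have hβ : β = 0 := by omega
    subst hα hβ
    have hd : 0 < e * B - H * J := by linarith
    have hc : 0 ≤ H * l - e * s := by linarith
    have hL0 : 0 ≤ (H * l - e * s) / (e * B - H * J) := Int.ediv_nonneg hc hd.le
    obtain ⟨L, hL⟩ := Int.eq_ofNat_of_zero_le hL0
    have h1 := Int.ediv_mul_le (H * l - e * s) hd.ne'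
    have h2 := Int.lt_ediv_add_one_mul_self (H * l - e * s) hd
    rw [hL] at h1 h2
    exact ⟨l, J, L, 0, 0, s, B, hl, hlJ, hdet, hB, by linarith, by linarith, by simp, rfl, rfl⟩
  | succ n ih =>
    intro l J α β s B hn hl hlJ hdet hs hB hu
    have hd : 0 < e * B - H * J := by linarith
    have hc : 0 ≤ H * l - e * s := by linarith
    have hL0 : 0 ≤ (H * l - e * s) / (e * B - H * J) := Int.ediv_nonneg hc hd.le
    obtain ⟨L, hL⟩ := Int.eq_ofNat_of_zero_le hL0
    have h1 := Int.ediv_mul_le (H * l - e * s) hd.ne'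
    have h2 := Int.lt_ediv_add_one_mul_self (H * l - e * s) hd
    rw [hL] at h1 h2
    rcases Nat.lt_or_ge (L * α) β with hβ | hβ
    · obtain ⟨β', rfl⟩ : ∃ β', β = L * α + β' := ⟨β - L * α, by omega⟩
      have hβ0 : 0 < β' := by omega
      have hle : β' ≤ α := by
        by_contra h5
        have h6 : α + 1 ≤ β' := by omega
        have h7 : ((α : ℤ) + 1) * (e * B - H * J) ≤ β' * (e * B - H * J) :=
          mul_le_mul_of_nonneg_right (by exact_mod_cast h6) hd.le
        have h8 : (α : ℤ) * (H * l - e * s) ≤ α * ((L + 1) * (e * B - H * J)) :=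
          mul_le_mul_of_nonneg_left h2.le (by positivity)
        push_cast at hu
        linarith
      obtain ⟨α', rfl⟩ : ∃ α', α = α' + β' := ⟨α - β', by omega⟩
      obtain ⟨l', J', L', G, M, s', B', k1, k2, k3, k4, k5, k6, k7, k8, k9⟩ :=
        ih (l + L * J) (l + (L + 1) * J) α' β' (s + L * B) (s + (L + 1) * B) (by omega)
          (by omega) (by
            have : (L + 1) * J = L * J + J := by ring
            omega) (by push_cast; linear_combination hdet) (by push_cast; linarith)
          (by push_cast; linarith) (by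
            push_cast at hu ⊢
            linarith)
      refine ⟨l', J', L', G, M, s', B', k1, k2, k3, k4, k5, k6, k7, ?_, ?_⟩
      · rw [← k8]; ring
      · rw [← k9]; push_cast; ring
    · exact ⟨l, J, L, α, β, s, B, hl, hlJ, hdet, hB, by linarith, by linarith, hβ, rfl, rfl⟩

/-- The core inequality for the weights `1` and `2`. -/
theorem core12 (he : 0 < e) {y z : ℕ} {T : ℤ}
    (h1 : (y : ℤ) * (H * 1 / e) + z * (H * 2 / e) < T) (h2 : e * T ≤ H * (y * 1 + z * 2)) :
    ∃ G j : ℕ, 1 ≤ j ∧ Dec e H 1 2 G y z T ∧ F e H 1 2 y z T j ≤ G := by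
  set s₀ := H * 1 / e with hs₀
  have a1 : s₀ * e ≤ H * 1 := Int.ediv_mul_le _ he.ne'
  have a2 : H * 1 < (s₀ + 1) * e := Int.lt_ediv_add_one_mul_self _ he
  have a3 : 2 * s₀ ≤ H * 2 / e := by
    rw [Int.le_ediv_iff_mul_le he]
    linarith
  have a4 : (z : ℤ) * (2 * s₀) ≤ z * (H * 2 / e) := mul_le_mul_of_nonneg_left a3 (by positivity)
  have a5 : 0 < T - s₀ * (y + 2 * z) := by linarith
  obtain ⟨β, hβ⟩ := Int.eq_ofNat_of_zero_le a5.le
  have a6 : β ≤ y + 2 * z := by
    have h3 : (H * 1) * ((y : ℤ) + 2 * z) ≤ ((s₀ + 1) * e) * (y + 2 * z) :=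
      mul_le_mul_of_nonneg_right a2.le (by positivity)
    have h4 : e * (β : ℤ) ≤ e * (y + 2 * z) := by rw [← hβ]; linarith
    have h5 := le_of_mul_le_mul_left h4 he
    exact_mod_cast h5
  obtain ⟨α, hα⟩ : ∃ α, y + 2 * z = α + β := ⟨y + 2 * z - β, by omega⟩
  have hαZ : (y : ℤ) + 2 * z = α + β := by exact_mod_cast hα
  have hT : T = α * s₀ + β * (s₀ + 1) := by
    rw [hαZ] at hβ
    linarith
  obtain ⟨l', J', L, G, M, s', B', k1, k2, k3, k4, k5, k6, k7, k8, k9⟩ :=
    descent (e := e) (H := H) (α + β) 1 1 α β s₀ (s₀ + 1) le_rfl le_rfl le_rfl (by push_cast; ring)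
      (by push_cast; linarith) (by push_cast; linarith) (by
        rw [← hT]
        push_cast
        have : H * (α * 1 + β * 1) = H * (y * 1 + z * 2) := by
          rw [mul_one, mul_one, mul_one, ← hαZ]; ring
        linarith)
  obtain ⟨G', j, d, hF⟩ := from_conf he (y := y) (z := z) (T := T) k1 k2 k3 k4 k5 k6 k7
    (by rw [hα, ← k8]; ring) (by rw [hT, ← k9])
  rcases Nat.eq_zero_or_pos j with hj | hj
  · subst hj
    refine ⟨G', 1, le_rfl, d, ?_⟩
    have h3 : F e H 1 2 y z T ((0 : ℕ) : ℤ) = y + z := by simp [F]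
    have h4 : F e H 1 2 y z T ((1 : ℕ) : ℤ) = y + z + (y * (H * 1 / e) + z * (H * 2 / e) - T) := by
      simp only [F, Nat.cast_one, mul_one]
      ring
    rw [h3] at hF
    rw [h4]
    linarith
  · exact ⟨G', j, hj, d, hF⟩

/-- The core inequality for the weights `-1` and `1`. -/
theorem coreM (he : 0 < e) (hH0 : H ≠ 0) (hH1 : -e < H) (hH2 : H < e) {x z : ℕ} (hxz : x ≤ z)
    {T : ℤ} (h1 : (x : ℤ) * (H * (-1) / e) + z * (H * 1 / e) < T)
    (h2 : e * T ≤ H * (x * (-1) + z * 1)) :
    ∃ G j : ℕ, 1 ≤ j ∧ Dec e H (-1) 1 G x z T ∧ F e H (-1) 1 x z T j ≤ G := by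
  set f := H * 1 / e with hf
  set g := H * (-1) / e with hg
  have f1 : f * e ≤ H * 1 := Int.ediv_mul_le _ he.ne'
  have g1 : g * e ≤ H * (-1) := Int.ediv_mul_le _ he.ne'
  have hfg : f + g = -1 := by
    rcases lt_or_gt_of_ne hH0 with h | h
    · have hf' : f = -1 := by
        rw [hf, mul_one]
        exact Int.ediv_eq_neg_one_of_neg_of_le h (by linarith)
      have hg' : g = 0 := by
        rw [hg]
        exact Int.ediv_eq_zero_of_lt (by linarith) (by linarith)
      omega
    · have hf' : f = 0 := by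
        rw [hf]
        exact Int.ediv_eq_zero_of_lt (by linarith) (by linarith)
      have hg' : g = -1 := by
        rw [hg]
        exact Int.ediv_eq_neg_one_of_neg_of_le (by linarith) (by linarith)
      omega
  obtain ⟨d, rfl⟩ : ∃ d, z = d + x := ⟨z - x, by omega⟩
  rcases le_or_gt T (d * f) with hT | hT
  · obtain ⟨u, hu⟩ := Int.eq_ofNat_of_zero_le
      (show 0 ≤ T - ((x : ℤ) * g + ((d + x : ℕ) : ℤ) * f) by linarith)
    have hg' : g = -1 - f := by linarith
    have hux : u ≤ x := by
      have : (u : ℤ) ≤ x := by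
        rw [← hu, hg']
        push_cast
        linarith
      exact_mod_cast this
    obtain ⟨x', rfl⟩ : ∃ x', x = x' + u := ⟨x - u, by omega⟩
    have d1 := bal (e := e) (H := H) (w₁ := -1) (w₂ := 1) 1 1 0 0 0 0 (by omega) (by
      intro m hm
      have hm0 : m = 0 := by omega
      subst hm0
      push_cast
      linarith) u 0 (by omega)
    have d2 := bal (e := e) (H := H) (w₁ := -1) (w₂ := 1) 1 0 0 g 0 0 (by omega) (by
      intro m hm
      have hm0 : m = 0 := by omega
      subst hm0
      push_cast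
      linarith) x' 0 (by omega)
    have d3 := bal (e := e) (H := H) (w₁ := -1) (w₂ := 1) 0 1 0 f 0 0 (by omega) (by
      intro m hm
      have hm0 : m = 0 := by omega
      subst hm0
      push_cast
      linarith) (d + x') 0 (by omega)
    refine ⟨u + x' + (d + x'), 1, le_rfl, ((d1.add d2).add d3).cast rfl (by ring) (by ring) ?_, ?_⟩
    · push_cast at hu ⊢
      rw [hg'] at hu ⊢
      linarith
    · have h4 : F e H (-1) 1 ((x' + u : ℕ) : ℤ) ((d + (x' + u) : ℕ) : ℤ) T ((1 : ℕ) : ℤ) =
          ((x' + u : ℕ) : ℤ) + ((d + (x' + u) : ℕ) : ℤ) -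
            (T - (((x' + u : ℕ) : ℤ) * g + ((d + (x' + u) : ℕ) : ℤ) * f)) := by
        simp only [F, Nat.cast_one, mul_one]
        rw [← hg]
        have : H / e = f := by rw [hf, mul_one]
        rw [this]
        ring
      rw [h4, hu]
      push_cast
      linarith
  · have h3 : e * T ≤ H * ((d : ℕ) * 1 + ((0 : ℕ) : ℤ) * 2) := by
      push_cast at h2 ⊢
      linarith
    obtain ⟨G, j, hj, dd, hF⟩ := core12 (H := H) he (y := d) (z := 0) (T := T)
      (by push_cast; rw [← hf]; linarith) h3
    have dP := bal (e := e) (H := H) (w₁ := -1) (w₂ := 1) 1 1 0 0 0 0 (by omega) (by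
      intro m hm
      have hm0 : m = 0 := by omega
      subst hm0
      push_cast
      linarith) x 0 (by omega)
    have dT : Dec e H (-1) 1 (G + x) x (d + x) T :=
      ((dd.relabel (-1) rfl).add dP).cast rfl (by ring) (by ring) (by push_cast; ring)
    set a := H * (-1) * j / e with ha
    set b := H * 1 * j / e with hb
    have a1 : a * e ≤ H * (-1) * j := Int.ediv_mul_le _ he.ne'
    have b1 : b * e ≤ H * 1 * j := Int.ediv_mul_le _ he.ne'
    have hF1 : (d : ℤ) * (1 + b) - T * j ≤ G := by
      have : F e H 1 2 (d : ℕ) ((0 : ℕ) : ℤ) T (j : ℤ) = (d : ℤ) * (1 + b) - T * j := by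
        simp only [F, Nat.cast_zero, zero_mul, add_zero]
        rw [← hb]
      rw [← this]
      exact hF
    rcases le_or_gt (a + b) (-1) with hab | hab
    · refine ⟨G + x, j, hj, dT, ?_⟩
      have h5 : (x : ℤ) * (a + b) ≤ x * (-1) := mul_le_mul_of_nonneg_left hab (by positivity)
      unfold F
      rw [← ha, ← hb]
      push_cast
      linarith
    · have hab0 : a + b = 0 := by
        have h6 : (a + b) * e ≤ 0 * e := by linarith
        have h7 := le_of_mul_le_mul_right h6 he
        omega
      refine ⟨G + x, 1, le_rfl, dT, ?_⟩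
      have h8 : H * 1 * j ≤ b * e := by
        have : a = -b := by linarith
        rw [this] at a1
        linarith
      have h9 : T * j ≤ d * b := by
        have h10 : e * (T * j) ≤ e * (d * b) := by
          have h11 : (e * T) * j ≤ (H * ((d : ℕ) * 1 + ((0 : ℕ) : ℤ) * 2)) * j :=
            mul_le_mul_of_nonneg_right h3 (by positivity)
          have h12 : (d : ℤ) * (H * 1 * j) ≤ d * (b * e) :=
            mul_le_mul_of_nonneg_left h8 (by positivity)
          push_cast at h11
          linarith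
        exact le_of_mul_le_mul_left h10 he
      have h13 : (d : ℤ) ≤ G := by linarith
      have h14 : F e H (-1) 1 (x : ℤ) ((d + x : ℕ) : ℤ) T ((1 : ℕ) : ℤ) =
          x * (2 + (f + g)) + (d * (1 + f) - T) := by
        simp only [F, Nat.cast_one, mul_one]
        rw [← hg]
        have : H / e = f := by rw [hf, mul_one]
        rw [this]
        push_cast
        ring
      rw [h14, hfg]
      push_cast
      linarith

end Pool.Agent.H93.TS
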