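import Mathlib

/-!
# Decompositions into groups, and the core inequality for the weights `1` and `2`
-/

set_option autoImplicit false

namespace Pool.Agent.H93.TS

/-- `Dec e H w₁ w₂ G y z T`: `y` atoms of weight `w₁` and `z` atoms of weight `w₂` can be put into
`G` nonempty groups and each group given an integer `t`, with `e t ≤ H w` where `w` is the total
weight of the group, such that the sum of the `t` is `T`. -/
inductive Dec (e H w₁ w₂ : ℤ) : ℕ → ℕ → ℕ → ℤ → Prop
  | zero : Dec e H w₁ w₂ 0 0 0 0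
  | cons {G y z : ℕ} {T : ℤ} (k i : ℕ) (t : ℤ) (h1 : 1 ≤ k + i)
      (h2 : e * t ≤ H * (k * w₁ + i * w₂)) (h : Dec e H w₁ w₂ G y z T) :
      Dec e H w₁ w₂ (G + 1) (y + k) (z + i) (T + t)

variable {e H w₁ w₂ : ℤ}

theorem Dec.cast {G y z G' y' z' : ℕ} {T T' : ℤ} (h : Dec e H w₁ w₂ G y z T)
    (hG : G = G') (hy : y = y') (hz : z = z') (hT : T = T') : Dec e H w₁ w₂ G' y' z' T' := by
  subst hG hy hz hT; exact h

theorem Dec.add {G y z G' y' z' : ℕ} {T T' : ℤ} (h : Dec e H w₁ w₂ G y z T)
    (h' : Dec e H w₁ w₂ G' y' z' T') :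
    Dec e H w₁ w₂ (G + G') (y + y') (z + z') (T + T') := by
  induction h' with
  | zero => simpa using h
  | cons k i t h1 h2 _ ih =>
    exact (ih.cons k i t h1 h2).cast (by ring) (by ring) (by ring) (by ring)

theorem bal (k i0 di : ℕ) (t0 dt : ℤ) (L : ℕ) (hk : 1 ≤ k + i0)
    (hall : ∀ m : ℕ, m ≤ L → e * (t0 + m * dt) ≤ H * (k * w₁ + ((i0 : ℤ) + m * di) * w₂)) :
    ∀ G M : ℕ, M ≤ L * G → Dec e H w₁ w₂ G (G * k) (G * i0 + M * di) (G * t0 + M * dt)
  | 0, M, hM => by
    have : M = 0 := by simpa using hM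
    subst this
    exact Dec.zero.cast (by simp) (by simp) (by simp) (by simp)
  | G + 1, M, hM => by
    obtain ⟨m, M', hm, hM', rfl⟩ : ∃ m M' : ℕ, m ≤ L ∧ M' ≤ L * G ∧ M = M' + m := by
      have e1 : L * (G + 1) = L * G + L := by ring
      rcases le_total M L with h | h
      · exact ⟨M, 0, h, Nat.zero_le _, by simp⟩
      · exact ⟨L, M - L, le_rfl, by omega, by omega⟩
    have h := (bal k i0 di t0 dt L hk hall G M' hM').cons k (i0 + m * di) (t0 + m * dt)
      (by omega) (by push_cast; exact hall m hm)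
    exact h.cast rfl (by ring) (by ring) (by push_cast; ring)

theorem Dec.conv1 {G y z' : ℕ} {T : ℤ} (h : Dec e H 1 2 G y z' T) :
    ∀ z, z' = z + 1 → Dec e H 1 2 G (y + 2) z T := by
  induction h with
  | zero => intro z hz; omega
  | @cons G y z0 T k i t h1 h2 h ih =>
    intro z hz
    rcases Nat.eq_zero_or_pos i with hi | hi
    · subst hi
      have h3 := ih z (by omega)
      exact (h3.cons k 0 t h1 h2).cast rfl (by ring) (by simp) rfl
    · obtain ⟨i', rfl⟩ : ∃ i', i = i' + 1 := ⟨i - 1, by omega⟩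
      exact (h.cons (k + 2) i' t (by omega) (by push_cast at h2 ⊢; linarith)).cast rfl
        (by ring) (by omega) rfl

theorem Dec.conv {G y z m : ℕ} {T : ℤ} (h : Dec e H 1 2 G y (z + m) T) :
    Dec e H 1 2 G (y + 2 * m) z T := by
  induction m generalizing y with
  | zero => simpa using h
  | succ m ih =>
    have h1 := h.conv1 (z + m) (by ring)
    exact (ih h1).cast rfl (by ring) rfl rfl

theorem Dec.relabel {G y z : ℕ} {T : ℤ} (v : ℤ) (h : Dec e H w₁ w₂ G y z T) :
    z = 0 → Dec e H v w₁ G 0 y T := by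
  induction h with
  | zero => intro _; exact Dec.zero
  | @cons G y z T k i t h1 h2 h ih =>
    intro hz
    have hi : i = 0 := by omega
    subst hi
    have h3 := (ih (by omega)).cons 0 k t (by omega) (by
      push_cast at h2 ⊢; linarith)
    exact h3.cast rfl rfl rfl rfl

/-- The lower bound for the number of groups which comes from the signature. -/
def F (e H w₁ w₂ y z T j : ℤ) : ℤ :=
  y * (1 + H * w₁ * j / e) + z * (1 + H * w₂ * j / e) - T * j

theorem F_one (he : 0 < e) {y z : ℕ} {T J B : ℤ} (h : H * J < e * B) :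
    F e H 1 2 y z T J ≤ (y + 2 * z) * B - T * J := by
  have h1 : H * 1 * J / e < B := Int.ediv_lt_of_lt_mul he (by linarith)
  have h2 : H * 2 * J / e < 2 * B := Int.ediv_lt_of_lt_mul he (by linarith)
  have h3 : (y : ℤ) * (1 + H * 1 * J / e) ≤ y * B :=
    mul_le_mul_of_nonneg_left (by omega) (by positivity)
  have h4 : (z : ℤ) * (1 + H * 2 * J / e) ≤ z * (2 * B) :=
    mul_le_mul_of_nonneg_left (by omega) (by positivity)
  unfold F
  linarith

theorem F_half (he : 0 < e) {y z : ℕ} {T j β : ℤ} (h : 2 * (H * j) < e * β) :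
    2 * F e H 1 2 y z T j ≤ (y + 2 * z) * β + y - 2 * (T * j) := by
  have h1 : 2 * (H * 1 * j / e) < β := by
    have h5 : H * 1 * j / e * e ≤ H * 1 * j := Int.ediv_mul_le _ he.ne'
    have h6 : (2 * (H * 1 * j / e)) * e < β * e := by linarith
    exact lt_of_mul_lt_mul_right h6 he.le
  have h2 : H * 2 * j / e < β := Int.ediv_lt_of_lt_mul he (by linarith)
  have h3 : (y : ℤ) * (2 * (1 + H * 1 * j / e)) ≤ y * (β + 1) :=
    mul_le_mul_of_nonneg_left (by omega) (by positivity)
  have h4 : (z : ℤ) * (1 + H * 2 * j / e) ≤ z * β :=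
    mul_le_mul_of_nonneg_left (by omega) (by positivity)
  unfold F
  linarith

/-- The points `u + m v` are below the line. -/
theorem line {l J L : ℕ} {s B : ℤ} (hJB : H * J < e * B)
    (hL : e * (s + L * B) ≤ H * (l + L * J)) {m : ℕ} (hm : m ≤ L) :
    e * (s + m * B) ≤ H * (l + m * J) := by
  have h1 : (m : ℤ) * (e * B - H * J) ≤ L * (e * B - H * J) :=
    mul_le_mul_of_nonneg_right (by exact_mod_cast hm) (by linarith)
  linarith

/-- `J` even. -/
theorem case_even (he : 0 < e) {l J L G M y z : ℕ} {s B T : ℤ} (hJ : Even J)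
    (hdet : (l : ℤ) * B - s * J = 1) (hJB : H * J < e * B)
    (hL : e * (s + L * B) ≤ H * (l + L * J)) (hM : M ≤ L * G)
    (hW : y + 2 * z = G * l + M * J) (hT : T = G * s + M * B) :
    ∃ G' j : ℕ, Dec e H 1 2 G' y z T ∧ F e H 1 2 y z T j ≤ G' := by
  obtain ⟨J', hJ'⟩ := hJ
  have hJ2 : J = 2 * J' := by omega
  subst hJ2
  have hlo : Odd l := by
    by_contra h
    rw [Nat.not_odd_iff_even] at h
    obtain ⟨l', hl'⟩ := h
    have h1 : (l : ℤ) = 2 * l' := by rw [hl']; push_cast; ring
    have h2 : 2 * ((l' : ℤ) * B - s * J') = 1 := by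
      rw [h1] at hdet; push_cast at hdet; linarith
    omega
  obtain ⟨l', rfl⟩ := hlo
  have hWZ : (y : ℤ) + 2 * z = G * (2 * l' + 1) + M * (2 * J') := by exact_mod_cast hW
  have e1 : G * (2 * l' + 1) + M * (2 * J') = 2 * (G * l' + M * J') + G := by ring
  rcases Nat.lt_or_ge y G with hy | hy
  · obtain ⟨p, rfl⟩ : ∃ p, G = y + 2 * p := ⟨(G - y) / 2, by omega⟩
    obtain ⟨M1, M2, hM1, hM2, rfl⟩ : ∃ M1 M2 : ℕ, M1 ≤ (2 * L) * p ∧ M2 ≤ L * y ∧
        M = M1 + M2 := by
      have e2 : L * (y + 2 * p) = L * y + 2 * L * p := by ring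
      rcases le_total M (2 * L * p) with h | h
      · exact ⟨M, 0, h, Nat.zero_le _, by simp⟩
      · exact ⟨2 * L * p, M - 2 * L * p, le_rfl, by omega, by omega⟩
    have d1 := bal (e := e) (H := H) (w₁ := 1) (w₂ := 2) 0 (2 * l' + 1) J' (2 * s) B (2 * L)
      (by omega) (by
        intro m hm
        have h1 : (m : ℤ) * (e * B - H * (2 * J')) ≤ (2 * L) * (e * B - H * (2 * J')) :=
          mul_le_mul_of_nonneg_right (by exact_mod_cast hm) (by push_cast at hJB; linarith)
        push_cast at hL h1 ⊢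
        linarith) p M1 hM1
    have d2 := bal (e := e) (H := H) (w₁ := 1) (w₂ := 2) 1 l' J' s B L (by omega) (by
        intro m hm
        have h1 := line hJB hL hm
        push_cast at h1 ⊢
        linarith) y M2 hM2
    refine ⟨p + y, J', (d1.add d2).cast rfl (by ring) ?_ (by rw [hT]; push_cast; ring), ?_⟩
    · have e3 : 2 * (p * (2 * l' + 1) + M1 * J' + (y * l' + M2 * J')) + y =
          (y + 2 * p) * (2 * l' + 1) + (M1 + M2) * (2 * J') := by ring
      omega
    · have h1 := F_half (H := H) he (y := y) (z := z) (T := T) (j := J') (β := B)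
        (by push_cast at hJB; linarith)
      have h2 : ((y : ℤ) + 2 * z) * B + y - 2 * (T * J') = 2 * (p + y) := by
        rw [hWZ, hT]
        push_cast at hdet ⊢
        linear_combination ((y : ℤ) + 2 * p) * hdet
      push_cast
      linarith
  · obtain ⟨m, rfl⟩ : ∃ m, y = G + 2 * m := ⟨(y - G) / 2, by omega⟩
    have d1 := bal (e := e) (H := H) (w₁ := 1) (w₂ := 2) 1 l' J' s B L (by omega) (by
        intro m hm
        have h1 := line hJB hL hm
        push_cast at h1 ⊢
        linarith) G M hM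
    refine ⟨G, 2 * J', ?_, ?_⟩
    · have d2 := Dec.conv (m := m) (z := z) (d1.cast (z' := z + m) rfl rfl (by omega) hT.symm)
      exact d2.cast rfl (by ring) rfl rfl
    · have h1 := F_one he (H := H) (y := G + 2 * m) (z := z) (T := T) (J := (2 * J' : ℕ))
        (B := B) hJB
      have h2 : (((G + 2 * m : ℕ) : ℤ) + 2 * z) * B - T * ((2 * J' : ℕ) : ℤ) = G := by
        rw [hWZ, hT]
        push_cast at hdet ⊢
        linear_combination (G : ℤ) * hdet
      linarith

/-- `J` odd, `l` even. -/
theorem case_base (he : 0 < e) {l J L G M y z : ℕ} {s B T : ℤ} (hl : 1 ≤ l) (hle : Even l)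
    (hJ : Odd J) (hdet : (l : ℤ) * B - s * J = 1) (hJB : H * J < e * B)
    (hL : e * (s + L * B) ≤ H * (l + L * J))
    (hL1 : H * (l + (L + 1) * J) < e * (s + (L + 1) * B)) (hM : M ≤ L * G)
    (hW : y + 2 * z = G * l + M * J) (hT : T = G * s + M * B) :
    ∃ G' j : ℕ, Dec e H 1 2 G' y z T ∧ F e H 1 2 y z T j ≤ G' := by
  have hWZ : (y : ℤ) + 2 * z = G * l + M * J := by exact_mod_cast hW
  have hFJ : F e H 1 2 y z T J ≤ G := by
    have h1 := F_one he (H := H) (y := y) (z := z) (T := T) (J := J) (B := B) hJB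
    have h2 : ((y : ℤ) + 2 * z) * B - T * J = G := by
      rw [hWZ, hT]
      linear_combination (G : ℤ) * hdet
    linarith
  obtain ⟨l', hl'⟩ := hle
  have hl2 : l = 2 * l' := by omega
  obtain ⟨J', hJ'⟩ := hJ
  obtain ⟨K, hK⟩ : ∃ K, L = 2 * K ∨ L = 2 * K + 1 := ⟨L / 2, by omega⟩
  have hK2 : 2 * K ≤ L := by omega
  rcases Nat.lt_or_ge (2 * K * G) M with hMG | hMG
  · -- `L` is odd
    have hLo : L = 2 * K + 1 := by
      rcases hK with h | h
      · rw [h] at hM; omega
      · exact h
    obtain ⟨n, rfl⟩ : ∃ n, M = 2 * K * G + n := ⟨M - 2 * K * G, by omega⟩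
    have hnG : n ≤ G := by
      rw [hLo] at hM
      have : (2 * K + 1) * G = 2 * K * G + G := by ring
      omega
    obtain ⟨r, rfl⟩ : ∃ r, G = n + r := ⟨G - n, by omega⟩
    -- the odd point `u + L v` and the even point `u + 2 K v`
    have hpo := line hJB hL (le_refl L)
    have hpe := line hJB hL hK2
    have hodd : l + L * J = 2 * (l' + K * J + J') + 1 := by
      rw [hl2, hLo]
      have : (2 * K + 1) * J = 2 * (K * J) + J := by ring
      rw [this]
      omega
    have heven : l + 2 * K * J = 2 * (l' + K * J) := by rw [hl2]; ring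
    have hpar : y + 2 * z = n + 2 * (n * (l' + K * J + J') + r * (l' + K * J)) := by
      rw [hW]
      have e1 : (n + r) * l + (2 * K * (n + r) + n) * J =
          n * (l + (2 * K + 1) * J) + r * (l + 2 * K * J) := by ring
      rw [e1, ← hLo, hodd, heven]
      ring
    have hodd' : (l : ℤ) + L * J = 2 * (l' + K * J + J') + 1 := by exact_mod_cast hodd
    have heven' : (l : ℤ) + 2 * K * J = 2 * (l' + K * J) := by exact_mod_cast heven
    have dE := bal (e := e) (H := H) (w₁ := 1) (w₂ := 2) 0 (l' + K * J) 0 (s + 2 * K * B) 0 0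
      (by omega) (by
        intro m hm
        have hm0 : m = 0 := by omega
        subst hm0
        push_cast at hpe ⊢
        have : H * (l + 2 * K * J) = H * (2 * (l' + K * J)) := by rw [heven']
        linarith) r 0 (by omega)
    rcases Nat.lt_or_ge y n with hy | hy
    · obtain ⟨p, rfl⟩ : ∃ p, n = y + 2 * p := ⟨(n - y) / 2, by omega⟩
      have dO := bal (e := e) (H := H) (w₁ := 1) (w₂ := 2) 1 (l' + K * J + J') 0 (s + L * B) 0 0
        (by omega) (by
          intro m hm
          have hm0 : m = 0 := by omega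
          subst hm0
          push_cast at hpo ⊢
          have : H * (l + L * J) = H * (2 * (l' + K * J + J') + 1) := by rw [hodd']
          linarith) y 0 (by omega)
      have dP := bal (e := e) (H := H) (w₁ := 1) (w₂ := 2) 0 (l + L * J) 0 (2 * (s + L * B)) 0 0
        (by omega) (by
          intro m hm
          have hm0 : m = 0 := by omega
          subst hm0
          push_cast at hpo ⊢
          linarith) p 0 (by omega)
      have hjev : l + (L + 1) * J = 2 * (l' + K * J + J) := by
        rw [hl2, hLo]; ring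
      refine ⟨y + p + r, l' + K * J + J,
        ((dO.add dP).add dE).cast rfl (by ring) ?_ ?_, ?_⟩
      · have e3 : y * (l' + K * J + J') + 0 * 0 + (p * (l + L * J) + 0 * 0) +
            (r * (l' + K * J) + 0 * 0) =
            y * (l' + K * J + J') + p * (2 * (l' + K * J + J') + 1) + r * (l' + K * J) := by
          rw [hodd]; ring
        rw [e3]
        have e4 : y + 2 * p + 2 * ((y + 2 * p) * (l' + K * J + J') + r * (l' + K * J)) =
            y + 2 * (y * (l' + K * J + J') + p * (2 * (l' + K * J + J') + 1) +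
              r * (l' + K * J)) := by ring
        omega
      · rw [hT, hLo]; push_cast; ring
      · have hjevZ : (l : ℤ) + (L + 1) * J = 2 * (l' + K * J + J) := by exact_mod_cast hjev
        have h1 := F_half (H := H) he (y := y) (z := z) (T := T)
          (j := ((l' + K * J + J : ℕ) : ℤ)) (β := s + (L + 1) * B) (by
            push_cast
            have : H * (l + (L + 1) * J) = H * (2 * (l' + K * J + J)) := by rw [hjevZ]
            linarith)
        have h2 : ((y : ℤ) + 2 * z) * (s + (L + 1) * B) + y -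
            2 * (T * ((l' + K * J + J : ℕ) : ℤ)) = 2 * (y + p + r) := by
          have h3 : 2 * (T * ((l' + K * J + J : ℕ) : ℤ)) = T * (l + (L + 1) * J) := by
            rw [hjevZ]; push_cast; ring
          rw [h3, hWZ, hT, hLo]
          push_cast
          linear_combination (2 * (y : ℤ) - y + 2 * p + 2 * r) * hdet
        push_cast at h1 h2 ⊢
        linarith
    · obtain ⟨m, rfl⟩ : ∃ m, y = n + 2 * m := ⟨(y - n) / 2, by omega⟩
      have dO := bal (e := e) (H := H) (w₁ := 1) (w₂ := 2) 1 (l' + K * J + J') 0 (s + L * B) 0 0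
        (by omega) (by
          intro m hm
          have hm0 : m = 0 := by omega
          subst hm0
          push_cast at hpo ⊢
          have : H * (l + L * J) = H * (2 * (l' + K * J + J') + 1) := by rw [hodd']
          linarith) n 0 (by omega)
      refine ⟨n + r, J, ?_, by exact_mod_cast hFJ⟩
      have d2 := Dec.conv (m := m) (z := z) ((dO.add dE).cast (z' := z + m) (T' := T) rfl rfl
        (by omega) (by rw [hT, hLo]; push_cast; ring))
      exact d2.cast rfl (by ring) rfl rfl
  · -- only even points, and one odd point if `M` is odd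
    have hbal : ∀ G₀ M₀ : ℕ, M₀ ≤ K * G₀ → Dec e H 1 2 G₀ (G₀ * 0) (G₀ * l' + M₀ * J)
        (G₀ * s + M₀ * (2 * B)) :=
      bal (e := e) (H := H) (w₁ := 1) (w₂ := 2) 0 l' J s (2 * B) K (by omega) (by
        intro m hm
        have h1 := line hJB hL (m := 2 * m) (by omega)
        rw [hl2] at h1
        push_cast at h1 ⊢
        linarith)
    rcases Nat.even_or_odd M with hMe | hMo
    · obtain ⟨M', hM'⟩ := hMe
      have hM2 : M = 2 * M' := by omega
      subst hM2
      have d1 := hbal G M' (by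
        have : 2 * K * G = 2 * (K * G) := by ring
        omega)
      have hy : ∃ m, y = 2 * m := by
        refine ⟨y / 2, ?_⟩
        have : G * l + 2 * M' * J = 2 * (G * l' + M' * J) := by rw [hl2]; ring
        omega
      obtain ⟨m, rfl⟩ := hy
      refine ⟨G, J, ?_, by exact_mod_cast hFJ⟩
      have d2 := Dec.conv (m := m) (z := z) (d1.cast (z' := z + m) (T' := T) rfl rfl (by
        have : G * l + 2 * M' * J = 2 * (G * l' + M' * J) := by rw [hl2]; ring
        omega) (by rw [hT]; push_cast; ring))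
      exact d2.cast rfl (by ring) rfl rfl
    · obtain ⟨M', hM'⟩ := hMo
      have hG : G ≠ 0 := by rintro rfl; simp at hMG; omega
      have hK0 : K ≠ 0 := by rintro rfl; simp at hMG; omega
      obtain ⟨G₀, rfl⟩ : ∃ G₀, G = G₀ + 1 := ⟨G - 1, by omega⟩
      obtain ⟨K₀, rfl⟩ : ∃ K₀, K = K₀ + 1 := ⟨K - 1, by omega⟩
      -- the odd point has index `2 c + 1`, and `2 R` steps remain
      obtain ⟨c, R, hc, hR, hM2⟩ : ∃ c R : ℕ, c ≤ K₀ ∧ R ≤ (K₀ + 1) * G₀ ∧
          M' = c + R := by
        have e1 : 2 * (K₀ + 1) * (G₀ + 1) = 2 * ((K₀ + 1) * G₀) + 2 * K₀ + 2 := by ring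
        rcases le_total M' K₀ with h | h
        · exact ⟨M', 0, h, Nat.zero_le _, by simp⟩
        · exact ⟨K₀, M' - K₀, le_rfl, by omega, by omega⟩
      have d1 := hbal G₀ R hR
      have hline := line hJB hL (m := 2 * c + 1) (by omega)
      have d2 := d1.cons 1 (l' + c * J + J') (s + (2 * c + 1) * B) (by omega) (by
        rw [hl2] at hline
        have hJZ : (J : ℤ) = 2 * J' + 1 := by exact_mod_cast hJ'
        have h3 : (2 * (l' : ℤ) + (2 * c + 1) * J) = 1 + (l' + c * J + J') * 2 := by
          have : (2 * (l' : ℤ) + (2 * c + 1) * J) = 2 * l' + 2 * c * J + J := by ring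
          rw [this]
          linarith
        push_cast at hline ⊢
        have h4 : H * (2 * l' + (2 * c + 1) * J) = H * (1 + (l' + c * J + J') * 2) := by rw [h3]
        linarith)
      have hpar : y + 2 * z = 1 + 2 * (G₀ * l' + R * J + (l' + c * J + J')) := by
        rw [hW, hM', hM2, hl2]
        have : (2 * (c + R) + 1) * J = 2 * (c * J) + 2 * (R * J) + J := by ring
        rw [this]
        have : (G₀ + 1) * (2 * l') = 2 * (G₀ * l') + 2 * l' := by ring
        omega
      obtain ⟨m, rfl⟩ : ∃ m, y = 1 + 2 * m := ⟨y / 2, by omega⟩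
      refine ⟨G₀ + 1, J, ?_, by exact_mod_cast hFJ⟩
      have d3 := Dec.conv (m := m) (z := z) (d2.cast (z' := z + m) (T' := T) rfl rfl
        (by omega) (by rw [hT, hM', hM2]; push_cast; ring))
      exact d3.cast rfl (by ring) rfl rfl

end Pool.Agent.H93.TS
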