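import Mathlib

/-!
# Sums of torus knots `T(2,n)`: definitions

A multiset `{n₁, …, n_r}` of positive integers is the link `T(2,n₁) # ⋯ # T(2,n_r)`, the boundary of
the surface which consists of a bottom disc and of `r` top discs, the `i`-th of which is joined to
the bottom disc by `n_i` parallel half-twisted bands. The summands are joined along the component
which contains the free part of the boundary of the bottom disc, so that their order does not
matter. Cutting a top disc between two bands, or joining two neighbouring top discs, is a saddle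
move; entries `1` can be dropped and inserted.
-/

set_option autoImplicit false

namespace Pool.Agent.H93.TS

open Multiset

/-- `Moves c s t`: the multiset `t` is obtained from `s` by a sequence of the following moves,
exactly `c` of which are of the first two types: replace an entry `p + q` by the two entries `p`,
`q` (`p, q > 0`); replace two entries `p`, `q` by `p + q` (`p, q > 0`); drop an entry `1`; insert an
entry `1`. -/
inductive Moves : ℕ → Multiset ℕ → Multiset ℕ → Prop
  | refl (s : Multiset ℕ) : Moves 0 s s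
  | split {c : ℕ} {s u : Multiset ℕ} {p q : ℕ} (hp : 0 < p) (hq : 0 < q) :
      Moves c s ((p + q) ::ₘ u) → Moves (c + 1) s (p ::ₘ q ::ₘ u)
  | merge {c : ℕ} {s u : Multiset ℕ} {p q : ℕ} (hp : 0 < p) (hq : 0 < q) :
      Moves c s (p ::ₘ q ::ₘ u) → Moves (c + 1) s ((p + q) ::ₘ u)
  | drop {c : ℕ} {s u : Multiset ℕ} : Moves c s (1 ::ₘ u) → Moves c s u
  | ins {c : ℕ} {s u : Multiset ℕ} : Moves c s u → Moves c s (1 ::ₘ u)

/-- The signature of the torus knot `T(2,n)` at `exp (2 π i x)`, `0 < x < 1` (formula of Brieskorn and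
Litherland): the sum over `0 < j < n` of `-1` if `x < 1/2 + j/n < x + 1` and of `1` otherwise. -/
noncomputable def sig (n : ℕ) (x : ℝ) : ℤ :=
  ∑ j ∈ Finset.Ioo 0 n, if x < 1 / 2 + (j : ℝ) / n ∧ 1 / 2 + (j : ℝ) / n < x + 1 then -1 else 1

/-- The two facts which show that the knot `K`, the sum of the `T(2,n)`, `n` in `A`, and of the
mirror images of the `T(2,n)`, `n` in `B`, has `g_r(K) = g_4(K) = g` for some `g`: at most `2 g`
splittings and mergings lead from `A` to `B`, and the signature function of `K` is equal to `2 g`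
or to `- 2 g` on a nonempty open interval in `(0, 1/2)`. -/
def HasGenus (A B : Multiset ℕ) : Prop :=
  ∃ g : ℕ, (∃ s : ℕ, s ≤ 2 * g ∧ Moves s A B) ∧
    ∃ u v : ℝ, 0 ≤ u ∧ u < v ∧ v ≤ 1 / 2 ∧
      ∀ x : ℝ, u < x → x < v →
        |(A.map fun n => sig n x).sum - (B.map fun n => sig n x).sum| = 2 * g

/-- `x` copies of `a`, `y` copies of `b` and `z` copies of `c`; a negative number of copies counts
as none. -/
def sums (a b c : ℕ) (x y z : ℤ) : Multiset ℕ :=
  replicate x.toNat a + replicate y.toNat b + replicate z.toNat c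

/-! ### Paths -/

theorem Moves.trans {c d : ℕ} {s t r : Multiset ℕ} (h : Moves c s t) (h' : Moves d t r) :
    Moves (c + d) s r := by
  induction h' with
  | refl => simpa using h
  | split hp hq _ ih => exact Moves.split hp hq (ih h)
  | merge hp hq _ ih => exact Moves.merge hp hq (ih h)
  | drop _ ih => exact Moves.drop (ih h)
  | ins _ ih => exact Moves.ins (ih h)

theorem Moves.addRight {c : ℕ} {s t : Multiset ℕ} (z : Multiset ℕ) (h : Moves c s t) :
    Moves c (s + z) (t + z) := by
  induction h with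
  | refl => exact Moves.refl _
  | split hp hq _ ih =>
    rw [cons_add, cons_add]
    rw [cons_add] at ih
    exact Moves.split hp hq ih
  | merge hp hq _ ih =>
    rw [cons_add]
    rw [cons_add, cons_add] at ih
    exact Moves.merge hp hq ih
  | drop _ ih =>
    rw [cons_add] at ih
    exact Moves.drop ih
  | ins _ ih =>
    rw [cons_add]
    exact Moves.ins ih

theorem Moves.append {c d : ℕ} {s t s' t' : Multiset ℕ} (h : Moves c s t) (h' : Moves d s' t') :
    Moves (c + d) (s + s') (t + t') := by
  have h1 := h.addRight s'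
  have h2 := h'.addRight t
  rw [add_comm s' t, add_comm t' t] at h2
  exact h1.trans h2

theorem Moves.symm {c : ℕ} {s t : Multiset ℕ} (h : Moves c s t) : Moves c t s := by
  induction h with
  | refl => exact Moves.refl _
  | @split c s u p q hp hq _ ih =>
    have h1 : Moves 1 (p ::ₘ q ::ₘ u) ((p + q) ::ₘ u) := Moves.merge hp hq (Moves.refl _)
    rw [add_comm]
    exact h1.trans ih
  | @merge c s u p q hp hq _ ih =>
    have h1 : Moves 1 ((p + q) ::ₘ u) (p ::ₘ q ::ₘ u) := Moves.split hp hq (Moves.refl _)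
    rw [add_comm]
    exact h1.trans ih
  | @drop c s u _ ih =>
    have h1 : Moves 0 u (1 ::ₘ u) := Moves.ins (Moves.refl _)
    simpa using h1.trans ih
  | @ins c s u _ ih =>
    have h1 : Moves 0 (1 ::ₘ u) u := Moves.drop (Moves.refl _)
    simpa using h1.trans ih

theorem reduce {c : ℕ} (hc : 0 < c) : ∀ k : ℕ, Moves k {c + k} {c}
  | 0 => Moves.refl _
  | k + 1 => by
    have h1 : Moves 1 {(1 + (c + k))} (1 ::ₘ (c + k) ::ₘ 0) :=
      Moves.split (u := 0) one_pos (by omega) (Moves.refl _)
    have h2 : Moves 1 {(1 + (c + k))} {c + k} := Moves.drop h1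
    have h3 := Moves.trans h2 (reduce hc k)
    rw [add_comm 1 k, add_comm 1 (c + k)] at h3
    exact h3

theorem kill {a : ℕ} (ha : 0 < a) : Moves (a - 1) {a} 0 := by
  have h := reduce one_pos (a - 1)
  have e : 1 + (a - 1) = a := by omega
  rw [e] at h
  exact Moves.drop (u := 0) h

theorem kill_all {a : ℕ} (ha : 0 < a) : ∀ l : ℕ, Moves (l * (a - 1)) (replicate l a) 0
  | 0 => by simpa using Moves.refl 0
  | l + 1 => by
    have h := (kill ha).append (kill_all ha l)
    have e : (l + 1) * (a - 1) = (a - 1) + l * (a - 1) := by ring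
    rw [e, replicate_succ, ← singleton_add]
    simpa using h

/-- The value of the signature at `x < 1 / 2`. -/
theorem sig_eq {n F : ℕ} {x : ℝ} (hF : F < n) (hx : x < 1 / 2)
    (h1 : (F : ℝ) < n * (1 / 2 - x)) (h2 : n * (1 / 2 - x) < F + 1) :
    sig n x = 2 * F - (n - 1) := by
  have hn : (0 : ℝ) < n := by exact_mod_cast (by omega : 0 < n)
  have hiff : ∀ j ∈ Finset.Ioo 0 n,
      ((x < 1 / 2 + (j : ℝ) / n ∧ 1 / 2 + (j : ℝ) / n < x + 1) ↔ j ≤ n - 1 - F) := by
    intro j hj
    have hj0 : (0 : ℝ) ≤ (j : ℝ) / n := by positivity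
    constructor
    · rintro ⟨-, h3⟩
      have h4 : (j : ℝ) / n < x + 1 / 2 := by linarith
      rw [div_lt_iff₀ hn] at h4
      have h5 : (j : ℝ) + F < n := by nlinarith
      have h6 : j + F < n := by exact_mod_cast h5
      omega
    · intro h3
      refine ⟨by linarith, ?_⟩
      have h4 : (j : ℝ) + F + 1 ≤ n := by exact_mod_cast (by omega : j + F + 1 ≤ n)
      have h5 : (j : ℝ) / n < x + 1 / 2 := by
        rw [div_lt_iff₀ hn]; nlinarith
      linarith
  unfold sig
  rw [Finset.sum_congr rfl fun j hj => by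
    rw [show (if x < 1 / 2 + (j : ℝ) / n ∧ 1 / 2 + (j : ℝ) / n < x + 1 then (-1 : ℤ) else 1)
      = if j ≤ n - 1 - F then -1 else 1 from by simp only [hiff j hj]]]
  rw [Finset.sum_ite, Finset.sum_const, Finset.sum_const]
  have e1 : (Finset.Ioo 0 n).filter (fun j => j ≤ n - 1 - F) = Finset.Ioc 0 (n - 1 - F) := by
    ext j; simp only [Finset.mem_filter, Finset.mem_Ioo, Finset.mem_Ioc]; omega
  have e2 : (Finset.Ioo 0 n).filter (fun j => ¬ j ≤ n - 1 - F) = Finset.Ioo (n - 1 - F) n := by
    ext j; simp only [Finset.mem_filter, Finset.mem_Ioo]; omega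
  rw [e1, e2, Nat.card_Ioc, Nat.card_Ioo]
  simp only [nsmul_eq_mul]
  have e3 : ((n - 1 - F - 0 : ℕ) : ℤ) = n - 1 - F := by omega
  have e4 : ((n - (n - 1 - F) - 1 : ℕ) : ℤ) = F := by omega
  rw [e3, e4]; ring

end Pool.Agent.H93.TS
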