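import Pool.Agent.H93.TS.Defs

/-!
# The signature near a root of unity
-/

set_option autoImplicit false

namespace Pool.Agent.H93.TS

/-- The value of the signature at `x`, counted from `z = x + 1 / 2`. -/
theorem sig_up {n F : ℕ} {x : ℝ} (hF : F < n) (hx : x < 1 / 2)
    (h1 : (F : ℝ) < n * (x + 1 / 2)) (h2 : n * (x + 1 / 2) < F + 1) :
    sig n x = 1 * (((n : ℤ) - 1) - 2 * F) := by
  have hn : (0 : ℝ) < n := by exact_mod_cast (by omega : 0 < n)
  rw [sig_eq (F := n - 1 - F) (by omega) hx]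
  · have : ((n - 1 - F : ℕ) : ℤ) = n - 1 - F := by omega
    rw [this]; ring
  · have : ((n - 1 - F : ℕ) : ℝ) = n - 1 - F := by
      have h3 : ((n - 1 - F : ℕ) : ℤ) = n - 1 - F := by omega
      exact_mod_cast h3
    rw [this]
    linarith
  · have : ((n - 1 - F : ℕ) : ℝ) = n - 1 - F := by
      have h3 : ((n - 1 - F : ℕ) : ℤ) = n - 1 - F := by omega
      exact_mod_cast h3
    rw [this]
    linarith

theorem sig_down {n F : ℕ} {x : ℝ} (hF : F < n) (hx : x < 1 / 2)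
    (h1 : (F : ℝ) < n * (1 / 2 - x)) (h2 : n * (1 / 2 - x) < F + 1) :
    sig n x = -1 * (((n : ℤ) - 1) - 2 * F) := by
  rw [sig_eq hF hx h1 h2]; ring

/-- The integral part of `n z` for `z` slightly above `j / e`. -/
theorem floor_above {e n j N : ℕ} (he : 0 < e) (hn : 0 < n) (hnN : n ≤ N) (hj : j < e) {z : ℝ}
    (h1 : (j : ℝ) / e < z) (h2 : z < (j : ℝ) / e + 1 / (2 * e * (N + 1))) :
    n * j / e < n ∧ ((n * j / e : ℕ) : ℝ) < n * z ∧ n * z < ((n * j / e : ℕ) : ℝ) + 1 := by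
  have heR : (0 : ℝ) < e := by exact_mod_cast he
  have hnR : (0 : ℝ) < n := by exact_mod_cast hn
  have hNR : (n : ℝ) ≤ N := by exact_mod_cast hnN
  have hN1 : (0 : ℝ) < 2 * e * (N + 1) := by positivity
  refine ⟨?_, ?_, ?_⟩
  · rw [Nat.div_lt_iff_lt_mul he]
    exact Nat.mul_lt_mul_of_pos_left hj hn
  · have h3 : ((n * j / e : ℕ) : ℝ) ≤ ((n * j : ℕ) : ℝ) / e := Nat.cast_div_le
    have h4 : (n : ℝ) * ((j : ℝ) / e) < n * z := mul_lt_mul_of_pos_left h1 hnR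
    have h5 : ((n * j : ℕ) : ℝ) / e = n * ((j : ℝ) / e) := by push_cast; ring
    linarith
  · have h3 : n * j + 1 ≤ (n * j / e + 1) * e := by
      have := Nat.lt_div_mul_add (a := n * j) he
      have e1 : (n * j / e + 1) * e = n * j / e * e + e := by ring
      omega
    have h4 : ((n : ℝ) * j + 1) ≤ (((n * j / e : ℕ) : ℝ) + 1) * e := by exact_mod_cast h3
    have h5 : ((n : ℝ) * j + 1) / e ≤ ((n * j / e : ℕ) : ℝ) + 1 := by
      rw [div_le_iff₀ heR]; exact h4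
    have h6 : (n : ℝ) * z < n * ((j : ℝ) / e + 1 / (2 * e * (N + 1))) :=
      mul_lt_mul_of_pos_left h2 hnR
    have h7 : (n : ℝ) * (1 / (2 * e * (N + 1))) ≤ 1 / e := by
      rw [mul_one_div, div_le_div_iff₀ hN1 heR]
      nlinarith
    have h8 : (n : ℝ) * ((j : ℝ) / e + 1 / (2 * e * (N + 1))) =
        (n : ℝ) * j / e + n * (1 / (2 * e * (N + 1))) := by ring
    have h9 : ((n : ℝ) * j + 1) / e = (n : ℝ) * j / e + 1 / e := by ring
    linarith

/-- The integral part of `n z` for `z` slightly below `j / e`. -/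
theorem floor_below {e n j N : ℕ} (he : 0 < e) (hn : 0 < n) (hnN : n ≤ N) (hj1 : 1 ≤ j)
    (hj : j ≤ e) {z : ℝ}
    (h1 : (j : ℝ) / e - 1 / (2 * e * (N + 1)) < z) (h2 : z < (j : ℝ) / e) :
    (n * j - 1) / e < n ∧ (((n * j - 1) / e : ℕ) : ℝ) < n * z ∧
      n * z < (((n * j - 1) / e : ℕ) : ℝ) + 1 := by
  have heR : (0 : ℝ) < e := by exact_mod_cast he
  have hnR : (0 : ℝ) < n := by exact_mod_cast hn
  have hNR : (n : ℝ) ≤ N := by exact_mod_cast hnN
  have hN1 : (0 : ℝ) < 2 * e * (N + 1) := by positivity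
  have hnj : 1 ≤ n * j := Nat.mul_pos hn hj1
  have hnje : n * j ≤ n * e := Nat.mul_le_mul_left n hj
  refine ⟨?_, ?_, ?_⟩
  · rw [Nat.div_lt_iff_lt_mul he]
    omega
  · have h3 : ((n * j - 1) / e) * e + 1 ≤ n * j := by
      have := Nat.div_mul_le_self (n * j - 1) e
      omega
    have h4 : (((n * j - 1) / e : ℕ) : ℝ) * e + 1 ≤ (n : ℝ) * j := by exact_mod_cast h3
    have h5 : (((n * j - 1) / e : ℕ) : ℝ) ≤ ((n : ℝ) * j - 1) / e := by
      rw [le_div_iff₀ heR]; linarith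
    have h6 : (n : ℝ) * ((j : ℝ) / e - 1 / (2 * e * (N + 1))) < n * z :=
      mul_lt_mul_of_pos_left h1 hnR
    have h7 : (n : ℝ) * (1 / (2 * e * (N + 1))) ≤ 1 / e := by
      rw [mul_one_div, div_le_div_iff₀ hN1 heR]
      nlinarith
    have h8 : (n : ℝ) * ((j : ℝ) / e - 1 / (2 * e * (N + 1))) =
        (n : ℝ) * j / e - n * (1 / (2 * e * (N + 1))) := by ring
    have h9 : ((n : ℝ) * j - 1) / e = (n : ℝ) * j / e - 1 / e := by ring
    linarith
  · have h3 : n * j ≤ ((n * j - 1) / e + 1) * e := by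
      have := Nat.lt_div_mul_add (a := n * j - 1) he
      have e1 : ((n * j - 1) / e + 1) * e = (n * j - 1) / e * e + e := by ring
      omega
    have h4 : ((n : ℝ) * j) ≤ ((((n * j - 1) / e : ℕ) : ℝ) + 1) * e := by exact_mod_cast h3
    have h5 : ((n : ℝ) * j) / e ≤ (((n * j - 1) / e : ℕ) : ℝ) + 1 := by
      rw [div_le_iff₀ heR]; exact h4
    have h6 : (n : ℝ) * z < n * ((j : ℝ) / e) := mul_lt_mul_of_pos_left h2 hnR
    have h8 : (n : ℝ) * ((j : ℝ) / e) = (n : ℝ) * j / e := by ring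
    linarith

theorem delta_facts {e : ℕ} (he : 0 < e) (N : ℕ) :
    (0 : ℝ) < 1 / (2 * e * (N + 1)) ∧ (1 : ℝ) / (2 * e * (N + 1)) ≤ 1 / (2 * e) := by
  have heR : (0 : ℝ) < e := by exact_mod_cast he
  refine ⟨by positivity, one_div_le_one_div_of_le (by positivity) ?_⟩
  have : (0 : ℝ) ≤ 2 * e * N := by positivity
  nlinarith

theorem sig_above {e : ℕ} (he : Odd e) (N : ℕ) {j : ℕ} (hj : j < e) :
    ∃ (ε : ℤ) (u v : ℝ), (ε = 1 ∨ ε = -1) ∧ 0 ≤ u ∧ u < v ∧ v ≤ 1 / 2 ∧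
      ∀ x : ℝ, u < x → x < v → ∀ n : ℕ, 0 < n → n ≤ N →
        sig n x = ε * (((n : ℤ) - 1) - 2 * ((n * j / e : ℕ) : ℤ)) := by
  have he0 := he.pos
  have heR : (0 : ℝ) < e := by exact_mod_cast he0
  obtain ⟨d1, d2⟩ := delta_facts he0 N
  obtain ⟨m, hm⟩ := he
  have hj0 : (0 : ℝ) ≤ (j : ℝ) / e := by positivity
  rcases le_or_gt (2 * j) (e - 1) with h | h
  · have h3 : (j : ℝ) / e + 1 / (2 * e) ≤ 1 / 2 := by
      have h4 : (2 * (j : ℝ) + 1) ≤ e := by exact_mod_cast (by omega : 2 * j + 1 ≤ e)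
      have h5 : (j : ℝ) / e + 1 / (2 * e) = (2 * j + 1) / (2 * e) := by field_simp
      rw [h5, div_le_div_iff₀ (by positivity) (by norm_num)]
      linarith
    refine ⟨-1, 1 / 2 - ((j : ℝ) / e + 1 / (2 * e * (N + 1))), 1 / 2 - (j : ℝ) / e,
      Or.inr rfl, by linarith, by linarith, by linarith, fun x hx hx' n hn hnN => ?_⟩
    obtain ⟨f1, f2, f3⟩ := floor_above he0 hn hnN hj (z := 1 / 2 - x) (by linarith)
      (by linarith)
    exact sig_down f1 (by linarith) f2 f3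
  · have h3 : (1 : ℝ) / 2 + 1 / (2 * e) ≤ (j : ℝ) / e := by
      have h4 : (e : ℝ) + 1 ≤ 2 * j := by exact_mod_cast (by omega : e + 1 ≤ 2 * j)
      have h5 : (1 : ℝ) / 2 + 1 / (2 * e) = (e + 1) / (2 * e) := by field_simp
      rw [h5, div_le_div_iff₀ (by positivity) heR]
      nlinarith
    have h6 : (j : ℝ) / e + 1 / (2 * e) ≤ 1 := by
      have h4 : (j : ℝ) + 1 ≤ e := by exact_mod_cast (by omega : j + 1 ≤ e)
      have h5 : (j : ℝ) / e + 1 / (2 * e) = (2 * j + 1) / (2 * e) := by field_simp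
      rw [h5, div_le_iff₀ (by positivity)]
      linarith
    refine ⟨1, (j : ℝ) / e - 1 / 2, (j : ℝ) / e - 1 / 2 + 1 / (2 * e * (N + 1)),
      Or.inl rfl, by linarith [(by positivity : (0 : ℝ) < 1 / (2 * e))], by linarith,
      by linarith, fun x hx hx' n hn hnN => ?_⟩
    obtain ⟨f1, f2, f3⟩ := floor_above he0 hn hnN hj (z := x + 1 / 2) (by linarith)
      (by linarith)
    exact sig_up f1 (by linarith) f2 f3

theorem sig_below {e : ℕ} (he : Odd e) (N : ℕ) {j : ℕ} (hj1 : 1 ≤ j) (hj : j ≤ e) :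
    ∃ (ε : ℤ) (u v : ℝ), (ε = 1 ∨ ε = -1) ∧ 0 ≤ u ∧ u < v ∧ v ≤ 1 / 2 ∧
      ∀ x : ℝ, u < x → x < v → ∀ n : ℕ, 0 < n → n ≤ N →
        sig n x = ε * (((n : ℤ) - 1) - 2 * (((n * j - 1) / e : ℕ) : ℤ)) := by
  have he0 := he.pos
  have heR : (0 : ℝ) < e := by exact_mod_cast he0
  obtain ⟨d1, d2⟩ := delta_facts he0 N
  obtain ⟨m, hm⟩ := he
  have hje : (j : ℝ) / e ≤ 1 := by
    rw [div_le_one heR]; exact_mod_cast hj
  rcases le_or_gt (2 * j) (e - 1) with h | h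
  · have h3 : (j : ℝ) / e ≤ 1 / 2 := by
      have h4 : 2 * (j : ℝ) ≤ e := by exact_mod_cast (by omega : 2 * j ≤ e)
      rw [div_le_div_iff₀ heR (by norm_num)]
      linarith
    have h6 : 1 / (2 * e) < (j : ℝ) / e := by
      have h4 : (1 : ℝ) ≤ j := by exact_mod_cast hj1
      rw [div_lt_div_iff₀ (by positivity) heR]
      nlinarith
    refine ⟨-1, 1 / 2 - (j : ℝ) / e, 1 / 2 - ((j : ℝ) / e - 1 / (2 * e * (N + 1))),
      Or.inr rfl, by linarith, by linarith, by linarith, fun x hx hx' n hn hnN => ?_⟩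
    obtain ⟨f1, f2, f3⟩ := floor_below he0 hn hnN hj1 hj (z := 1 / 2 - x) (by linarith)
      (by linarith)
    exact sig_down f1 (by linarith) f2 f3
  · have h3 : (1 : ℝ) / 2 + 1 / (2 * e) ≤ (j : ℝ) / e := by
      have h4 : (e : ℝ) + 1 ≤ 2 * j := by exact_mod_cast (by omega : e + 1 ≤ 2 * j)
      have h5 : (1 : ℝ) / 2 + 1 / (2 * e) = (e + 1) / (2 * e) := by field_simp
      rw [h5, div_le_div_iff₀ (by positivity) heR]
      nlinarith
    refine ⟨1, (j : ℝ) / e - 1 / 2 - 1 / (2 * e * (N + 1)), (j : ℝ) / e - 1 / 2,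
      Or.inl rfl, by linarith, by linarith, by linarith, fun x hx hx' n hn hnN => ?_⟩
    obtain ⟨f1, f2, f3⟩ := floor_below he0 hn hnN hj1 hj (z := x + 1 / 2) (by linarith)
      (by linarith)
    exact sig_up f1 (by linarith) f2 f3

end Pool.Agent.H93.TS
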