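import Pool.Agent.H93.TS.Mov
import Pool.Agent.H93.TS.Sig

/-!
# From decompositions to the genus
-/

set_option autoImplicit false

namespace Pool.Agent.H93.TS

open Multiset

theorem HasGenus.symm {A B : Multiset ℕ} (h : HasGenus A B) : HasGenus B A := by
  obtain ⟨g, ⟨s, hs, m⟩, u, v, h0, h1, h2, h3⟩ := h
  refine ⟨g, ⟨s, hs, m.symm⟩, u, v, h0, h1, h2, fun x hx hx' => ?_⟩
  rw [abs_sub_comm]
  exact h3 x hx hx'

theorem even_cast {A : Multiset ℕ} (hA : ∀ n ∈ A, Odd n) : Even ((A.sum : ℤ) + card A) := by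
  induction A using Multiset.induction_on with
  | empty => simp
  | cons b B ih =>
    obtain ⟨k, hk⟩ := hA b (mem_cons_self b B)
    obtain ⟨l, hl⟩ := ih (fun b' hb' => hA b' (mem_cons_of_mem hb'))
    refine ⟨k + l + 1, ?_⟩
    have hk' : (b : ℤ) = 2 * k + 1 := by exact_mod_cast hk
    rw [sum_cons, card_cons, Nat.cast_add, Nat.cast_add, Nat.cast_one, hk']
    linarith

/-- If the signature function is `± V` on an interval and there is a path of length at most `V`, then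
the genus is `V / 2`. -/
theorem HasGenus.mk' {A B : Multiset ℕ} (hA : ∀ n ∈ A, Odd n) (hB : ∀ n ∈ B, Odd n) {s : ℕ}
    (m : Moves s A B) (c : ℤ) (hs : (s : ℤ) ≤ (A.sum : ℤ) + card A + B.sum + card B - 2 * c)
    {u v : ℝ} (h0 : 0 ≤ u) (h1 : u < v) (h2 : v ≤ 1 / 2)
    (h3 : ∀ x : ℝ, u < x → x < v →
      |(A.map fun n => sig n x).sum - (B.map fun n => sig n x).sum| =
        (A.sum : ℤ) + card A + B.sum + card B - 2 * c) : HasGenus A B := by
  obtain ⟨a, ha⟩ := even_cast hA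
  obtain ⟨b, hb⟩ := even_cast hB
  obtain ⟨g, hg⟩ := Int.eq_ofNat_of_zero_le (show 0 ≤ a + b - c by omega)
  refine ⟨g, ⟨s, by omega, m⟩, u, v, h0, h1, h2, fun x hx hx' => ?_⟩
  rw [h3 x hx hx']
  omega

/-- All summands positive. -/
theorem genus_pos {A : Multiset ℕ} (hA : ∀ n ∈ A, Odd n) : HasGenus A 0 := by
  obtain ⟨s, m, c⟩ := kill_each A (fun n hn => (hA n hn).pos)
  obtain ⟨ε, u, v, hε, h0, h1, h2, h3⟩ := sig_above (e := 1) odd_one A.sum (j := 0) one_pos
  refine HasGenus.mk' hA (by simp) m (card A)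
    (by rw [Multiset.sum_zero, card_zero, Nat.cast_zero]; omega) h0 h1 h2 fun x hx hx' => ?_
  have h4 : ∀ B : Multiset ℕ, (∀ n ∈ B, n ∈ A) →
      (B.map fun n => sig n x).sum = ε * ((B.sum : ℤ) - card B) := by
    intro B
    induction B using Multiset.induction_on with
    | empty => intro _; simp
    | cons b B ih =>
      intro hB
      have hb := hB b (mem_cons_self b B)
      rw [map_cons, sum_cons, ih fun n hn => hB n (mem_cons_of_mem hn),
        h3 x hx hx' b (hA b hb).pos (Multiset.le_sum_of_mem hb), sum_cons, card_cons]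
      simp
      ring
  rw [h4 A fun n hn => hn]
  have h5 : (0 : ℤ) ≤ (A.sum : ℤ) - card A := by omega
  rw [Multiset.map_zero, Multiset.sum_zero, sub_zero, Multiset.sum_zero, card_zero,
    Nat.cast_zero, add_zero, add_zero]
  rcases hε with h | h
  · rw [h, one_mul, abs_of_nonneg h5]; ring
  · rw [h, neg_one_mul, abs_neg, abs_of_nonneg h5]; ring

theorem floor_eq {a b q : ℤ} (hb : 0 < b) (h1 : q * b ≤ a) (h2 : a < (q + 1) * b) : a / b = q :=
  le_antisymm (Int.lt_add_one_iff.mp (Int.ediv_lt_of_lt_mul hb h2))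
    ((Int.le_ediv_iff_mul_le hb).mpr h1)

/-- The end of the proof in the first case. -/
theorem fin0 {e n₁ n₂ : ℕ} {H w₁ w₂ : ℤ} (he : Odd e) (o1 : Odd n₁) (o2 : Odd n₂)
    (h1 : (n₁ : ℤ) = e + H * w₁) (h2 : (n₂ : ℤ) = e + H * w₂) {y z R G s : ℕ}
    (m : Moves s (replicate y n₁ + replicate z n₂) (replicate R e))
    (hs : s + 2 * G + R * e ≤ y + z + R + (y * n₁ + z * n₂)) {j : ℕ} (hj : j < e)
    (hF : F e H w₁ w₂ y z ((R : ℤ) - (y + z)) j ≤ G) :
    HasGenus (replicate y n₁ + replicate z n₂) (replicate R e) := by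
  obtain ⟨ε, u, v, hε, h0, h3, h4, h5⟩ := sig_above he (n₁ + n₂ + e) hj
  have heZ : (0 : ℤ) < e := by exact_mod_cast he.pos
  set f := F e H w₁ w₂ y z ((R : ℤ) - (y + z)) j with hf
  have q1 : ((n₁ * j / e : ℕ) : ℤ) = j + H * w₁ * j / e := by
    rw [Int.natCast_div]
    push_cast
    rw [h1, show ((e : ℤ) + H * w₁) * j = H * w₁ * j + e * j by ring,
      Int.add_mul_ediv_left _ _ heZ.ne']
    ring
  have q2 : ((n₂ * j / e : ℕ) : ℤ) = j + H * w₂ * j / e := by
    rw [Int.natCast_div]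
    push_cast
    rw [h2, show ((e : ℤ) + H * w₂) * j = H * w₂ * j + e * j by ring,
      Int.add_mul_ediv_left _ _ heZ.ne']
    ring
  have q3 : ((e * j / e : ℕ) : ℤ) = j := by
    rw [Nat.mul_div_cancel_left _ he.pos]
  have hA : ∀ n ∈ replicate y n₁ + replicate z n₂, Odd n := by
    intro n hn
    rcases Multiset.mem_add.mp hn with h | h
    · rw [Multiset.eq_of_mem_replicate h]; exact o1
    · rw [Multiset.eq_of_mem_replicate h]; exact o2
  have hB : ∀ n ∈ replicate R e, Odd n := by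
    intro n h
    rw [Multiset.eq_of_mem_replicate h]; exact he
  have hsZ : (s : ℤ) + 2 * G + R * e ≤ y + z + R + (y * n₁ + z * n₂) := by exact_mod_cast hs
  have hval : (((replicate y n₁ + replicate z n₂ : Multiset ℕ).sum : ℕ) : ℤ) +
      card (replicate y n₁ + replicate z n₂ : Multiset ℕ) +
      ((replicate R e : Multiset ℕ).sum : ℕ) + card (replicate R e : Multiset ℕ) -
      2 * (f + R * e) = y + z + R + (y * n₁ + z * n₂) - R * e - 2 * f := by
    simp
    ring
  refine HasGenus.mk' hA hB m (f + R * e) (by rw [hval]; linarith) h0 h3 h4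
    fun x hx hx' => ?_
  rw [hval]
  have e1 : ((replicate y n₁ + replicate z n₂ : Multiset ℕ).map fun n => sig n x).sum -
      ((replicate R e : Multiset ℕ).map fun n => sig n x).sum =
      y * sig n₁ x + z * sig n₂ x - R * sig e x := by
    simp
  rw [e1, h5 x hx hx' n₁ o1.pos (by omega), h5 x hx hx' n₂ o2.pos (by omega),
    h5 x hx hx' e he.pos (by omega), q1, q2, q3]
  have e2 : (y : ℤ) * (ε * ((n₁ : ℤ) - 1 - 2 * (j + H * w₁ * j / e))) +
      z * (ε * ((n₂ : ℤ) - 1 - 2 * (j + H * w₂ * j / e))) - R * (ε * ((e : ℤ) - 1 - 2 * j)) =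
      ε * (y + z + R + (y * n₁ + z * n₂) - R * e - 2 * f) := by
    rw [hf]
    unfold F
    ring
  rw [e2]
  have h6 : (0 : ℤ) ≤ y + z + R + (y * n₁ + z * n₂) - R * e - 2 * f := by
    have : (0 : ℤ) ≤ s := by positivity
    linarith
  rcases hε with h | h
  · rw [h, one_mul, abs_of_nonneg h6]
  · rw [h, neg_one_mul, abs_neg, abs_of_nonneg h6]

/-- The end of the proof in the second case. -/
theorem fin1 {e n₁ n₂ : ℕ} {K w₁ w₂ : ℤ} (he : Odd e) (o1 : Odd n₁) (o2 : Odd n₂)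
    (h1 : (n₁ : ℤ) = e - K * w₁) (h2 : (n₂ : ℤ) = e - K * w₂) {y z R G s : ℕ}
    (m : Moves s (replicate R e) (replicate y n₁ + replicate z n₂))
    (hs : s + 2 * G + (y * n₁ + z * n₂) ≤ y + z + R + R * e) {j : ℕ} (hj1 : 1 ≤ j) (hj : j ≤ e)
    (hF : F e K w₁ w₂ y z ((y : ℤ) + z - R) j ≤ G) :
    HasGenus (replicate y n₁ + replicate z n₂) (replicate R e) := by
  obtain ⟨ε, u, v, hε, h0, h3, h4, h5⟩ := sig_below he (n₁ + n₂ + e) hj1 hj
  have heZ : (0 : ℤ) < e := by exact_mod_cast he.pos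
  set f := F e K w₁ w₂ y z ((y : ℤ) + z - R) j with hf
  have q0 : ∀ (n : ℕ) (w : ℤ), 0 < n → (n : ℤ) = e - K * w →
      (((n * j - 1) / e : ℕ) : ℤ) = j - 1 - K * w * j / e := by
    intro n w hn hw
    have hnj : 1 ≤ n * j := Nat.mul_pos hn hj1
    rw [Int.natCast_div]
    push_cast [Nat.cast_sub hnj]
    have a1 := Int.ediv_mul_le (K * w * j) heZ.ne'
    have a2 := Int.lt_ediv_add_one_mul_self (K * w * j) heZ
    apply floor_eq heZ
    · rw [hw]
      linarith
    · rw [hw]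
      linarith
  have q1 := q0 n₁ w₁ o1.pos h1
  have q2 := q0 n₂ w₂ o2.pos h2
  have q3 : (((e * j - 1) / e : ℕ) : ℤ) = j - 1 := by
    have := q0 e 0 he.pos (by ring)
    simpa using this
  have hA : ∀ n ∈ replicate y n₁ + replicate z n₂, Odd n := by
    intro n hn
    rcases Multiset.mem_add.mp hn with h | h
    · rw [Multiset.eq_of_mem_replicate h]; exact o1
    · rw [Multiset.eq_of_mem_replicate h]; exact o2
  have hB : ∀ n ∈ replicate R e, Odd n := by
    intro n h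
    rw [Multiset.eq_of_mem_replicate h]; exact he
  have hsZ : (s : ℤ) + 2 * G + (y * n₁ + z * n₂) ≤ y + z + R + R * e := by exact_mod_cast hs
  have hval : (((replicate y n₁ + replicate z n₂ : Multiset ℕ).sum : ℕ) : ℤ) +
      card (replicate y n₁ + replicate z n₂ : Multiset ℕ) +
      ((replicate R e : Multiset ℕ).sum : ℕ) + card (replicate R e : Multiset ℕ) -
      2 * (f + (y * n₁ + z * n₂)) = y + z + R + R * e - (y * n₁ + z * n₂) - 2 * f := by
    simp
    ring
  refine HasGenus.mk' hA hB m.symm (f + (y * n₁ + z * n₂)) (by rw [hval]; linarith) h0 h3 h4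
    fun x hx hx' => ?_
  rw [hval]
  have e1 : ((replicate y n₁ + replicate z n₂ : Multiset ℕ).map fun n => sig n x).sum -
      ((replicate R e : Multiset ℕ).map fun n => sig n x).sum =
      y * sig n₁ x + z * sig n₂ x - R * sig e x := by
    simp
  rw [e1, h5 x hx hx' n₁ o1.pos (by omega), h5 x hx hx' n₂ o2.pos (by omega),
    h5 x hx hx' e he.pos (by omega), q1, q2, q3]
  have e2 : (y : ℤ) * (ε * ((n₁ : ℤ) - 1 - 2 * (j - 1 - K * w₁ * j / e))) +
      z * (ε * ((n₂ : ℤ) - 1 - 2 * (j - 1 - K * w₂ * j / e))) -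
      R * (ε * ((e : ℤ) - 1 - 2 * (j - 1))) =
      -(ε * (y + z + R + R * e - (y * n₁ + z * n₂) - 2 * f)) := by
    rw [hf]
    unfold F
    ring
  rw [e2, abs_neg]
  have h6 : (0 : ℤ) ≤ y + z + R + R * e - (y * n₁ + z * n₂) - 2 * f := by
    have : (0 : ℤ) ≤ s := by positivity
    linarith
  rcases hε with h | h
  · rw [h, one_mul, abs_of_nonneg h6]
  · rw [h, neg_one_mul, abs_neg, abs_of_nonneg h6]

/-- One kind of summand against the two others. -/
theorem genus_main {e n₁ n₂ : ℕ} {H w₁ w₂ : ℤ} (he : Odd e) (o1 : Odd n₁) (o2 : Odd n₂)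
    (h1 : (n₁ : ℤ) = e + H * w₁) (h2 : (n₂ : ℤ) = e + H * w₂) (y z R : ℕ)
    (core : ∀ K : ℤ, K = H ∨ K = -H → ∀ T : ℤ,
      (y : ℤ) * (K * w₁ / e) + z * (K * w₂ / e) < T → e * T ≤ K * (y * w₁ + z * w₂) →
      ∃ G j : ℕ, 1 ≤ j ∧ Dec e K w₁ w₂ G y z T ∧ F e K w₁ w₂ y z T j ≤ G) :
    HasGenus (replicate y n₁ + replicate z n₂) (replicate R e) := by
  have heZ : (0 : ℤ) < e := by exact_mod_cast he.pos
  rcases le_or_gt (e * ((R : ℤ) - (y + z))) (H * (y * w₁ + z * w₂)) with hD | hD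
  · rcases lt_or_ge ((y : ℤ) * (H * w₁ / e) + z * (H * w₂ / e)) ((R : ℤ) - (y + z)) with hT | hT
    · obtain ⟨G, j, hj, d, hF⟩ := core H (Or.inl rfl) _ hT hD
      obtain ⟨s, m, hs⟩ := D0 he.pos o1.pos o2.pos h1 h2 d R (Or.inl (by linarith))
      refine fin0 he o1 o2 h1 h2 m hs (Nat.mod_lt j he.pos) (le_trans ?_ hF)
      have h3 := F_mod heZ hD ((j % e : ℕ) : ℤ) ((j / e : ℕ) : ℤ) (by positivity)
      have h4 : ((j % e : ℕ) : ℤ) + e * ((j / e : ℕ) : ℤ) = j := by
        exact_mod_cast Nat.mod_add_div j e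
      rw [h4] at h3
      exact h3
    · have d := singles (e := (e : ℤ)) (K := H) (w₁ := w₁) (w₂ := w₂) heZ y z
      obtain ⟨s, m, hs⟩ := D0 he.pos o1.pos o2.pos h1 h2 d R (Or.inl (by linarith))
      refine fin0 he o1 o2 h1 h2 m hs he.pos ?_
      simp [F]
  · have h1' : (n₁ : ℤ) = e - (-H) * w₁ := by rw [h1]; ring
    have h2' : (n₂ : ℤ) = e - (-H) * w₂ := by rw [h2]; ring
    have hD' : e * ((y : ℤ) + z - R) ≤ (-H) * (y * w₁ + z * w₂) := by linarith
    rcases lt_or_ge ((y : ℤ) * ((-H) * w₁ / e) + z * ((-H) * w₂ / e)) ((y : ℤ) + z - R)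
      with hT | hT
    · obtain ⟨G, j, hj, d, hF⟩ := core (-H) (Or.inr rfl) _ hT hD'
      obtain ⟨R', hR', s, m, hs⟩ := D1 he.pos o1.pos o2.pos h1' h2' d
      have hRR : R' = R := by omega
      subst hRR
      obtain ⟨j', rfl⟩ : ∃ j', j = j' + 1 := ⟨j - 1, by omega⟩
      refine fin1 he o1 o2 h1' h2' m hs (j := j' % e + 1) (by omega)
        (Nat.mod_lt j' he.pos) (le_trans ?_ hF)
      have h3 := F_mod heZ hD' ((j' % e + 1 : ℕ) : ℤ) ((j' / e : ℕ) : ℤ) (by positivity)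
      have h4 : ((j' % e + 1 : ℕ) : ℤ) + e * ((j' / e : ℕ) : ℤ) = ((j' + 1 : ℕ) : ℤ) := by
        have : j' % e + 1 + e * (j' / e) = j' + 1 := by
          have := Nat.mod_add_div j' e
          omega
        exact_mod_cast this
      rw [h4] at h3
      exact h3
    · have d := singles (e := (e : ℤ)) (K := -H) (w₁ := w₁) (w₂ := w₂) heZ y z
      obtain ⟨R', hR', s, m, hs⟩ := D1 he.pos o1.pos o2.pos h1' h2' d
      obtain ⟨V, rfl⟩ : ∃ V, R = R' + V := ⟨R - R', by omega⟩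
      have m2 := m.append (kill_all he.pos V)
      rw [← replicate_add, add_zero] at m2
      refine fin1 he o1 o2 h1' h2' (G := y + z + V) (j := 1) m2 ?_ le_rfl he.pos ?_
      · obtain ⟨e', he'⟩ : ∃ e', e = e' + 1 := ⟨e - 1, by have := he.pos; omega⟩
        have e1 : V * (e - 1) + V = V * e := by
          rw [he']; simp; ring
        have e2 : (R' + V) * e = R' * e + V * e := by ring
        omega
      · unfold F
        push_cast at hR' ⊢
        simp only [mul_one]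
        linarith

end Pool.Agent.H93.TS
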