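import Pool.Agent.H93.TS.Cap
import Pool.Agent.H93.TS.Fin

/-!
# One kind of summand against arbitrary ones
-/

set_option autoImplicit false

namespace Pool.Agent.H93.TS

open Multiset

theorem sum_sig {ε : ℤ} {x : ℝ} (φ : ℕ → ℕ) (B : Multiset ℕ)
    (h : ∀ n ∈ B, sig n x = ε * (((n : ℤ) - 1) - 2 * (φ n : ℤ))) :
    (B.map fun n => sig n x).sum =
      ε * ((B.sum : ℤ) - card B - 2 * ((B.map φ).sum : ℕ)) := by
  induction B using Multiset.induction_on with
  | empty => simp
  | cons b B ih =>
    rw [map_cons, sum_cons, map_cons, sum_cons, sum_cons, card_cons,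
      ih (fun b' hb' => h b' (mem_cons_of_mem hb')), h b (mem_cons_self b B),
      Nat.cast_add, Nat.cast_add, Nat.cast_add, Nat.cast_one]
    ring

/-- The end of the proof in the first case. -/
theorem fin0' {e : ℕ} (he : Odd e) {B : Multiset ℕ} (hB : ∀ n ∈ B, Odd n) {R G s : ℕ}
    (m : Moves s B (replicate R e)) (hs : s + 2 * G + R * e ≤ card B + R + B.sum)
    {j : ℕ} (hj : j < e)
    (hF : (card B : ℤ) + ((B.map fun n => n * j / e).sum : ℕ) - R * j ≤ G) :
    HasGenus B (replicate R e) := by
  obtain ⟨ε, u, v, hε, h0, h3, h4, h5⟩ := sig_above he (B.sum + e) hj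
  have hRe : ∀ n ∈ replicate R e, Odd n := by
    intro n h
    rw [Multiset.eq_of_mem_replicate h]; exact he
  have hsZ : (s : ℤ) + 2 * G + R * e ≤ card B + R + B.sum := by
    have := hs
    omega
  have hval : (B.sum : ℤ) + card B + ((replicate R e : Multiset ℕ).sum : ℕ) +
      card (replicate R e : Multiset ℕ) -
      2 * ((card B : ℤ) + ((B.map fun n => n * j / e).sum : ℕ) - R * j + R * e) =
      card B + R + B.sum - R * e -
        2 * ((card B : ℤ) + ((B.map fun n => n * j / e).sum : ℕ) - R * j) := by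
    rw [sum_replicate, card_replicate, smul_eq_mul, Nat.cast_mul]
    ring
  refine HasGenus.mk' hB hRe m
    ((card B : ℤ) + ((B.map fun n => n * j / e).sum : ℕ) - R * j + R * e)
    (by rw [hval]; linarith) h0 h3 h4 fun x hx hx' => ?_
  rw [hval]
  have e1 := sum_sig (ε := ε) (x := x) (fun n => n * j / e) B fun n hn =>
    h5 x hx hx' n (hB n hn).pos (by have := Multiset.le_sum_of_mem hn; omega)
  have e2 : ((replicate R e : Multiset ℕ).map fun n => sig n x).sum = R * sig e x := by
    simp
  have q3 : ((e * j / e : ℕ) : ℤ) = j := by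
    rw [Nat.mul_div_cancel_left _ he.pos]
  rw [e1, e2, h5 x hx hx' e he.pos (by omega), q3]
  have e4 : ε * ((B.sum : ℤ) - card B - 2 * ((B.map fun n => n * j / e).sum : ℕ)) -
      R * (ε * ((e : ℤ) - 1 - 2 * j)) = ε * (card B + R + B.sum - R * e -
        2 * ((card B : ℤ) + ((B.map fun n => n * j / e).sum : ℕ) - R * j)) := by
    ring
  rw [e4]
  have h6 : (0 : ℤ) ≤ card B + R + B.sum - R * e -
      2 * ((card B : ℤ) + ((B.map fun n => n * j / e).sum : ℕ) - R * j) := by
    have : (0 : ℤ) ≤ s := by positivity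
    linarith
  rcases hε with h | h
  · rw [h, one_mul, abs_of_nonneg h6]
  · rw [h, neg_one_mul, abs_neg, abs_of_nonneg h6]

/-- The end of the proof in the second case. -/
theorem fin1' {e : ℕ} (he : Odd e) {B : Multiset ℕ} (hB : ∀ n ∈ B, Odd n) {R G s : ℕ}
    (m : Moves s (replicate R e) B) (hs : s + 2 * G + B.sum ≤ card B + R + R * e)
    {j : ℕ} (hj1 : 1 ≤ j) (hj : j ≤ e)
    (hF : (R : ℤ) * j - ((B.map fun n => (n * j - 1) / e).sum : ℕ) ≤ G) :
    HasGenus B (replicate R e) := by
  obtain ⟨ε, u, v, hε, h0, h3, h4, h5⟩ := sig_below he (B.sum + e) hj1 hj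
  have heZ : (0 : ℤ) < e := by exact_mod_cast he.pos
  have hRe : ∀ n ∈ replicate R e, Odd n := by
    intro n h
    rw [Multiset.eq_of_mem_replicate h]; exact he
  have hsZ : (s : ℤ) + 2 * G + B.sum ≤ card B + R + R * e := by
    have := hs
    omega
  have hval : (B.sum : ℤ) + card B + ((replicate R e : Multiset ℕ).sum : ℕ) +
      card (replicate R e : Multiset ℕ) -
      2 * ((R : ℤ) * j - ((B.map fun n => (n * j - 1) / e).sum : ℕ) + B.sum) =
      card B + R + R * e - B.sum -
        2 * ((R : ℤ) * j - ((B.map fun n => (n * j - 1) / e).sum : ℕ)) := by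
    rw [sum_replicate, card_replicate, smul_eq_mul, Nat.cast_mul]
    ring
  refine HasGenus.mk' hB hRe m.symm
    ((R : ℤ) * j - ((B.map fun n => (n * j - 1) / e).sum : ℕ) + B.sum)
    (by rw [hval]; linarith) h0 h3 h4 fun x hx hx' => ?_
  rw [hval]
  have e1 := sum_sig (ε := ε) (x := x) (fun n => (n * j - 1) / e) B fun n hn =>
    h5 x hx hx' n (hB n hn).pos (by have := Multiset.le_sum_of_mem hn; omega)
  have e2 : ((replicate R e : Multiset ℕ).map fun n => sig n x).sum = R * sig e x := by
    simp
  have q3 : (((e * j - 1) / e : ℕ) : ℤ) = j - 1 := by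
    have hej : 1 ≤ e * j := Nat.mul_pos he.pos hj1
    rw [Int.natCast_div]
    push_cast [Nat.cast_sub hej]
    apply floor_eq heZ
    · linarith
    · linarith
  rw [e1, e2, h5 x hx hx' e he.pos (by omega), q3]
  have e4 : ε * ((B.sum : ℤ) - card B - 2 * ((B.map fun n => (n * j - 1) / e).sum : ℕ)) -
      R * (ε * ((e : ℤ) - 1 - 2 * (j - 1))) = -(ε * (card B + R + R * e - B.sum -
        2 * ((R : ℤ) * j - ((B.map fun n => (n * j - 1) / e).sum : ℕ)))) := by
    ring
  rw [e4, abs_neg]
  have h6 : (0 : ℤ) ≤ card B + R + R * e - B.sum -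
        2 * ((R : ℤ) * j - ((B.map fun n => (n * j - 1) / e).sum : ℕ)) := by
    have : (0 : ℤ) ≤ s := by positivity
    linarith
  rcases hε with h | h
  · rw [h, one_mul, abs_of_nonneg h6]
  · rw [h, neg_one_mul, abs_neg, abs_of_nonneg h6]

/-- `e ⌊n j / e⌋ = n j - (n j mod e)`. -/
theorem sum_floor {e : ℕ} (j : ZMod e) (B : Multiset ℕ) [NeZero e] :
    (e : ℤ) * (card B + ((B.map fun n => n * j.val / e).sum : ℕ)) =
      ((B.map fun n : ℕ => e - (((n : ℕ) : ZMod e) * j).val).sum : ℕ) + B.sum * j.val := by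
  induction B using Multiset.induction_on with
  | empty => simp
  | cons n B ih =>
    rw [map_cons, sum_cons, map_cons, sum_cons, sum_cons, card_cons, Nat.cast_add, Nat.cast_add,
      Nat.cast_add, Nat.cast_add, Nat.cast_one]
    have h1 : ((n : ZMod e) * j).val = n * j.val % e := by
      rw [ZMod.val_mul, ZMod.val_natCast, Nat.mod_mul_mod]
    have h2 : ((n : ZMod e) * j).val < e := ZMod.val_lt _
    have h3 := Nat.div_add_mod (n * j.val) e
    rw [← h1] at h3
    have h4 : ((e - ((n : ZMod e) * j).val : ℕ) : ℤ) = e - ((n : ZMod e) * j).val := by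
      rw [Nat.cast_sub h2.le]
    rw [h4]
    have h5 : (e : ℤ) * ((n * j.val / e : ℕ) : ℤ) + (((n : ZMod e) * j).val : ℤ) =
        n * j.val := by exact_mod_cast h3
    linear_combination ih + h5

/-- **Theorem.** If the zero-sum partition theorem holds for `ℤ/e`, `e ≥ 3` odd, then it settles the
genus of all knots `#T(2,b) # -R T(2,e)`. -/
theorem one_against_all {e : ℕ} (he : Odd e) (he1 : 1 < e) (hZ : ZP e) {B : Multiset ℕ}
    (hB : ∀ n ∈ B, Odd n) (R : ℕ) : HasGenus B (replicate R e) := by
  have he0 := he.pos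
  have heZ : (0 : ℤ) < e := by exact_mod_cast he0
  have : NeZero e := ⟨by omega⟩
  have hBp : ∀ n ∈ B, 0 < n := fun n hn => (hB n hn).pos
  rcases le_total (R * e) B.sum with hD | hD
  · rcases Nat.lt_or_ge (B.map fun n => n / e).sum R with hR | hR
    · obtain ⟨D, hD'⟩ : ∃ D, B.sum = R * e + D := ⟨B.sum - R * e, by omega⟩
      set X : Multiset ℤ := B.map (Nat.cast : ℕ → ℤ) + replicate D (-1) with hX
      have hXs : X.sum = R * e := by
        rw [hX, sum_add, sum_replicate, ← Nat.cast_multiset_sum, hD']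
        simp
      obtain ⟨j, hj, G, hP, hG⟩ := hZ (X.map (Int.cast : ℤ → ZMod e)) (by
        rw [← Int.cast_multiset_sum, hXs]
        simp)
      have hP' := lift (Int.cast : ℤ → ZMod e) hP X rfl
      have hP2 : Parts (fun g : Multiset ℤ => (e : ℤ) ∣ g.sum) G X := by
        have h1 : ∀ g : Multiset ℤ, (g.map (Int.cast : ℤ → ZMod e)).sum = 0 ↔ (e : ℤ) ∣ g.sum := by
          intro g
          rw [← Int.cast_multiset_sum]
          exact ZMod.intCast_zmod_eq_zero_iff_dvd _ _
        simpa only [h1] using hP'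
      obtain ⟨q, p, Q, rfl, hC, hS⟩ := parts_to_cap he0 hP2 (by
        intro x hx
        rcases Multiset.mem_add.mp hx with h | h
        · obtain ⟨n, hn, rfl⟩ := Multiset.mem_map.mp h
          left
          exact_mod_cast hBp n hn
        · right
          exact eq_of_mem_replicate h)
      have hpos : pos X = B := by
        rw [hX, pos_add, pos_cast B hBp, pos_neg, add_zero]
      rw [hpos] at hC
      have hQ : R + p ≤ Q := by
        rw [hXs] at hS
        have h1 : (e : ℤ) * ((R + p : ℕ) : ℤ) ≤ e * (Q : ℤ) := by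
          push_cast
          linarith
        exact_mod_cast le_of_mul_le_mul_left h1 heZ
      obtain ⟨Q', hQ', hC'⟩ := cap_splits he0 hR p q Q hC hQ
      obtain ⟨s, m, hs⟩ := cap_moves he0 hC' hBp R hQ'
      refine fin0' he hB m hs (ZMod.val_lt j) ?_
      have h1 := sum_floor j B
      have h2 : ((X.map (Int.cast : ℤ → ZMod e)).map fun w => e - (w * j).val).sum =
          (B.map fun n : ℕ => e - (((n : ℕ) : ZMod e) * j).val).sum + D * j.val := by
        have hneg : e - (((-1 : ℤ) : ZMod e) * j).val = j.val := by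
          have : NeZero j := ⟨hj⟩
          have h5 : (((-1 : ℤ) : ZMod e) * j) = -j := by push_cast; ring
          rw [h5, ZMod.val_neg_of_ne_zero]
          have := ZMod.val_lt j
          omega
        rw [hX, Multiset.map_add, Multiset.map_add, sum_add, map_replicate, map_replicate, sum_replicate, hneg,
          Multiset.map_map, Multiset.map_map]
        simp
      rw [h2] at hG
      have h3 : ((B.map fun n : ℕ => e - (((n : ℕ) : ZMod e) * j).val).sum : ℤ) + D * j.val ≤
          e * ((q + p : ℕ) : ℤ) := by exact_mod_cast hG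
      have h4 : (e : ℤ) * ((card B : ℤ) + ((B.map fun n => n * j.val / e).sum : ℕ) -
          R * j.val) ≤ e * ((q + p : ℕ) : ℤ) := by
        have h5 : (B.sum : ℤ) = R * e + D := by exact_mod_cast hD'
        rw [h5] at h1
        linarith
      exact le_of_mul_le_mul_left h4 heZ
    · obtain ⟨s, m, hs⟩ := cap_moves he0 (cap_singles e B) hBp R hR
      refine fin0' he hB m hs he0 ?_
      simp
  · obtain ⟨D, hD'⟩ : ∃ D, R * e = B.sum + D := ⟨R * e - B.sum, by omega⟩
    set X : Multiset ℕ := B + replicate D 1 with hX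
    have hXs : X.sum = R * e := by
      rw [hX, sum_add, sum_replicate, hD']
      simp
    have hXp : ∀ n ∈ X, 0 < n := by
      intro n hn
      rcases Multiset.mem_add.mp hn with h | h
      · exact hBp n h
      · rw [eq_of_mem_replicate h]; exact one_pos
    obtain ⟨j, hj, G, hP, hG⟩ := hZ (X.map (Nat.cast : ℕ → ZMod e)) (by
      rw [← Nat.cast_multiset_sum, hXs]
      simp)
    have hP' := lift (Nat.cast : ℕ → ZMod e) hP X rfl
    have hP2 : Parts (fun g : Multiset ℕ => e ∣ g.sum) G X := by
      have h1 : ∀ g : Multiset ℕ, (g.map (Nat.cast : ℕ → ZMod e)).sum = 0 ↔ e ∣ g.sum := by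
        intro g
        rw [← Nat.cast_multiset_sum]
        exact ZMod.natCast_eq_zero_iff _ _
      simpa only [h1] using hP'
    obtain ⟨R', s, hR', m, hs⟩ := exact_moves he0 hP2 hXp
    have hRR : R' = R := by
      rw [hXs] at hR'
      exact (Nat.eq_of_mul_eq_mul_right he0 hR').symm
    subst hRR
    have m2 : Moves s (replicate R' e) B := drop_ones D m
    have hjv := ZMod.val_lt j
    have hjv0 : 0 < j.val := Nat.pos_of_ne_zero fun h => hj ((ZMod.val_eq_zero j).mp h)
    have hcX : card X = card B + D := by rw [hX, card_add, card_replicate]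
    refine fin1' he hB (G := G) m2 (by omega) (j := e - j.val) (by omega) (by omega) ?_
    -- the sum of the floors
    have key : ∀ A : Multiset ℕ, (∀ n ∈ A, 0 < n) →
        (e : ℤ) * ((A.map fun n => (n * (e - j.val) - 1) / e).sum : ℕ) +
          ((A.map fun n : ℕ => e - (((n : ℕ) : ZMod e) * j).val).sum : ℕ) =
          A.sum * ((e - j.val : ℕ) : ℤ) := by
      intro A
      induction A using Multiset.induction_on with
      | empty => intro _; simp
      | cons n A ih =>
        intro hA
        have hn := hA n (mem_cons_self n A)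
        have ih' := ih fun k hk => hA k (mem_cons_of_mem hk)
        rw [map_cons, sum_cons, map_cons, sum_cons, sum_cons, Nat.cast_add, Nat.cast_add,
          Nat.cast_add]
        have h1 : ((n : ZMod e) * j).val = n * j.val % e := by
          rw [ZMod.val_mul, ZMod.val_natCast, Nat.mod_mul_mod]
        have h2 : ((n : ZMod e) * j).val < e := ZMod.val_lt _
        have h3 := Nat.div_add_mod (n * j.val) e
        rw [← h1] at h3
        have h4 : ((e - ((n : ZMod e) * j).val : ℕ) : ℤ) = e - ((n : ZMod e) * j).val := by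
          rw [Nat.cast_sub h2.le]
        have h5 : (e : ℤ) * ((n * j.val / e : ℕ) : ℤ) + (((n : ZMod e) * j).val : ℤ) =
            n * j.val := by exact_mod_cast h3
        have h6 : ((e - j.val : ℕ) : ℤ) = e - j.val := by rw [Nat.cast_sub hjv.le]
        have hpos1 : 1 ≤ n * (e - j.val) := Nat.mul_pos hn (by omega)
        have h7 : (((n * (e - j.val) - 1) / e : ℕ) : ℤ) = n - ((n * j.val / e : ℕ) : ℤ) - 1 := by
          rw [Int.natCast_div, Nat.cast_sub hpos1, Nat.cast_mul, h6, Nat.cast_one]
          have h2' : (((n : ZMod e) * j).val : ℤ) < e := by exact_mod_cast h2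
          have h2'' : (0 : ℤ) ≤ (((n : ZMod e) * j).val : ℤ) := by positivity
          apply floor_eq heZ
          · linarith
          · linarith
        rw [h7, h4, h6]
        rw [h6] at ih'
        linear_combination ih' - h5
    have k1 := key B hBp
    have h2 : ((X.map (Nat.cast : ℕ → ZMod e)).map fun w => e - (w * j).val).sum =
        (B.map fun n : ℕ => e - (((n : ℕ) : ZMod e) * j).val).sum + D * (e - j.val) := by
      rw [hX, Multiset.map_add, Multiset.map_add, sum_add, map_replicate, map_replicate, sum_replicate,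
        Multiset.map_map]
      simp
    rw [h2] at hG
    have h6 : ((e - j.val : ℕ) : ℤ) = e - j.val := by rw [Nat.cast_sub hjv.le]
    have h3 : ((B.map fun n : ℕ => e - (((n : ℕ) : ZMod e) * j).val).sum : ℤ) +
        D * ((e - j.val : ℕ) : ℤ) ≤ e * (G : ℤ) := by exact_mod_cast hG
    have h4 : (e : ℤ) * ((R' : ℤ) * ((e - j.val : ℕ) : ℤ) -
        ((B.map fun n => (n * (e - j.val) - 1) / e).sum : ℕ)) ≤ e * (G : ℤ) := by
      have h5 : (R' : ℤ) * e = B.sum + D := by exact_mod_cast hD'
      have h8 : (e : ℤ) * ((R' : ℤ) * ((e - j.val : ℕ) : ℤ)) =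
          (B.sum + D) * ((e - j.val : ℕ) : ℤ) := by
        rw [← h5]; ring
      linarith
    exact le_of_mul_le_mul_left h4 heZ

end Pool.Agent.H93.TS
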