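import Pool.Agent.H93.TS.ZR

/-!
# Zero-sum partitions over `ℤ/e` with residues `0, 1, -1, h, 2h` or `0, 1, -1, h, -h`
-/

set_option autoImplicit false

namespace Pool.Agent.H93.TS

open Multiset

theorem good12 {e : ℕ} (he : 1 < e) (h : ℤ) (y z D : ℕ)
    (hd : (e : ℤ) ∣ h * y + 2 * h * z - D) :
    ∃ j : ZMod e, j ≠ 0 ∧ Good e j (A3 e h (2 * h) y z D) := by
  have heZ : (0 : ℤ) < e := by exact_mod_cast (by omega : 0 < e)
  have h1 := good_of_core (H := h) (w₁ := 1) (w₂ := 2) (y := y) (z := z) (D := D) he (by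
    have : h * (y * 1 + z * 2) - D = h * y + 2 * h * z - D := by ring
    rw [this]; exact hd) fun T a b => core12 heZ a b
  rwa [mul_one, mul_comm h 2] at h1

theorem A3_congr {e : ℕ} {u v u' v' : ℤ} (h1 : (u : ZMod e) = u') (h2 : (v : ZMod e) = v')
    (y z D : ℕ) : A3 e u v y z D = A3 e u' v' y z D := by
  unfold A3; rw [h1, h2]

theorem A3_swap (e : ℕ) (u v : ℤ) (y z D : ℕ) : A3 e u v y z D = A3 e v u z y D := by
  unfold A3; abel

theorem goodM {e : ℕ} (he : 1 < e) (h : ℤ) (x z D : ℕ) (hd : (e : ℤ) ∣ h * x + (-h) * z - D) :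
    ∃ j : ZMod e, j ≠ 0 ∧ Good e j (A3 e h (-h) x z D) := by
  have heZ : (0 : ℤ) < e := by exact_mod_cast (by omega : 0 < e)
  have r0 := Int.emod_nonneg h heZ.ne'
  have r1 := Int.emod_lt_of_pos h heZ
  have r2 := Int.emod_add_mul_ediv h e
  set r := h % e with hr
  have c1 : (h : ZMod e) = (r : ZMod e) := by
    rw [← r2]; push_cast; simp
  rw [A3_congr (u' := r) (v' := -r) c1 (by push_cast; rw [c1])]
  have hd' : (e : ℤ) ∣ r * x + (-r) * z - D := by
    have h3 : h * x + (-h) * z - D = (r * x + (-r) * z - D) + e * (h / e * (x - z)) := by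
      conv_lhs => rw [← r2]
      ring
    rw [h3] at hd
    exact (Int.dvd_add_left (Dvd.intro _ rfl)).mp hd
  rcases eq_or_ne r 0 with h0 | h0
  · obtain ⟨j, k1, k2⟩ := good12 he 0 x z D (by
      rw [h0] at hd'
      simpa using hd')
    refine ⟨j, k1, ?_⟩
    rw [h0]
    simpa using k2
  · rcases le_total x z with hxz | hxz
    · have h1 := good_of_core (H := -r) (w₁ := -1) (w₂ := 1) (y := x) (z := z) (D := D) he (by
        have : -r * (x * -1 + z * 1) - D = r * x + (-r) * z - D := by ring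
        rw [this]; exact hd') fun T a b =>
          coreM heZ (neg_ne_zero.mpr h0) (by linarith) (by omega) hxz a b
      have e1 : -r * -1 = r := by ring
      have e2 : -r * 1 = -r := by ring
      rwa [e1, e2] at h1
    · have h1 := good_of_core (H := r) (w₁ := -1) (w₂ := 1) (y := z) (z := x) (D := D) he (by
        have : r * (z * -1 + x * 1) - D = r * x + (-r) * z - D := by ring
        rw [this]; exact hd') fun T a b =>
          coreM heZ h0 (by linarith) (by linarith) hxz a b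
      have e1 : r * -1 = -r := by ring
      have e2 : r * 1 = r := by ring
      rw [e1, e2, A3_swap] at h1
      exact h1

theorem supp5 {e : ℕ} (u v : ZMod e) (X : Multiset (ZMod e)) :
    (∀ x ∈ X, x = 0 ∨ x = 1 ∨ x = -1 ∨ x = u ∨ x = v) →
    ∃ c₀ c₁ c₂ c₃ c₄ : ℕ, X = replicate c₃ u + replicate c₄ v + replicate c₂ (-1) +
      replicate c₁ 1 + replicate c₀ 0 := by
  induction X using Multiset.induction_on with
  | empty => intro _; exact ⟨0, 0, 0, 0, 0, by simp⟩
  | cons x X ih =>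
    intro h
    obtain ⟨c₀, c₁, c₂, c₃, c₄, rfl⟩ := ih fun y hy => h y (mem_cons_of_mem hy)
    rcases h x (mem_cons_self _ _) with rfl | rfl | rfl | rfl | rfl
    · refine ⟨c₀ + 1, c₁, c₂, c₃, c₄, ?_⟩
      rw [← singleton_add, replicate_add c₀ 1, replicate_one]; abel
    · refine ⟨c₀, c₁ + 1, c₂, c₃, c₄, ?_⟩
      rw [← singleton_add, replicate_add c₁ 1, replicate_one]; abel
    · refine ⟨c₀, c₁, c₂ + 1, c₃, c₄, ?_⟩
      rw [← singleton_add, replicate_add c₂ 1, replicate_one]; abel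
    · refine ⟨c₀, c₁, c₂, c₃ + 1, c₄, ?_⟩
      rw [← singleton_add, replicate_add c₃ 1, replicate_one]; abel
    · refine ⟨c₀, c₁, c₂, c₃, c₄ + 1, ?_⟩
      rw [← singleton_add, replicate_add c₄ 1, replicate_one]; abel

theorem good_supp {e : ℕ} (he : 1 < e) (u v : ℤ)
    (P : ∀ y z D : ℕ, (e : ℤ) ∣ u * y + v * z - D →
      ∃ j : ZMod e, j ≠ 0 ∧ Good e j (A3 e u v y z D))
    (P' : ∀ y z D : ℕ, (e : ℤ) ∣ (-u) * y + (-v) * z - D →
      ∃ j : ZMod e, j ≠ 0 ∧ Good e j (A3 e (-u) (-v) y z D))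
    (X : Multiset (ZMod e))
    (hX : ∀ x ∈ X, x = 0 ∨ x = 1 ∨ x = -1 ∨ x = (u : ZMod e) ∨ x = (v : ZMod e))
    (hs : X.sum = 0) : ∃ j : ZMod e, j ≠ 0 ∧ Good e j X := by
  have : NeZero e := ⟨by omega⟩
  have hadd : ∀ (Y : Multiset (ZMod e)) (j : ZMod e) (m c : ℕ), j ≠ 0 → Good e j Y →
      Good e j (Y + (replicate m 1 + replicate m (-1)) + replicate c 0) := by
    intro Y j m c hj hY
    refine (hY.addpair 1 (-1) (by simp) ?_ m).addzero c
    have : NeZero j := ⟨hj⟩
    have h1 : (-1 * j : ZMod e).val = e - j.val := by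
      rw [neg_one_mul, ZMod.val_neg_of_ne_zero]
    have h2 := ZMod.val_lt j
    rw [h1, one_mul]
    omega
  obtain ⟨c₀, c₁, c₂, c₃, c₄, rfl⟩ := supp5 _ _ X hX
  simp only [sum_add, sum_replicate, nsmul_eq_mul] at hs
  rcases le_total c₁ c₂ with h | h
  · obtain ⟨d, rfl⟩ := Nat.exists_eq_add_of_le h
    obtain ⟨j, k1, k2⟩ := P c₃ c₄ d (by
      rw [← ZMod.intCast_zmod_eq_zero_iff_dvd]
      push_cast at hs ⊢
      linear_combination hs)
    refine ⟨j, k1, ?_⟩
    have h3 := hadd _ j c₁ c₀ k1 k2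
    have e1 : A3 e u v c₃ c₄ d + (replicate c₁ 1 + replicate c₁ (-1)) + replicate c₀ 0 =
        replicate c₃ (u : ZMod e) + replicate c₄ (v : ZMod e) + replicate (c₁ + d) (-1) +
          replicate c₁ 1 + replicate c₀ 0 := by
      unfold A3
      rw [replicate_add c₁ d]
      abel
    rwa [e1] at h3
  · obtain ⟨d, rfl⟩ := Nat.exists_eq_add_of_le h
    obtain ⟨j, k1, k2⟩ := P' c₃ c₄ d (by
      rw [← ZMod.intCast_zmod_eq_zero_iff_dvd]
      push_cast at hs ⊢
      linear_combination -hs)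
    refine ⟨-j, neg_ne_zero.mpr k1, ?_⟩
    have h3 := hadd _ (-j) c₂ c₀ (neg_ne_zero.mpr k1) k2.neg
    have e1 : (A3 e (-u) (-v) c₃ c₄ d).map Neg.neg + (replicate c₂ 1 + replicate c₂ (-1)) +
        replicate c₀ 0 =
        replicate c₃ (u : ZMod e) + replicate c₄ (v : ZMod e) + replicate c₂ (-1) +
          replicate (c₂ + d) 1 + replicate c₀ 0 := by
      unfold A3
      rw [replicate_add c₂ d, Multiset.map_add, Multiset.map_add, map_replicate, map_replicate,
        map_replicate]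
      push_cast
      rw [neg_neg, neg_neg, neg_neg]
      abel
    rwa [e1] at h3

/-- The zero-sum partition theorem for the residues `0, 1, -1, h, 2h`. -/
theorem good_h2h {e : ℕ} (he : 1 < e) (h : ℤ) (X : Multiset (ZMod e))
    (hX : ∀ x ∈ X, x = 0 ∨ x = 1 ∨ x = -1 ∨ x = (h : ZMod e) ∨ x = ((2 * h : ℤ) : ZMod e))
    (hs : X.sum = 0) : ∃ j : ZMod e, j ≠ 0 ∧ Good e j X := by
  refine good_supp he h (2 * h) (fun y z D => good12 he h y z D) (fun y z D hd => ?_) X hX hs
  have e1 : -(2 * h) = 2 * -h := by ring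
  rw [e1] at hd ⊢
  exact good12 he (-h) y z D hd

/-- The zero-sum partition theorem for the residues `0, 1, -1, h, -h`. -/
theorem good_hmh {e : ℕ} (he : 1 < e) (h : ℤ) (X : Multiset (ZMod e))
    (hX : ∀ x ∈ X, x = 0 ∨ x = 1 ∨ x = -1 ∨ x = (h : ZMod e) ∨ x = ((-h : ℤ) : ZMod e))
    (hs : X.sum = 0) : ∃ j : ZMod e, j ≠ 0 ∧ Good e j X :=
  good_supp he h (-h) (fun y z D => goodM he h y z D) (fun y z D => goodM he (-h) y z D) X hX hs

end Pool.Agent.H93.TS
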