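import Pool.Agent.H93.TS.Fin2
import Pool.Agent.H93.TS.ZS

/-!
# One kind of summand against summands of few residue classes
-/

set_option autoImplicit false

namespace Pool.Agent.H93.TS

open Multiset

/-- If the zero-sum partition theorem holds for the sequences over `ℤ/e`, `e ≥ 3` odd, whose members
are `1`, `-1` or the residues of the members of `B`, then it settles the genus of all knots
`#T(2,b) # -R T(2,e)`. -/
theorem one_against {e : ℕ} (he : Odd e) (he1 : 1 < e) {B : Multiset ℕ}
    (hZ : ∀ X : Multiset (ZMod e), (∀ x ∈ X, x = 1 ∨ x = -1 ∨ ∃ b ∈ B, x = (b : ZMod e)) →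
      X.sum = 0 → ∃ j : ZMod e, j ≠ 0 ∧ Good e j X)
    (hB : ∀ n ∈ B, Odd n) (R : ℕ) : HasGenus B (replicate R e) := by
  have he0 := he.pos
  have heZ : (0 : ℤ) < e := by exact_mod_cast he0
  have : NeZero e := ⟨by omega⟩
  have hBp : ∀ n ∈ B, 0 < n := fun n hn => (hB n hn).pos
  rcases le_total (R * e) B.sum with hD | hD
  · rcases Nat.lt_or_ge (B.map fun n => n / e).sum R with hR | hR
    · obtain ⟨D, hD'⟩ : ∃ D, B.sum = R * e + D := ⟨B.sum - R * e, by omega⟩
      set X : Multiset ℤ := B.map (Nat.cast : ℕ → ℤ) + replicate D (-1) with hX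
      have hXs : X.sum = R * e := by
        rw [hX, sum_add, sum_replicate, ← Nat.cast_multiset_sum, hD']
        simp
      obtain ⟨j, hj, G, hP, hG⟩ := hZ (X.map (Int.cast : ℤ → ZMod e)) (by
        intro x hx
        obtain ⟨y, hy, rfl⟩ := Multiset.mem_map.mp hx
        rcases Multiset.mem_add.mp hy with h | h
        · obtain ⟨n, hn, rfl⟩ := Multiset.mem_map.mp h
          exact Or.inr (Or.inr ⟨n, hn, by simp⟩)
        · rw [eq_of_mem_replicate h]
          exact Or.inr (Or.inl (by simp))) (by
        rw [← Int.cast_multiset_sum, hXs]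
        simp)
      have hP' := lift (Int.cast : ℤ → ZMod e) hP X rfl
      have hP2 : Parts (fun g : Multiset ℤ => (e : ℤ) ∣ g.sum) G X := by
        have h1 : ∀ g : Multiset ℤ, (g.map (Int.cast : ℤ → ZMod e)).sum = 0 ↔ (e : ℤ) ∣ g.sum := by
          intro g
          rw [← Int.cast_multiset_sum]
          exact ZMod.intCast_zmod_eq_zero_iff_dvd _ _
        simpa only [h1] using hP'
      obtain ⟨q, p, Q, rfl, hC, hS⟩ := parts_to_cap he0 hP2 (by
        intro x hx
        rcases Multiset.mem_add.mp hx with h | h
        · obtain ⟨n, hn, rfl⟩ := Multiset.mem_map.mp h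
          left
          exact_mod_cast hBp n hn
        · right
          exact eq_of_mem_replicate h)
      have hpos : pos X = B := by
        rw [hX, pos_add, pos_cast B hBp, pos_neg, add_zero]
      rw [hpos] at hC
      have hQ : R + p ≤ Q := by
        rw [hXs] at hS
        have h1 : (e : ℤ) * ((R + p : ℕ) : ℤ) ≤ e * (Q : ℤ) := by
          push_cast
          linarith
        exact_mod_cast le_of_mul_le_mul_left h1 heZ
      obtain ⟨Q', hQ', hC'⟩ := cap_splits he0 hR p q Q hC hQ
      obtain ⟨s, m, hs⟩ := cap_moves he0 hC' hBp R hQ'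
      refine fin0' he hB m hs (ZMod.val_lt j) ?_
      have h1 := sum_floor j B
      have h2 : ((X.map (Int.cast : ℤ → ZMod e)).map fun w => e - (w * j).val).sum =
          (B.map fun n : ℕ => e - (((n : ℕ) : ZMod e) * j).val).sum + D * j.val := by
        have hneg : e - (((-1 : ℤ) : ZMod e) * j).val = j.val := by
          have : NeZero j := ⟨hj⟩
          have h5 : (((-1 : ℤ) : ZMod e) * j) = -j := by push_cast; ring
          rw [h5, ZMod.val_neg_of_ne_zero]
          have := ZMod.val_lt j
          omega
        rw [hX, Multiset.map_add, Multiset.map_add, sum_add, map_replicate, map_replicate, sum_replicate, hneg,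
          Multiset.map_map, Multiset.map_map]
        simp
      rw [h2] at hG
      have h3 : ((B.map fun n : ℕ => e - (((n : ℕ) : ZMod e) * j).val).sum : ℤ) + D * j.val ≤
          e * ((q + p : ℕ) : ℤ) := by exact_mod_cast hG
      have h4 : (e : ℤ) * ((card B : ℤ) + ((B.map fun n => n * j.val / e).sum : ℕ) -
          R * j.val) ≤ e * ((q + p : ℕ) : ℤ) := by
        have h5 : (B.sum : ℤ) = R * e + D := by exact_mod_cast hD'
        rw [h5] at h1
        linarith
      exact le_of_mul_le_mul_left h4 heZ
    · obtain ⟨s, m, hs⟩ := cap_moves he0 (cap_singles e B) hBp R hR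
      refine fin0' he hB m hs he0 ?_
      simp
  · obtain ⟨D, hD'⟩ : ∃ D, R * e = B.sum + D := ⟨R * e - B.sum, by omega⟩
    set X : Multiset ℕ := B + replicate D 1 with hX
    have hXs : X.sum = R * e := by
      rw [hX, sum_add, sum_replicate, hD']
      simp
    have hXp : ∀ n ∈ X, 0 < n := by
      intro n hn
      rcases Multiset.mem_add.mp hn with h | h
      · exact hBp n h
      · rw [eq_of_mem_replicate h]; exact one_pos
    obtain ⟨j, hj, G, hP, hG⟩ := hZ (X.map (Nat.cast : ℕ → ZMod e)) (by
      intro x hx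
      obtain ⟨y, hy, rfl⟩ := Multiset.mem_map.mp hx
      rcases Multiset.mem_add.mp hy with h | h
      · exact Or.inr (Or.inr ⟨y, h, rfl⟩)
      · rw [eq_of_mem_replicate h]
        exact Or.inl (by simp)) (by
      rw [← Nat.cast_multiset_sum, hXs]
      simp)
    have hP' := lift (Nat.cast : ℕ → ZMod e) hP X rfl
    have hP2 : Parts (fun g : Multiset ℕ => e ∣ g.sum) G X := by
      have h1 : ∀ g : Multiset ℕ, (g.map (Nat.cast : ℕ → ZMod e)).sum = 0 ↔ e ∣ g.sum := by
        intro g
        rw [← Nat.cast_multiset_sum]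
        exact ZMod.natCast_eq_zero_iff _ _
      simpa only [h1] using hP'
    obtain ⟨R', s, hR', m, hs⟩ := exact_moves he0 hP2 hXp
    have hRR : R' = R := by
      rw [hXs] at hR'
      exact (Nat.eq_of_mul_eq_mul_right he0 hR').symm
    subst hRR
    have m2 : Moves s (replicate R' e) B := drop_ones D m
    have hjv := ZMod.val_lt j
    have hjv0 : 0 < j.val := Nat.pos_of_ne_zero fun h => hj ((ZMod.val_eq_zero j).mp h)
    have hcX : card X = card B + D := by rw [hX, card_add, card_replicate]
    refine fin1' he hB (G := G) m2 (by omega) (j := e - j.val) (by omega) (by omega) ?_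
    -- the sum of the floors
    have key : ∀ A : Multiset ℕ, (∀ n ∈ A, 0 < n) →
        (e : ℤ) * ((A.map fun n => (n * (e - j.val) - 1) / e).sum : ℕ) +
          ((A.map fun n : ℕ => e - (((n : ℕ) : ZMod e) * j).val).sum : ℕ) =
          A.sum * ((e - j.val : ℕ) : ℤ) := by
      intro A
      induction A using Multiset.induction_on with
      | empty => intro _; simp
      | cons n A ih =>
        intro hA
        have hn := hA n (mem_cons_self n A)
        have ih' := ih fun k hk => hA k (mem_cons_of_mem hk)
        rw [map_cons, sum_cons, map_cons, sum_cons, sum_cons, Nat.cast_add, Nat.cast_add,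
          Nat.cast_add]
        have h1 : ((n : ZMod e) * j).val = n * j.val % e := by
          rw [ZMod.val_mul, ZMod.val_natCast, Nat.mod_mul_mod]
        have h2 : ((n : ZMod e) * j).val < e := ZMod.val_lt _
        have h3 := Nat.div_add_mod (n * j.val) e
        rw [← h1] at h3
        have h4 : ((e - ((n : ZMod e) * j).val : ℕ) : ℤ) = e - ((n : ZMod e) * j).val := by
          rw [Nat.cast_sub h2.le]
        have h5 : (e : ℤ) * ((n * j.val / e : ℕ) : ℤ) + (((n : ZMod e) * j).val : ℤ) =
            n * j.val := by exact_mod_cast h3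
        have h6 : ((e - j.val : ℕ) : ℤ) = e - j.val := by rw [Nat.cast_sub hjv.le]
        have hpos1 : 1 ≤ n * (e - j.val) := Nat.mul_pos hn (by omega)
        have h7 : (((n * (e - j.val) - 1) / e : ℕ) : ℤ) = n - ((n * j.val / e : ℕ) : ℤ) - 1 := by
          rw [Int.natCast_div, Nat.cast_sub hpos1, Nat.cast_mul, h6, Nat.cast_one]
          have h2' : (((n : ZMod e) * j).val : ℤ) < e := by exact_mod_cast h2
          have h2'' : (0 : ℤ) ≤ (((n : ZMod e) * j).val : ℤ) := by positivity
          apply floor_eq heZ
          · linarith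
          · linarith
        rw [h7, h4, h6]
        rw [h6] at ih'
        linear_combination ih' - h5
    have k1 := key B hBp
    have h2 : ((X.map (Nat.cast : ℕ → ZMod e)).map fun w => e - (w * j).val).sum =
        (B.map fun n : ℕ => e - (((n : ℕ) : ZMod e) * j).val).sum + D * (e - j.val) := by
      rw [hX, Multiset.map_add, Multiset.map_add, sum_add, map_replicate, map_replicate, sum_replicate,
        Multiset.map_map]
      simp
    rw [h2] at hG
    have h6 : ((e - j.val : ℕ) : ℤ) = e - j.val := by rw [Nat.cast_sub hjv.le]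
    have h3 : ((B.map fun n : ℕ => e - (((n : ℕ) : ZMod e) * j).val).sum : ℤ) +
        D * ((e - j.val : ℕ) : ℤ) ≤ e * (G : ℤ) := by exact_mod_cast hG
    have h4 : (e : ℤ) * ((R' : ℤ) * ((e - j.val : ℕ) : ℤ) -
        ((B.map fun n => (n * (e - j.val) - 1) / e).sum : ℕ)) ≤ e * (G : ℤ) := by
      have h5 : (R' : ℤ) * e = B.sum + D := by exact_mod_cast hD'
      have h8 : (e : ℤ) * ((R' : ℤ) * ((e - j.val : ℕ) : ℤ)) =
          (B.sum + D) * ((e - j.val : ℕ) : ℤ) := by
        rw [← h5]; ring
      linarith
    exact le_of_mul_le_mul_left h4 heZ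

end Pool.Agent.H93.TS
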