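import Pool.Agent.H93.TS.Defs
import Pool.Agent.H93.TS.Core

/-!
# Moves from decompositions
-/

set_option autoImplicit false

namespace Pool.Agent.H93.TS

open Multiset

theorem sum_pos_of {α : Multiset ℕ} (hα : ∀ n ∈ α, 0 < n) (h0 : α ≠ 0) : 0 < α.sum := by
  obtain ⟨n, hn⟩ := Multiset.exists_mem_of_ne_zero h0
  have := hα n hn
  have := Multiset.le_sum_of_mem hn
  omega

theorem merge_all (α : Multiset ℕ) : (∀ n ∈ α, 0 < n) → α ≠ 0 →
    Moves (card α - 1) α {α.sum} := by
  induction α using Multiset.induction_on with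
  | empty => intro _ h; exact absurd rfl h
  | cons n α ih =>
    intro hα _
    rcases eq_or_ne α 0 with h | h
    · subst h
      simpa using Moves.refl {n}
    · have h1 := ih (fun m hm => hα m (mem_cons_of_mem hm)) h
      have h2 := h1.addRight {n}
      have hc : 0 < card α := Multiset.card_pos.mpr h
      have h3 : Moves (card α - 1 + 1) (α + {n}) {n + α.sum} := by
        apply Moves.merge (u := 0) (hα n (mem_cons_self n α))
          (sum_pos_of (fun m hm => hα m (mem_cons_of_mem hm)) h)
        have e : (n ::ₘ α.sum ::ₘ 0 : Multiset ℕ) = {α.sum} + {n} :=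
          add_comm ({n} : Multiset ℕ) {α.sum}
        rw [e]
        exact h2
      have e1 : card (n ::ₘ α) - 1 = card α - 1 + 1 := by
        rw [card_cons]; omega
      have e2 : n ::ₘ α = α + {n} := by
        rw [← singleton_add, add_comm]
      rw [e1, sum_cons, e2]
      exact h3

theorem group_moves (α β : Multiset ℕ) (hα : ∀ n ∈ α, 0 < n) (hβ : ∀ n ∈ β, 0 < n)
    (h0 : α ≠ 0) (hle : β.sum ≤ α.sum) :
    ∃ s, Moves s α β ∧ s + 2 + β.sum ≤ card α + card β + α.sum := by
  have h1 := merge_all α hα h0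
  have hc : 0 < card α := Multiset.card_pos.mpr h0
  have hs := sum_pos_of hα h0
  rcases eq_or_ne β 0 with h | h
  · subst h
    exact ⟨_, h1.trans (kill hs), by simp; omega⟩
  · have h2 := merge_all β hβ h
    have hs' := sum_pos_of hβ h
    have hc' : 0 < card β := Multiset.card_pos.mpr h
    have h3 := reduce hs' (α.sum - β.sum)
    rw [Nat.add_sub_cancel' hle] at h3
    exact ⟨_, (h1.trans h3).trans h2.symm, by omega⟩

theorem atoms_pos {k i n₁ n₂ : ℕ} (hn1 : 0 < n₁) (hn2 : 0 < n₂) :
    ∀ n ∈ replicate k n₁ + replicate i n₂, 0 < n := by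
  intro n hn
  rcases Multiset.mem_add.mp hn with h | h
  · rw [Multiset.eq_of_mem_replicate h]; exact hn1
  · rw [Multiset.eq_of_mem_replicate h]; exact hn2

theorem rep_pos {k n₁ : ℕ} (hn1 : 0 < n₁) : ∀ n ∈ replicate k n₁, 0 < n := by
  intro n h
  rw [Multiset.eq_of_mem_replicate h]; exact hn1

theorem atoms_sum (k i n₁ n₂ : ℕ) :
    (replicate k n₁ + replicate i n₂ : Multiset ℕ).sum = k * n₁ + i * n₂ := by
  simp

theorem atoms_card (k i n₁ n₂ : ℕ) :
    card (replicate k n₁ + replicate i n₂ : Multiset ℕ) = k + i := by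
  simp

/-- The atoms weigh at least as much as the copies of `e`. -/
theorem D0 {e n₁ n₂ : ℕ} {H w₁ w₂ : ℤ} (he : 0 < e) (hn1 : 0 < n₁) (hn2 : 0 < n₂)
    (h1 : (n₁ : ℤ) = e + H * w₁) (h2 : (n₂ : ℤ) = e + H * w₂) {G y z : ℕ} {T : ℤ}
    (d : Dec e H w₁ w₂ G y z T) :
    ∀ R : ℕ, ((R : ℤ) ≤ y + z + T ∨ R = 0) →
      ∃ s, Moves s (replicate y n₁ + replicate z n₂) (replicate R e) ∧
        s + 2 * G + R * e ≤ y + z + R + (y * n₁ + z * n₂) := by
  induction d with
  | zero =>
    intro R hR
    have : R = 0 := by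
      rcases hR with h | h
      · push_cast at h; omega
      · exact h
    subst this
    exact ⟨0, by simpa using Moves.refl 0, by simp⟩
  | @cons G y z T k i t hk ht d ih =>
    intro R hR
    have heZ : (0 : ℤ) < e := by exact_mod_cast he
    have hq : (k : ℤ) + i + t ≤ (((k * n₁ + i * n₂) / e : ℕ) : ℤ) := by
      rw [Int.natCast_div, Int.le_ediv_iff_mul_le heZ]
      push_cast
      rw [h1, h2]
      linarith
    obtain ⟨r, R', rfl, hr, hcond⟩ : ∃ r R' : ℕ, R = R' + r ∧ r ≤ (k * n₁ + i * n₂) / e ∧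
        ((R' : ℤ) ≤ y + z + T ∨ R' = 0) := by
      rcases le_total R ((k * n₁ + i * n₂) / e) with h | h
      · exact ⟨R, 0, by simp, h, Or.inr rfl⟩
      · refine ⟨(k * n₁ + i * n₂) / e, R - (k * n₁ + i * n₂) / e, by omega, le_rfl, ?_⟩
        rcases hR with h3 | h3
        · left
          push_cast [Nat.cast_sub h] at h3 ⊢
          push_cast at hq
          linarith
        · right; rw [h3, Nat.zero_sub]
    obtain ⟨s₁, m₁, c₁⟩ := ih R' hcond
    have hr2 : r * e ≤ k * n₁ + i * n₂ := (Nat.le_div_iff_mul_le he).mp hr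
    obtain ⟨s₂, m₂, c₂⟩ := group_moves (replicate k n₁ + replicate i n₂) (replicate r e)
      (atoms_pos hn1 hn2) (rep_pos he) (by
        intro h0
        have := congrArg card h0
        rw [atoms_card] at this
        simp at this
        omega) (by rw [atoms_sum]; simpa using hr2)
    rw [atoms_card, atoms_sum, card_replicate, sum_replicate, smul_eq_mul] at c₂
    have m := m₁.append m₂
    refine ⟨s₁ + s₂, ?_, ?_⟩
    · have e1 : replicate (y + k) n₁ + replicate (z + i) n₂ =
          replicate y n₁ + replicate z n₂ + (replicate k n₁ + replicate i n₂) := by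
        rw [replicate_add, replicate_add]; abel
      rw [e1, replicate_add]
      exact m
    · have e2 : (R' + r) * e = R' * e + r * e := by ring
      have e3 : (y + k) * n₁ = y * n₁ + k * n₁ := by ring
      have e4 : (z + i) * n₂ = z * n₂ + i * n₂ := by ring
      omega

/-- The copies of `e` weigh at least as much as the atoms. -/
theorem D1 {e n₁ n₂ : ℕ} {K w₁ w₂ : ℤ} (he : 0 < e) (hn1 : 0 < n₁) (hn2 : 0 < n₂)
    (h1 : (n₁ : ℤ) = e - K * w₁) (h2 : (n₂ : ℤ) = e - K * w₂) {G y z : ℕ} {T : ℤ}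
    (d : Dec e K w₁ w₂ G y z T) :
    ∃ R : ℕ, (R : ℤ) = y + z - T ∧
      ∃ s, Moves s (replicate R e) (replicate y n₁ + replicate z n₂) ∧
        s + 2 * G + (y * n₁ + z * n₂) ≤ y + z + R + R * e := by
  induction d with
  | zero => exact ⟨0, by simp, 0, by simpa using Moves.refl 0, by simp⟩
  | @cons G y z T k i t hk ht d ih =>
    have heZ : (0 : ℤ) < e := by exact_mod_cast he
    have hV : 0 < k * n₁ + i * n₂ := by
      rcases Nat.eq_zero_or_pos k with h | h
      · have : 0 < i * n₂ := Nat.mul_pos (by omega) hn2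
        omega
      · have : 0 < k * n₁ := Nat.mul_pos h hn1
        omega
    have hq : ((k * n₁ + i * n₂ : ℕ) : ℤ) ≤ (k + i - t) * e := by
      push_cast
      rw [h1, h2]
      linarith
    have hr0 : 0 < (k : ℤ) + i - t := by
      have h3 : 0 < ((k : ℤ) + i - t) * e := lt_of_lt_of_le (by exact_mod_cast hV) hq
      exact pos_of_mul_pos_left h3 heZ.le
    obtain ⟨r, hr⟩ := Int.eq_ofNat_of_zero_le hr0.le
    rw [hr] at hq hr0
    have hr1 : 0 < r := by exact_mod_cast hr0
    have hr2 : k * n₁ + i * n₂ ≤ r * e := by exact_mod_cast hq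
    obtain ⟨R, hR, s₁, m₁, c₁⟩ := ih
    obtain ⟨s₂, m₂, c₂⟩ := group_moves (replicate r e) (replicate k n₁ + replicate i n₂)
      (rep_pos he) (atoms_pos hn1 hn2) (by
        intro h0
        have := congrArg card h0
        simp at this
        omega) (by rw [atoms_sum]; simpa using hr2)
    rw [atoms_card, atoms_sum, card_replicate, sum_replicate, smul_eq_mul] at c₂
    have m := m₁.append m₂
    refine ⟨R + r, by push_cast; linarith, s₁ + s₂, ?_, ?_⟩
    · have e1 : replicate (y + k) n₁ + replicate (z + i) n₂ =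
          replicate y n₁ + replicate z n₂ + (replicate k n₁ + replicate i n₂) := by
        rw [replicate_add, replicate_add]; abel
      rw [e1, replicate_add]
      exact m
    · have e2 : (R + r) * e = R * e + r * e := by ring
      have e3 : (y + k) * n₁ = y * n₁ + k * n₁ := by ring
      have e4 : (z + i) * n₂ = z * n₂ + i * n₂ := by ring
      omega

/-- All atoms as groups of their own. -/
theorem singles {e K w₁ w₂ : ℤ} (he : 0 < e) (y z : ℕ) :
    Dec e K w₁ w₂ (y + z) y z (y * (K * w₁ / e) + z * (K * w₂ / e)) := by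
  have a1 : K * w₁ / e * e ≤ K * w₁ := Int.ediv_mul_le _ he.ne'
  have a2 : K * w₂ / e * e ≤ K * w₂ := Int.ediv_mul_le _ he.ne'
  have d1 := bal (e := e) (H := K) (w₁ := w₁) (w₂ := w₂) 1 0 0 (K * w₁ / e) 0 0 (by omega) (by
    intro m hm
    have hm0 : m = 0 := by omega
    subst hm0
    push_cast
    linarith) y 0 (by omega)
  have d2 := bal (e := e) (H := K) (w₁ := w₁) (w₂ := w₂) 0 1 0 (K * w₂ / e) 0 0 (by omega) (by
    intro m hm
    have hm0 : m = 0 := by omega
    subst hm0
    push_cast
    linarith) z 0 (by omega)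
  exact (d1.add d2).cast rfl (by ring) (by ring) (by push_cast; ring)

/-- Every entry can be destroyed. -/
theorem kill_each (A : Multiset ℕ) : (∀ n ∈ A, 0 < n) →
    ∃ s, Moves s A 0 ∧ s + card A = A.sum := by
  induction A using Multiset.induction_on with
  | empty => intro _; exact ⟨0, Moves.refl 0, by simp⟩
  | cons n A ih =>
    intro hA
    obtain ⟨s, m, c⟩ := ih (fun k hk => hA k (mem_cons_of_mem hk))
    have hn := hA n (mem_cons_self n A)
    have m2 := (kill hn).append m
    refine ⟨n - 1 + s, ?_, ?_⟩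
    · rw [singleton_add, add_zero] at m2
      exact m2
    · rw [card_cons, sum_cons]
      omega

/-- The lower bound at `j + e q` is not smaller than at `j`. -/
theorem F_mod {e H w₁ w₂ : ℤ} (he : 0 < e) {y z T : ℤ} (hD : e * T ≤ H * (y * w₁ + z * w₂))
    (j q : ℤ) (hq : 0 ≤ q) : F e H w₁ w₂ y z T j ≤ F e H w₁ w₂ y z T (j + e * q) := by
  have e1 : H * w₁ * (j + e * q) / e = H * w₁ * j / e + H * w₁ * q := by
    rw [show H * w₁ * (j + e * q) = H * w₁ * j + e * (H * w₁ * q) by ring,
      Int.add_mul_ediv_left _ _ he.ne']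
  have e2 : H * w₂ * (j + e * q) / e = H * w₂ * j / e + H * w₂ * q := by
    rw [show H * w₂ * (j + e * q) = H * w₂ * j + e * (H * w₂ * q) by ring,
      Int.add_mul_ediv_left _ _ he.ne']
  unfold F
  rw [e1, e2]
  have h3 : 0 ≤ (H * (y * w₁ + z * w₂) - e * T) * q := mul_nonneg (by linarith) hq
  linarith

end Pool.Agent.H93.TS
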