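import Pool.Agent.H93.TS.Fin

/-!
# `x T(2,a) # y T(2,b) # z T(2,c)` with `a`, `b`, `c` in arithmetic progression

Let `a < b < c` be odd numbers with `a + c = 2 b` and `x`, `y`, `z` integers. The theorem contains
the two facts which give `g_r(K) = g_4(K)` for the knot `K = x T(2,a) # y T(2,b) # z T(2,c)`, where
a negative number of copies means copies of the mirror image: see `HasGenus` in
`Pool.Agent.H93.TS.Defs`.
-/

set_option autoImplicit false

namespace Pool.Agent.H93.TS.Three

open Multiset Pool.Agent.H93.TS

variable {a b c : ℕ}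

/-- The smallest alone. -/
theorem alone_a (ha : Odd a) (hb : Odd b) (hc : Odd c) (habc : a + c = 2 * b) (x y z : ℕ) :
    HasGenus (replicate y b + replicate z c) (replicate x a) := by
  have heZ : (0 : ℤ) < a := by exact_mod_cast ha.pos
  exact genus_main (H := (b : ℤ) - a) (w₁ := 1) (w₂ := 2) ha hb hc (by ring)
    (by omega) y z x
    fun K _ T h1 h2 => core12 heZ h1 h2

/-- The largest alone. -/
theorem alone_c (ha : Odd a) (hb : Odd b) (hc : Odd c) (habc : a + c = 2 * b) (x y z : ℕ) :
    HasGenus (replicate y b + replicate x a) (replicate z c) := by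
  have heZ : (0 : ℤ) < c := by exact_mod_cast hc.pos
  exact genus_main (H := (b : ℤ) - c) (w₁ := 1) (w₂ := 2) hc hb ha (by ring)
    (by omega) y x z
    fun K _ T h1 h2 => core12 heZ h1 h2

/-- The middle one alone. -/
theorem alone_b (ha : Odd a) (hb : Odd b) (hc : Odd c) (hab : a < b) (habc : a + c = 2 * b)
    (x y z : ℕ) : HasGenus (replicate x a + replicate z c) (replicate y b) := by
  have heZ : (0 : ℤ) < b := by exact_mod_cast hb.pos
  have ha0 := ha.pos
  rcases le_total x z with h | h
  · refine genus_main (H := (b : ℤ) - a) (w₁ := -1) (w₂ := 1) hb ha hc (by ring)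
      (by omega) x z y fun K hK T h1 h2 => ?_
    refine coreM heZ ?_ ?_ ?_ h h1 h2 <;> rcases hK with h3 | h3 <;> omega
  · have h4 : HasGenus (replicate z c + replicate x a) (replicate y b) := by
      refine genus_main (H := (b : ℤ) - c) (w₁ := -1) (w₂ := 1) hb hc ha (by ring)
        (by omega) z x y fun K hK T h1 h2 => ?_
      refine coreM heZ ?_ ?_ ?_ h h1 h2 <;> rcases hK with h3 | h3 <;> omega
    rwa [add_comm] at h4

/-- **Theorem.** Let `a < b < c` be odd numbers in arithmetic progression, and let `x`, `y`, `z` be
integers. For some `g`, at most `2 g` splittings and mergings lead from the positive to the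
negative summands of `K = x T(2,a) # y T(2,b) # z T(2,c)`, and the Tristram-Levine signature
function of `K` is equal to `± 2 g` on a nonempty open interval: `g_r(K) = g_4(K) = g`. -/
theorem result (a b c : ℕ) (ha : Odd a) (hb : Odd b) (hc : Odd c) (hab : a < b) (_hbc : b < c)
    (habc : a + c = 2 * b) (x y z : ℤ) :
    HasGenus (sums a b c x y z) (sums a b c (-x) (-y) (-z)) := by
  have hneg : ∀ n : ℕ, (-(n : ℤ)).toNat = 0 := fun n => by omega
  have hpos : ∀ n : ℕ, ((n : ℤ)).toNat = n := fun n => by omega
  have hall : ∀ x y z : ℕ, HasGenus (replicate x a + replicate y b + replicate z c) 0 := by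
    intro x y z
    apply genus_pos
    intro n hn
    rcases Multiset.mem_add.mp hn with h | h
    · rcases Multiset.mem_add.mp h with h | h
      · rw [Multiset.eq_of_mem_replicate h]; exact ha
      · rw [Multiset.eq_of_mem_replicate h]; exact hb
    · rw [Multiset.eq_of_mem_replicate h]; exact hc
  have hA := fun x y z : ℕ => alone_a ha hb hc habc x y z
  have hB := fun x y z : ℕ => alone_b ha hb hc hab habc x y z
  have hC : ∀ x y z : ℕ, HasGenus (replicate x a + replicate y b) (replicate z c) := by
    intro x y z
    have := alone_c ha hb hc habc x y z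
    rwa [add_comm] at this
  obtain ⟨x, rfl | rfl⟩ := x.eq_nat_or_neg <;> obtain ⟨y, rfl | rfl⟩ := y.eq_nat_or_neg <;>
    obtain ⟨z, rfl | rfl⟩ := z.eq_nat_or_neg <;>
    simp only [sums, neg_neg, hneg, hpos, replicate_zero, add_zero, zero_add]
  · exact hall x y z
  · exact hC x y z
  · exact hB x y z
  · exact (hA x y z).symm
  · exact hA x y z
  · exact (hB x y z).symm
  · exact (hC x y z).symm
  · exact (hall x y z).symm

end Pool.Agent.H93.TS.Three
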