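import Mathlib

/-!
# Partitions of zero-sum sequences over `ℤ/3`, `ℤ/5`, `ℤ/7` into zero-sum sequences

The largest number of zero-sum parts of a zero-sum sequence `X` over `ℤ/p`, `p = 3, 5, 7`, is the
smallest of the numbers `∑ (1 - {x j / p})`, `j ≠ 0`. (All minimal zero-sum sequences over these
groups have index one.)
-/

set_option autoImplicit false

namespace Pool.Agent.H93.TS

open Multiset

/-- `X` is the sum of `G` nonempty multisets with the property `P`. -/
inductive Parts {α : Type*} (P : Multiset α → Prop) : ℕ → Multiset α → Prop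
  | zero : Parts P 0 0
  | cons {G : ℕ} {X : Multiset α} (g : Multiset α) (h0 : g ≠ 0) (hg : P g)
      (h : Parts P G X) : Parts P (G + 1) (X + g)

/-- There is a partition of `X` into at least `∑ (1 - {x j / p})` zero-sum parts. -/
def Good (p : ℕ) (j : ZMod p) (X : Multiset (ZMod p)) : Prop :=
  ∃ G : ℕ, Parts (fun g => g.sum = 0) G X ∧ (X.map fun w => p - (w * j).val).sum ≤ p * G

theorem Good.zero {p : ℕ} {j : ZMod p} : Good p j 0 := ⟨0, Parts.zero, by simp⟩

theorem Good.add {p : ℕ} {j : ZMod p} {X : Multiset (ZMod p)} (h : Good p j X)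
    (g : Multiset (ZMod p)) (h0 : g ≠ 0) (hs : g.sum = 0)
    (hw : (g.map fun w => p - (w * j).val).sum ≤ p) : Good p j (X + g) := by
  obtain ⟨G, hP, hG⟩ := h
  refine ⟨G + 1, hP.cons g h0 hs, ?_⟩
  rw [map_add, sum_add]
  have : p * (G + 1) = p * G + p := by ring
  omega

theorem Good.addn {p : ℕ} {j : ZMod p} {X : Multiset (ZMod p)} (h : Good p j X)
    (g : Multiset (ZMod p)) (h0 : g ≠ 0) (hs : g.sum = 0)
    (hw : (g.map fun w => p - (w * j).val).sum ≤ p) (n : ℕ) : Good p j (X + n • g) := by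
  induction n with
  | zero => simpa using h
  | succ n ih =>
    rw [succ_nsmul, ← add_assoc]
    exact ih.add g h0 hs hw

/-- `a` copies of `x`, `b` of `y`, `c` of `z`. -/
def C3 {p : ℕ} (x y z : ZMod p) (a b c : ℕ) : Multiset (ZMod p) :=
  replicate a x + replicate b y + replicate c z

theorem step3 {p : ℕ} {j x y z : ZMod p} {a b c : ℕ} (s t r : ℕ)
    (h : Good p j (C3 x y z a b c)) (h0 : 0 < s + t + r)
    (hs : (s : ZMod p) * x + t * y + r * z = 0)
    (hw : s * (p - (x * j).val) + t * (p - (y * j).val) + r * (p - (z * j).val) ≤ p) :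
    Good p j (C3 x y z (a + s) (b + t) (c + r)) := by
  have e : C3 x y z (a + s) (b + t) (c + r) = C3 x y z a b c + C3 x y z s t r := by
    unfold C3
    rw [replicate_add, replicate_add, replicate_add]
    abel
  rw [e]
  refine h.add _ ?_ ?_ ?_
  · intro h2
    have := congrArg card h2
    simp only [C3, card_add, card_replicate, card_zero] at this
    omega
  · simp only [C3, sum_add, sum_replicate, nsmul_eq_mul]
    exact hs
  · simp only [C3, map_add, sum_add, map_replicate, sum_replicate, smul_eq_mul]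
    exact hw

theorem stepU {p : ℕ} [Fact p.Prime] {u : ZMod p} (hu : u ≠ 0) {k i₁ i₂ i₃ : ZMod p}
    {a b c : ℕ} (s t r : ℕ)
    (h : Good p (-(k * u⁻¹)) (C3 (i₁ * u) (i₂ * u) (i₃ * u) a b c)) (h0 : 0 < s + t + r)
    (hs : (s : ZMod p) * i₁ + t * i₂ + r * i₃ = 0)
    (hw : s * (p - (-(k * i₁)).val) + t * (p - (-(k * i₂)).val) + r * (p - (-(k * i₃)).val) ≤ p) :
    Good p (-(k * u⁻¹)) (C3 (i₁ * u) (i₂ * u) (i₃ * u) (a + s) (b + t) (c + r)) := by
  have hm : ∀ i : ZMod p, i * u * -(k * u⁻¹) = -(k * i) := by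
    intro i
    have := mul_inv_cancel₀ hu
    linear_combination (-(i * k)) * this
  refine step3 s t r h h0 ?_ ?_
  · linear_combination u * hs
  · rw [hm, hm, hm]
    exact hw

/-! ### Regions -/

theorem regA (P : ℕ → ℕ → Prop) (h0 : P 0 0) (h13 : ∀ a b, P a b → P (a + 1) (b + 3))
    (h70 : ∀ a b, P a b → P (a + 7) b) (h51 : ∀ a b, P a b → P (a + 5) (b + 1))
    (h32 : ∀ a b, P a b → P (a + 3) (b + 2)) :
    ∀ n a b, a + b ≤ n → 7 ∣ a + 2 * b → b ≤ 3 * a → P a b := by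
  intro n
  induction n with
  | zero =>
    intro a b h _ _
    obtain ⟨rfl, rfl⟩ : a = 0 ∧ b = 0 := by omega
    exact h0
  | succ n ih =>
    intro a b hn hd hb
    rcases (show 3 ≤ b ∨ b = 0 ∨ b = 1 ∨ b = 2 by omega) with h | h | h | h
    · obtain ⟨a', rfl⟩ : ∃ a', a = a' + 1 := ⟨a - 1, by omega⟩
      obtain ⟨b', rfl⟩ : ∃ b', b = b' + 3 := ⟨b - 3, by omega⟩
      exact h13 _ _ (ih _ _ (by omega) (by omega) (by omega))
    · subst h
      rcases Nat.eq_zero_or_pos a with h | h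
      · subst h; exact h0
      · obtain ⟨a', rfl⟩ : ∃ a', a = a' + 7 := ⟨a - 7, by omega⟩
        exact h70 _ _ (ih _ _ (by omega) (by omega) (by omega))
    · subst h
      obtain ⟨a', rfl⟩ : ∃ a', a = a' + 5 := ⟨a - 5, by omega⟩
      exact h51 _ _ (ih _ _ (by omega) (by omega) (by omega))
    · subst h
      obtain ⟨a', rfl⟩ : ∃ a', a = a' + 3 := ⟨a - 3, by omega⟩
      exact h32 _ _ (ih _ _ (by omega) (by omega) (by omega))

theorem regB (P : ℕ → ℕ → Prop) (h0 : P 0 0) (h13 : ∀ a b, P a b → P (a + 1) (b + 3))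
    (h07 : ∀ a b, P a b → P a (b + 7)) :
    ∀ n a b, a + b ≤ n → 7 ∣ a + 2 * b → 3 * a ≤ b → P a b := by
  intro n
  induction n with
  | zero =>
    intro a b h _ _
    obtain ⟨rfl, rfl⟩ : a = 0 ∧ b = 0 := by omega
    exact h0
  | succ n ih =>
    intro a b hn hd hb
    rcases (show 1 ≤ a ∨ (a = 0 ∧ b = 0) ∨ (a = 0 ∧ 0 < b) by omega) with h | h | h
    · obtain ⟨a', rfl⟩ : ∃ a', a = a' + 1 := ⟨a - 1, by omega⟩
      obtain ⟨b', rfl⟩ : ∃ b', b = b' + 3 := ⟨b - 3, by omega⟩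
      exact h13 _ _ (ih _ _ (by omega) (by omega) (by omega))
    · obtain ⟨rfl, rfl⟩ := h
      exact h0
    · obtain ⟨rfl, h⟩ := h
      obtain ⟨b', rfl⟩ : ∃ b', b = b' + 7 := ⟨b - 7, by omega⟩
      exact h07 _ _ (ih _ _ (by omega) (by omega) (by omega))

theorem regC (P : ℕ → ℕ → Prop) (h0 : P 0 0) (h12 : ∀ a c, P a c → P (a + 1) (c + 2))
    (h70 : ∀ a c, P a c → P (a + 7) c) (h41 : ∀ a c, P a c → P (a + 4) (c + 1)) :
    ∀ n a c, a + c ≤ n → 7 ∣ a + 3 * c → c ≤ 2 * a → P a c := by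
  intro n
  induction n with
  | zero =>
    intro a b h _ _
    obtain ⟨rfl, rfl⟩ : a = 0 ∧ b = 0 := by omega
    exact h0
  | succ n ih =>
    intro a b hn hd hb
    rcases (show 2 ≤ b ∨ b = 0 ∨ b = 1 by omega) with h | h | h
    · obtain ⟨a', rfl⟩ : ∃ a', a = a' + 1 := ⟨a - 1, by omega⟩
      obtain ⟨b', rfl⟩ : ∃ b', b = b' + 2 := ⟨b - 2, by omega⟩
      exact h12 _ _ (ih _ _ (by omega) (by omega) (by omega))
    · subst h
      rcases Nat.eq_zero_or_pos a with h | h
      · subst h; exact h0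
      · obtain ⟨a', rfl⟩ : ∃ a', a = a' + 7 := ⟨a - 7, by omega⟩
        exact h70 _ _ (ih _ _ (by omega) (by omega) (by omega))
    · subst h
      obtain ⟨a', rfl⟩ : ∃ a', a = a' + 4 := ⟨a - 4, by omega⟩
      exact h41 _ _ (ih _ _ (by omega) (by omega) (by omega))

theorem regD (P : ℕ → ℕ → Prop) (h0 : P 0 0) (h12 : ∀ a c, P a c → P (a + 1) (c + 2))
    (h07 : ∀ a c, P a c → P a (c + 7)) :
    ∀ n a c, a + c ≤ n → 7 ∣ a + 3 * c → 2 * a ≤ c → P a c := by
  intro n
  induction n with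
  | zero =>
    intro a b h _ _
    obtain ⟨rfl, rfl⟩ : a = 0 ∧ b = 0 := by omega
    exact h0
  | succ n ih =>
    intro a b hn hd hb
    rcases (show 1 ≤ a ∨ (a = 0 ∧ b = 0) ∨ (a = 0 ∧ 0 < b) by omega) with h | h | h
    · obtain ⟨a', rfl⟩ : ∃ a', a = a' + 1 := ⟨a - 1, by omega⟩
      obtain ⟨b', rfl⟩ : ∃ b', b = b' + 2 := ⟨b - 2, by omega⟩
      exact h12 _ _ (ih _ _ (by omega) (by omega) (by omega))
    · obtain ⟨rfl, rfl⟩ := h
      exact h0
    · obtain ⟨rfl, h⟩ := h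
      obtain ⟨b', rfl⟩ : ∃ b', b = b' + 7 := ⟨b - 7, by omega⟩
      exact h07 _ _ (ih _ _ (by omega) (by omega) (by omega))

theorem regE (P : ℕ → ℕ → Prop) (h0 : P 0 0) (h12 : ∀ a b, P a b → P (a + 1) (b + 2))
    (h50 : ∀ a b, P a b → P (a + 5) b) (h31 : ∀ a b, P a b → P (a + 3) (b + 1)) :
    ∀ n a b, a + b ≤ n → 5 ∣ a + 2 * b → b ≤ 2 * a → P a b := by
  intro n
  induction n with
  | zero =>
    intro a b h _ _
    obtain ⟨rfl, rfl⟩ : a = 0 ∧ b = 0 := by omega
    exact h0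
  | succ n ih =>
    intro a b hn hd hb
    rcases (show 2 ≤ b ∨ b = 0 ∨ b = 1 by omega) with h | h | h
    · obtain ⟨a', rfl⟩ : ∃ a', a = a' + 1 := ⟨a - 1, by omega⟩
      obtain ⟨b', rfl⟩ : ∃ b', b = b' + 2 := ⟨b - 2, by omega⟩
      exact h12 _ _ (ih _ _ (by omega) (by omega) (by omega))
    · subst h
      rcases Nat.eq_zero_or_pos a with h | h
      · subst h; exact h0
      · obtain ⟨a', rfl⟩ : ∃ a', a = a' + 5 := ⟨a - 5, by omega⟩
        exact h50 _ _ (ih _ _ (by omega) (by omega) (by omega))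
    · subst h
      obtain ⟨a', rfl⟩ : ∃ a', a = a' + 3 := ⟨a - 3, by omega⟩
      exact h31 _ _ (ih _ _ (by omega) (by omega) (by omega))

theorem regF (P : ℕ → ℕ → Prop) (h0 : P 0 0) (h12 : ∀ a b, P a b → P (a + 1) (b + 2))
    (h05 : ∀ a b, P a b → P a (b + 5)) :
    ∀ n a b, a + b ≤ n → 5 ∣ a + 2 * b → 2 * a ≤ b → P a b := by
  intro n
  induction n with
  | zero =>
    intro a b h _ _
    obtain ⟨rfl, rfl⟩ : a = 0 ∧ b = 0 := by omega
    exact h0
  | succ n ih =>
    intro a b hn hd hb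
    rcases (show 1 ≤ a ∨ (a = 0 ∧ b = 0) ∨ (a = 0 ∧ 0 < b) by omega) with h | h | h
    · obtain ⟨a', rfl⟩ : ∃ a', a = a' + 1 := ⟨a - 1, by omega⟩
      obtain ⟨b', rfl⟩ : ∃ b', b = b' + 2 := ⟨b - 2, by omega⟩
      exact h12 _ _ (ih _ _ (by omega) (by omega) (by omega))
    · obtain ⟨rfl, rfl⟩ := h
      exact h0
    · obtain ⟨rfl, h⟩ := h
      obtain ⟨b', rfl⟩ : ∃ b', b = b' + 5 := ⟨b - 5, by omega⟩
      exact h05 _ _ (ih _ _ (by omega) (by omega) (by omega))

/-! ### The two types for `p = 7` -/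

instance fact_seven : Fact (Nat.Prime 7) := ⟨by norm_num⟩
instance fact_five : Fact (Nat.Prime 5) := ⟨by norm_num⟩
instance fact_three : Fact (Nat.Prime 3) := ⟨by norm_num⟩

theorem C3_zero {p : ℕ} {x y z : ZMod p} {j : ZMod p} : Good p j (C3 x y z 0 0 0) := by
  simpa [C3] using Good.zero

/-- The classes `u`, `2 u`, `4 u`. -/
theorem typeA {u : ZMod 7} (hu : u ≠ 0) : ∀ n a b c : ℕ, a + b + c ≤ n → 7 ∣ a + 2 * b + 4 * c →
    ∃ k : ZMod 7, (k = 1 ∨ k = 2 ∨ k = 4) ∧
      Good 7 (-(k * u⁻¹)) (C3 (1 * u) (2 * u) (4 * u) a b c) := by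
  intro n
  induction n with
  | zero =>
    intro a b c h _
    obtain ⟨rfl, rfl, rfl⟩ : a = 0 ∧ b = 0 ∧ c = 0 := by omega
    exact ⟨1, Or.inl rfl, C3_zero⟩
  | succ n ih =>
    intro a b c hn hd
    rcases (show (1 ≤ a ∧ 1 ≤ b ∧ 1 ≤ c) ∨ c = 0 ∨ a = 0 ∨ b = 0 by omega) with h | h | h | h
    · obtain ⟨a', rfl⟩ : ∃ a', a = a' + 1 := ⟨a - 1, by omega⟩
      obtain ⟨b', rfl⟩ : ∃ b', b = b' + 1 := ⟨b - 1, by omega⟩
      obtain ⟨c', rfl⟩ : ∃ c', c = c' + 1 := ⟨c - 1, by omega⟩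
      obtain ⟨k, hk, hg⟩ := ih a' b' c' (by omega) (by omega)
      refine ⟨k, hk, stepU hu 1 1 1 hg (by omega) (by decide) ?_⟩
      rcases hk with rfl | rfl | rfl <;> decide
    · subst h
      rcases le_total b (3 * a) with h | h
      · refine ⟨1, Or.inl rfl, regA (fun a b => Good 7 (-(1 * u⁻¹))
          (C3 (1 * u) (2 * u) (4 * u) a b 0)) C3_zero ?_ ?_ ?_ ?_ (a + b) a b le_rfl (by omega) h⟩
        · exact fun a b hg => stepU hu 1 3 0 hg (by omega) (by decide) (by decide)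
        · exact fun a b hg => stepU hu 7 0 0 hg (by omega) (by decide) (by decide)
        · exact fun a b hg => stepU hu 5 1 0 hg (by omega) (by decide) (by decide)
        · exact fun a b hg => stepU hu 3 2 0 hg (by omega) (by decide) (by decide)
      · refine ⟨4, Or.inr (Or.inr rfl), regB (fun a b => Good 7 (-(4 * u⁻¹))
          (C3 (1 * u) (2 * u) (4 * u) a b 0)) C3_zero ?_ ?_ (a + b) a b le_rfl (by omega) h⟩
        · exact fun a b hg => stepU hu 1 3 0 hg (by omega) (by decide) (by decide)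
        · exact fun a b hg => stepU hu 0 7 0 hg (by omega) (by decide) (by decide)
    · subst h
      rcases le_total c (3 * b) with h | h
      · refine ⟨4, Or.inr (Or.inr rfl), regA (fun b c => Good 7 (-(4 * u⁻¹))
          (C3 (1 * u) (2 * u) (4 * u) 0 b c)) C3_zero ?_ ?_ ?_ ?_ (b + c) b c le_rfl (by omega) h⟩
        · exact fun a b hg => stepU hu 0 1 3 hg (by omega) (by decide) (by decide)
        · exact fun a b hg => stepU hu 0 7 0 hg (by omega) (by decide) (by decide)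
        · exact fun a b hg => stepU hu 0 5 1 hg (by omega) (by decide) (by decide)
        · exact fun a b hg => stepU hu 0 3 2 hg (by omega) (by decide) (by decide)
      · refine ⟨2, Or.inr (Or.inl rfl), regB (fun b c => Good 7 (-(2 * u⁻¹))
          (C3 (1 * u) (2 * u) (4 * u) 0 b c)) C3_zero ?_ ?_ (b + c) b c le_rfl (by omega) h⟩
        · exact fun a b hg => stepU hu 0 1 3 hg (by omega) (by decide) (by decide)
        · exact fun a b hg => stepU hu 0 0 7 hg (by omega) (by decide) (by decide)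
    · subst h
      rcases le_total a (3 * c) with h | h
      · refine ⟨2, Or.inr (Or.inl rfl), regA (fun c a => Good 7 (-(2 * u⁻¹))
          (C3 (1 * u) (2 * u) (4 * u) a 0 c)) C3_zero ?_ ?_ ?_ ?_ (c + a) c a le_rfl (by omega) h⟩
        · exact fun a b hg => stepU hu 3 0 1 hg (by omega) (by decide) (by decide)
        · exact fun a b hg => stepU hu 0 0 7 hg (by omega) (by decide) (by decide)
        · exact fun a b hg => stepU hu 1 0 5 hg (by omega) (by decide) (by decide)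
        · exact fun a b hg => stepU hu 2 0 3 hg (by omega) (by decide) (by decide)
      · refine ⟨1, Or.inl rfl, regB (fun c a => Good 7 (-(1 * u⁻¹))
          (C3 (1 * u) (2 * u) (4 * u) a 0 c)) C3_zero ?_ ?_ (c + a) c a le_rfl (by omega) h⟩
        · exact fun a b hg => stepU hu 3 0 1 hg (by omega) (by decide) (by decide)
        · exact fun a b hg => stepU hu 7 0 0 hg (by omega) (by decide) (by decide)

/-- The classes `u`, `2 u`, `3 u`. -/
theorem typeB {u : ZMod 7} (hu : u ≠ 0) : ∀ n a b c : ℕ, a + b + c ≤ n → 7 ∣ a + 2 * b + 3 * c →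
    ∃ k : ZMod 7, (k = 1 ∨ k = 4 ∨ k = 5) ∧
      Good 7 (-(k * u⁻¹)) (C3 (1 * u) (2 * u) (3 * u) a b c) := by
  have hC : ∀ a c : ℕ, 7 ∣ a + 3 * c → c ≤ 2 * a →
      Good 7 (-(1 * u⁻¹)) (C3 (1 * u) (2 * u) (3 * u) a 0 c) := by
    intro a c hd h
    refine regC (fun a c => Good 7 (-(1 * u⁻¹)) (C3 (1 * u) (2 * u) (3 * u) a 0 c))
      C3_zero ?_ ?_ ?_ (a + c) a c le_rfl hd h
    · exact fun a b hg => stepU hu 1 0 2 hg (by omega) (by decide) (by decide)
    · exact fun a b hg => stepU hu 7 0 0 hg (by omega) (by decide) (by decide)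
    · exact fun a b hg => stepU hu 4 0 1 hg (by omega) (by decide) (by decide)
  have hD : ∀ a c : ℕ, 7 ∣ a + 3 * c → 2 * a ≤ c →
      Good 7 (-(5 * u⁻¹)) (C3 (1 * u) (2 * u) (3 * u) a 0 c) := by
    intro a c hd h
    refine regD (fun a c => Good 7 (-(5 * u⁻¹)) (C3 (1 * u) (2 * u) (3 * u) a 0 c))
      C3_zero ?_ ?_ (a + c) a c le_rfl hd h
    · exact fun a b hg => stepU hu 1 0 2 hg (by omega) (by decide) (by decide)
    · exact fun a b hg => stepU hu 0 0 7 hg (by omega) (by decide) (by decide)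
  intro n
  induction n with
  | zero =>
    intro a b c h _
    obtain ⟨rfl, rfl, rfl⟩ : a = 0 ∧ b = 0 ∧ c = 0 := by omega
    exact ⟨1, Or.inl rfl, C3_zero⟩
  | succ n ih =>
    intro a b c hn hd
    rcases (show (2 ≤ b ∧ 1 ≤ c) ∨ c = 0 ∨ b = 0 ∨ b = 1 by omega) with h | h | h | h
    · obtain ⟨b', rfl⟩ : ∃ b', b = b' + 2 := ⟨b - 2, by omega⟩
      obtain ⟨c', rfl⟩ : ∃ c', c = c' + 1 := ⟨c - 1, by omega⟩
      obtain ⟨k, hk, hg⟩ := ih a b' c' (by omega) (by omega)
      refine ⟨k, hk, stepU hu 0 2 1 hg (by omega) (by decide) ?_⟩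
      rcases hk with rfl | rfl | rfl <;> decide
    · subst h
      rcases le_total b (3 * a) with h | h
      · refine ⟨1, Or.inl rfl, regA (fun a b => Good 7 (-(1 * u⁻¹))
          (C3 (1 * u) (2 * u) (3 * u) a b 0)) C3_zero ?_ ?_ ?_ ?_ (a + b) a b le_rfl (by omega) h⟩
        · exact fun a b hg => stepU hu 1 3 0 hg (by omega) (by decide) (by decide)
        · exact fun a b hg => stepU hu 7 0 0 hg (by omega) (by decide) (by decide)
        · exact fun a b hg => stepU hu 5 1 0 hg (by omega) (by decide) (by decide)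
        · exact fun a b hg => stepU hu 3 2 0 hg (by omega) (by decide) (by decide)
      · refine ⟨4, Or.inr (Or.inl rfl), regB (fun a b => Good 7 (-(4 * u⁻¹))
          (C3 (1 * u) (2 * u) (3 * u) a b 0)) C3_zero ?_ ?_ (a + b) a b le_rfl (by omega) h⟩
        · exact fun a b hg => stepU hu 1 3 0 hg (by omega) (by decide) (by decide)
        · exact fun a b hg => stepU hu 0 7 0 hg (by omega) (by decide) (by decide)
    · subst h
      rcases le_total c (2 * a) with h | h
      · exact ⟨1, Or.inl rfl, hC a c (by omega) h⟩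
      · exact ⟨5, Or.inr (Or.inr rfl), hD a c (by omega) h⟩
    · subst h
      rcases le_total c (2 * a) with h | h
      · rcases Nat.eq_zero_or_pos c with hc | hc
        · subst hc
          obtain ⟨a', rfl⟩ : ∃ a', a = a' + 5 := ⟨a - 5, by omega⟩
          exact ⟨1, Or.inl rfl, stepU hu 5 1 0 (hC a' 0 (by omega) (by omega)) (by omega)
            (by decide) (by decide)⟩
        · obtain ⟨a', rfl⟩ : ∃ a', a = a' + 2 := ⟨a - 2, by omega⟩
          obtain ⟨c', rfl⟩ : ∃ c', c = c' + 1 := ⟨c - 1, by omega⟩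
          exact ⟨1, Or.inl rfl, stepU hu 2 1 1 (hC a' c' (by omega) (by omega)) (by omega)
            (by decide) (by decide)⟩
      · obtain ⟨c', rfl⟩ : ∃ c', c = c' + 4 := ⟨c - 4, by omega⟩
        exact ⟨5, Or.inr (Or.inr rfl), stepU hu 0 1 4 (hD a c' (by omega) (by omega)) (by omega)
          (by decide) (by decide)⟩

/-- The classes `u`, `2 u` for `p = 5`. -/
theorem typeF {u : ZMod 5} (hu : u ≠ 0) (a b c : ℕ) (hc : c = 0) (hd : 5 ∣ a + 2 * b) :
    ∃ k : ZMod 5, (k = 1 ∨ k = 3) ∧ Good 5 (-(k * u⁻¹)) (C3 (1 * u) (2 * u) (0 * u) a b c) := by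
  subst hc
  rcases le_total b (2 * a) with h | h
  · refine ⟨1, Or.inl rfl, regE (fun a b => Good 5 (-(1 * u⁻¹))
      (C3 (1 * u) (2 * u) (0 * u) a b 0)) C3_zero ?_ ?_ ?_ (a + b) a b le_rfl hd h⟩
    · exact fun a b hg => stepU hu 1 2 0 hg (by omega) (by decide) (by decide)
    · exact fun a b hg => stepU hu 5 0 0 hg (by omega) (by decide) (by decide)
    · exact fun a b hg => stepU hu 3 1 0 hg (by omega) (by decide) (by decide)
  · refine ⟨3, Or.inr rfl, regF (fun a b => Good 5 (-(3 * u⁻¹))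
      (C3 (1 * u) (2 * u) (0 * u) a b 0)) C3_zero ?_ ?_ (a + b) a b le_rfl hd h⟩
    · exact fun a b hg => stepU hu 1 2 0 hg (by omega) (by decide) (by decide)
    · exact fun a b hg => stepU hu 0 5 0 hg (by omega) (by decide) (by decide)

end Pool.Agent.H93.TS
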