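import Pool.Agent.H93.TS.Cap
import Pool.Agent.H93.TS.Fin

/-!
# Zero-sum partitions over `ℤ/e` with few different residues
-/

set_option autoImplicit false

namespace Pool.Agent.H93.TS

open Multiset

/-- `y` copies of `u`, `z` copies of `v` and `D` copies of `-1`. -/
def A3 (e : ℕ) (u v : ℤ) (y z D : ℕ) : Multiset (ZMod e) :=
  replicate y (u : ZMod e) + replicate z (v : ZMod e) + replicate D (-1)

theorem Dec.parts {e : ℕ} {H w₁ w₂ : ℤ} {G y z : ℕ} {T : ℤ} (h : Dec e H w₁ w₂ G y z T) :
    ∃ D : ℕ, e * T + D = H * (y * w₁ + z * w₂) ∧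
      Parts (fun g : Multiset (ZMod e) => g.sum = 0) G (A3 e (H * w₁) (H * w₂) y z D) := by
  induction h with
  | zero => exact ⟨0, by simp, by simpa [A3] using Parts.zero⟩
  | @cons G y z T k i t h1 h2 h ih =>
    obtain ⟨D, hD, hP⟩ := ih
    obtain ⟨d, hd⟩ := Int.eq_ofNat_of_zero_le (sub_nonneg.mpr h2)
    refine ⟨D + d, ?_, ?_⟩
    · push_cast
      linear_combination hD - hd
    · have h3 := hP.cons (A3 e (H * w₁) (H * w₂) k i d) ?_ ?_
      · have e1 : A3 e (H * w₁) (H * w₂) y z D + A3 e (H * w₁) (H * w₂) k i d =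
            A3 e (H * w₁) (H * w₂) (y + k) (z + i) (D + d) := by
          unfold A3
          rw [replicate_add, replicate_add, replicate_add]
          abel
        rwa [e1] at h3
      · intro h0
        have := congrArg card h0
        simp only [A3, card_add, card_replicate, card_zero] at this
        omega
      · have hd' : H * (k * w₁ + i * w₂) - d = e * t := by linarith
        have h4 : (((H * (k * w₁ + i * w₂) - d : ℤ)) : ZMod e) = 0 := by
          rw [hd']
          push_cast
          simp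
        simp only [A3, sum_add, sum_replicate, nsmul_eq_mul]
        push_cast at h4 ⊢
        linear_combination h4

theorem dec_good {e : ℕ} (he : 1 < e) {H w₁ w₂ : ℤ} {G y z D j : ℕ} {T : ℤ}
    (hD : e * T + D = H * (y * w₁ + z * w₂)) (h : Dec e H w₁ w₂ G y z T) (hj : 1 ≤ j) (hje : j < e)
    (hF : F e H w₁ w₂ y z T j ≤ G) :
    (j : ZMod e) ≠ 0 ∧ Good e (j : ZMod e) (A3 e (H * w₁) (H * w₂) y z D) := by
  have : NeZero e := ⟨by omega⟩
  have heZ : (0 : ℤ) < e := by exact_mod_cast (by omega : 0 < e)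
  obtain ⟨D', hD', hP⟩ := h.parts
  have hDD : D' = D := by
    have := hD.trans hD'.symm
    omega
  subst hDD
  refine ⟨?_, G, hP, ?_⟩
  · intro h0
    rw [ZMod.natCast_eq_zero_iff] at h0
    exact absurd (Nat.le_of_dvd hj h0) (by omega)
  · have hv : ∀ x : ℤ, ((e - ((x : ZMod e) * (j : ZMod e)).val : ℕ) : ℤ) =
        e * (1 + x * j / e) - x * j := by
      intro x
      have h1 : (x : ZMod e) * (j : ZMod e) = ((x * j : ℤ) : ZMod e) := by push_cast; rfl
      have h2 := ZMod.val_lt ((x : ZMod e) * (j : ZMod e))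
      rw [Nat.cast_sub h2.le, h1, ZMod.val_intCast]
      have := Int.emod_add_mul_ediv (x * j) e
      linarith
    have hv1 : ((e - ((-1 : ZMod e) * (j : ZMod e)).val : ℕ) : ℤ) = j := by
      have h1 := hv (-1)
      have h2 : (-1 * (j : ℤ)) / e = -1 := by
        apply floor_eq heZ
        · have : (j : ℤ) < e := by exact_mod_cast hje
          linarith
        · have : (1 : ℤ) ≤ j := by exact_mod_cast hj
          linarith
      rw [h2] at h1
      push_cast at h1
      rw [h1]
      ring
    have key : ((((A3 e (H * w₁) (H * w₂) y z D').map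
        fun w : ZMod e => e - (w * (j : ZMod e)).val).sum : ℕ) : ℤ) =
        e * F e H w₁ w₂ y z T j := by
      unfold A3
      rw [Multiset.map_add, Multiset.map_add, sum_add, sum_add, map_replicate, map_replicate,
        map_replicate, sum_replicate, sum_replicate, sum_replicate, smul_eq_mul, smul_eq_mul,
        smul_eq_mul, Nat.cast_add, Nat.cast_add, Nat.cast_mul, Nat.cast_mul, Nat.cast_mul, hv, hv,
        hv1]
      unfold F
      linear_combination (j : ℤ) * hD
    have h5 : e * F e H w₁ w₂ y z T j ≤ e * (G : ℤ) := mul_le_mul_of_nonneg_left hF heZ.le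
    rw [← key] at h5
    exact_mod_cast h5

theorem good_of_core {e : ℕ} (he : 1 < e) {H w₁ w₂ : ℤ} {y z D : ℕ}
    (hdvd : (e : ℤ) ∣ H * (y * w₁ + z * w₂) - D)
    (core : ∀ T : ℤ, (y : ℤ) * (H * w₁ / e) + z * (H * w₂ / e) < T →
      e * T ≤ H * (y * w₁ + z * w₂) →
      ∃ G j : ℕ, 1 ≤ j ∧ Dec e H w₁ w₂ G y z T ∧ F e H w₁ w₂ y z T j ≤ G) :
    ∃ j : ZMod e, j ≠ 0 ∧ Good e j (A3 e (H * w₁) (H * w₂) y z D) := by
  have heZ : (0 : ℤ) < e := by exact_mod_cast (by omega : 0 < e)
  obtain ⟨T, hT⟩ := hdvd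
  have hD : e * T + D = H * (y * w₁ + z * w₂) := by linarith
  have hF1 : F e H w₁ w₂ y z T ((1 : ℕ) : ℤ) =
      y + z + (y * (H * w₁ / e) + z * (H * w₂ / e) - T) := by
    simp only [F, Nat.cast_one, mul_one]
    ring
  rcases lt_or_ge ((y : ℤ) * (H * w₁ / e) + z * (H * w₂ / e)) T with h | h
  · obtain ⟨G, j, hj, d, hF⟩ := core T h (by
      have : (0 : ℤ) ≤ D := by positivity
      linarith)
    have h3 := F_mod heZ (T := T) (by
      have : (0 : ℤ) ≤ D := by positivity
      linarith : e * T ≤ H * ((y : ℤ) * w₁ + z * w₂)) ((j % e : ℕ) : ℤ) ((j / e : ℕ) : ℤ)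
      (by positivity)
    have h4 : ((j % e : ℕ) : ℤ) + e * ((j / e : ℕ) : ℤ) = j := by
      exact_mod_cast Nat.mod_add_div j e
    rw [h4] at h3
    rcases Nat.eq_zero_or_pos (j % e) with h0 | h0
    · rw [h0] at h3
      have h5 : F e H w₁ w₂ y z T ((0 : ℕ) : ℤ) = y + z := by simp [F]
      rw [h5] at h3
      obtain ⟨k1, k2⟩ := dec_good he hD d le_rfl he (by rw [hF1]; linarith)
      exact ⟨_, k1, k2⟩
    · obtain ⟨k1, k2⟩ := dec_good he hD d h0 (Nat.mod_lt j (by omega)) (h3.trans hF)
      exact ⟨_, k1, k2⟩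
  · obtain ⟨p, hp⟩ := Int.eq_ofNat_of_zero_le (sub_nonneg.mpr h)
    have d := singles (e := (e : ℤ)) (K := H) (w₁ := w₁) (w₂ := w₂) heZ y z
    obtain ⟨D', hD', -⟩ := d.parts
    have hDD : D = D' + e * p := by
      have : (D : ℤ) = D' + e * p := by
        rw [← hp]
        linear_combination hD - hD'
      exact_mod_cast this
    obtain ⟨k1, k2⟩ := dec_good he hD' d le_rfl he (by
      simp only [F, Nat.cast_one, mul_one]
      push_cast
      linarith)
    refine ⟨_, k1, ?_⟩
    have : NeZero e := ⟨by omega⟩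
    have : Fact (1 < e) := ⟨he⟩
    have h6 := k2.addn (replicate e (-1)) (by
        intro h0
        have := congrArg card h0
        simp at this
        omega) (by simp [sum_replicate]) (by
        rw [map_replicate, sum_replicate, smul_eq_mul]
        have h7 : ((-1 : ZMod e) * ((1 : ℕ) : ZMod e)).val = e - 1 := by
          rw [Nat.cast_one, mul_one, ZMod.val_neg_of_ne_zero, ZMod.val_one]
        rw [h7]
        have : e - (e - 1) = 1 := by omega
        rw [this, mul_one]) p
    have e1 : A3 e (H * w₁) (H * w₂) y z D =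
        A3 e (H * w₁) (H * w₂) y z D' + p • replicate e (-1) := by
      unfold A3
      rw [hDD, replicate_add, nsmul_replicate]
      rw [mul_comm e p]
      abel
    rw [e1]
    exact h6

theorem Good.neg {e : ℕ} [NeZero e] {j : ZMod e} {X : Multiset (ZMod e)} (h : Good e j X) :
    Good e (-j) (X.map Neg.neg) := by
  obtain ⟨G, hP, hG⟩ := h
  refine ⟨G, ?_, ?_⟩
  · clear hG
    induction hP with
    | zero => simpa using Parts.zero
    | @cons G X g h0 hg _ ih =>
      rw [Multiset.map_add]
      refine ih.cons _ ?_ ?_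
      · simpa using h0
      · rw [Multiset.sum_map_neg', hg, neg_zero]
  · rw [Multiset.map_map]
    have : ((fun w : ZMod e => e - (w * -j).val) ∘ Neg.neg) = fun w => e - (w * j).val := by
      funext w
      simp
    rw [this]
    exact hG

end Pool.Agent.H93.TS
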